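import Pool.Agent.H780R2.Mallows.Struct

/-!
# Necessary and sufficient condition for optimality
-/

set_option autoImplicit false

namespace Pool.Agent.H780R2.Mallows

open Real MeasureTheory Set Filter Topology

section
variable {α : ℝ} {μ ν : Measure ℝ}

/-- uniform bound for `E s(u+Z)²` when `J` is bounded below -/
lemma Adm.q_bound (h : Adm α μ) (hα : 0 < α) {c : ℝ} (hJ : ∀ u, c ≤ Jfun μ u) (u : ℝ) :
    ∫ x, score μ x ^ 2 * phi (x - u) ≤ 4 * (∫ x, x ^ 2 * phi x) - 2 * c := by
  have hs := h.continuous_score hα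
  have i3 : Integrable (fun x => score μ x ^ 2 * phi (x - u)) :=
    integrable_mul_phi_sub (h := fun x => score μ x ^ 2) (hs.pow 2).aestronglyMeasurable
      (h.growth2 hα) u
  have i1 : Integrable (fun x => (x - u) ^ 2 * phi (x - u)) := integrable_sq_phi.comp_sub_right u
  have e1 : ∫ x, (x - u) ^ 2 * phi (x - u) = ∫ x, x ^ 2 * phi x :=
    integral_sub_right_eq_self (fun x => x ^ 2 * phi x) u
  have h1 : Jfun μ u ≤ ∫ x, (2 * ((x - u) ^ 2 * phi (x - u))
      - 1 / 2 * (score μ x ^ 2 * phi (x - u))) := by
    unfold Jfun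
    refine integral_mono (h.J_integrable hα u) ((i1.const_mul 2).sub (i3.const_mul (1 / 2)))
      fun x => ?_
    simp only
    have h2 := phi_nonneg (x - u)
    have h3 : -(2 * (x - u) * score μ x) - score μ x ^ 2
        ≤ 2 * (x - u) ^ 2 - 1 / 2 * score μ x ^ 2 := by
      nlinarith [sq_nonneg (2 * (x - u) + score μ x)]
    have h4 := mul_le_mul_of_nonneg_right h3 h2
    linarith
  rw [integral_sub (i1.const_mul 2) (i3.const_mul (1 / 2)), integral_const_mul,
    integral_const_mul, e1] at h1
  have := hJ u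
  linarith

/-- Supporting hyperplane inequality. -/
lemma Adm.support_le (h : Adm α μ) (h' : Adm α ν) (hα : 0 < α) {c : ℝ}
    (hJ : ∀ u, c ≤ Jfun μ u) :
    Integrable (Jfun μ) ν ∧ ∫ u, Jfun μ u ∂ν ≤ fish ν := by
  have := h.fin
  have := h'.fin
  have hs := h.continuous_score hα
  have hphi := continuous_phi
  have hk2 := integrable_kernel continuous_sq_phi integrable_sq_phi ν
  -- integrability of `s² φ(x-u)` on the product
  have hk3 : Integrable (fun p : ℝ × ℝ => score μ p.1 ^ 2 * phi (p.1 - p.2)) (volume.prod ν) := by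
    rw [integrable_prod_iff' (by fun_prop : Continuous fun p : ℝ × ℝ =>
      score μ p.1 ^ 2 * phi (p.1 - p.2)).aestronglyMeasurable]
    refine ⟨Eventually.of_forall fun u => integrable_mul_phi_sub (h := fun x => score μ x ^ 2)
      (hs.pow 2).aestronglyMeasurable (h.growth2 hα) u, ?_⟩
    refine Integrable.of_bound (C := 4 * (∫ x, x ^ 2 * phi x) - 2 * c) ?_
      (Eventually.of_forall fun u => ?_)
    · have hm : AEStronglyMeasurable (fun p : ℝ × ℝ => ‖score μ p.2 ^ 2 * phi (p.2 - p.1)‖)
          (ν.prod volume) := by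
        exact (by fun_prop : Continuous fun p : ℝ × ℝ =>
          ‖score μ p.2 ^ 2 * phi (p.2 - p.1)‖).aestronglyMeasurable
      exact hm.integral_prod_right'
    · have e : ∫ x, ‖score μ x ^ 2 * phi (x - u)‖ = ∫ x, score μ x ^ 2 * phi (x - u) := by
        refine integral_congr_ae (Eventually.of_forall fun x => ?_)
        exact Real.norm_of_nonneg (mul_nonneg (sq_nonneg _) (phi_nonneg _))
      rw [e, Real.norm_of_nonneg (integral_nonneg fun x =>
        mul_nonneg (sq_nonneg _) (phi_nonneg _))]
      exact h.q_bound hα hJ u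
  have hF : Integrable (fun p : ℝ × ℝ => (-(2 * (p.1 - p.2) * score μ p.1) - score μ p.1 ^ 2)
      * phi (p.1 - p.2)) (volume.prod ν) := by
    refine (hk2.add (hk3.const_mul 2)).mono' ?_ (Eventually.of_forall fun p => ?_)
    · exact (by fun_prop : Continuous fun p : ℝ × ℝ =>
        (-(2 * (p.1 - p.2) * score μ p.1) - score μ p.1 ^ 2) * phi (p.1 - p.2)).aestronglyMeasurable
    · simp only [Pi.add_apply]
      rw [norm_mul, Real.norm_of_nonneg (phi_nonneg _), Real.norm_eq_abs]
      have h3 : |-(2 * (p.1 - p.2) * score μ p.1) - score μ p.1 ^ 2| ≤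
          (p.1 - p.2) ^ 2 + 2 * score μ p.1 ^ 2 := by
        rw [abs_le]
        constructor
        · nlinarith [sq_nonneg (p.1 - p.2 - score μ p.1), sq_nonneg (p.1 - p.2)]
        · nlinarith [sq_nonneg (p.1 - p.2 + score μ p.1), sq_nonneg (score μ p.1)]
      have h4 := mul_le_mul_of_nonneg_right h3 (phi_nonneg (p.1 - p.2))
      linarith
  refine ⟨hF.integral_prod_right, ?_⟩
  have hinner : ∀ x, ∫ u, (-(2 * (x - u) * score μ x) - score μ x ^ 2) * phi (x - u) ∂ν
      = 2 * score μ x * dens1 ν x - score μ x ^ 2 * dens ν x := by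
    intro x
    have e : ∀ u, (-(2 * (x - u) * score μ x) - score μ x ^ 2) * phi (x - u)
        = 2 * score μ x * (-((x - u) * phi (x - u))) - score μ x ^ 2 * phi (x - u) := fun u => by
      ring
    simp_rw [e]
    rw [integral_sub ((integrable_k1 ν x).const_mul _) ((integrable_k0 ν x).const_mul _),
      integral_const_mul, integral_const_mul]
    rfl
  have hout : Integrable (fun x => 2 * score μ x * dens1 ν x - score μ x ^ 2 * dens ν x) := by
    have := hF.integral_prod_left
    simp only [hinner] at this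
    exact this
  have e : ∫ u, Jfun μ u ∂ν = ∫ x, (2 * score μ x * dens1 ν x - score μ x ^ 2 * dens ν x) := by
    unfold Jfun
    rw [← integral_integral_swap hF]
    exact integral_congr_ae (Eventually.of_forall fun x => hinner x)
  rw [e]
  unfold fish
  refine integral_mono hout (h'.integrable_fish hα) fun x => ?_
  simp only
  have hd := h'.dens_pos hα x
  have hsc := h'.score_mul hα x
  rw [← hsc]
  nlinarith [mul_nonneg (sq_nonneg (score μ x - score ν x)) hd.le]

/-- Optimality criterion. -/
theorem InClass.criterion (h : InClass α μ) (hα : 0 < α) (hα1 : α < 1) :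
    (∀ ν, Adm α ν → fish μ ≤ fish ν) ↔
      ∀ u, fish μ ≤ α * Jfun μ 0 + (1 - α) * Jfun μ u := by
  constructor
  · intro hmin u
    exact h.adm.first_order_pt hα hmin (by linarith) (by linarith) u
  · intro hcrit
    -- it suffices to compare with elements of the class
    obtain ⟨μ0, h0, hmin0⟩ := exists_min_class hα hα1
    have hα1' : 0 < 1 - α := by linarith
    set c := (fish μ - α * Jfun μ 0) / (1 - α) with hc
    have hJc : ∀ u, c ≤ Jfun μ u := by
      intro u
      rw [hc, div_le_iff₀ hα1']
      have := hcrit u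
      linarith
    obtain ⟨hi, hle⟩ := h.adm.support_le h0.adm hα hJc
    have hp := h0.prob
    have hsplit : ∫ u, Jfun μ u ∂μ0
        = α * Jfun μ 0 + ∫ u in ({0} : Set ℝ)ᶜ, Jfun μ u ∂μ0 := by
      rw [← integral_add_compl (measurableSet_singleton (0 : ℝ)) hi, integral_singleton,
        smul_eq_mul]
      have : μ0.real {0} = α := by
        unfold Measure.real
        rw [h0.atom, ENNReal.toReal_ofReal hα.le]
      rw [this]
    have hge : (1 - α) * c ≤ ∫ u in ({0} : Set ℝ)ᶜ, Jfun μ u ∂μ0 := by
      have h1 : ∫ u in ({0} : Set ℝ)ᶜ, c ∂μ0 ≤ ∫ u in ({0} : Set ℝ)ᶜ, Jfun μ u ∂μ0 :=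
        integral_mono (integrable_const _) hi.restrict fun u => hJc u
      rw [setIntegral_const, smul_eq_mul] at h1
      have : μ0.real ({0} : Set ℝ)ᶜ = 1 - α := by
        rw [measureReal_compl (measurableSet_singleton (0 : ℝ))]
        have e1 : μ0.real {0} = α := by
          unfold Measure.real
          rw [h0.atom, ENNReal.toReal_ofReal hα.le]
        rw [e1]
        simp
      rw [this] at h1
      exact h1
    have hfc : fish μ = α * Jfun μ 0 + (1 - α) * c := by
      rw [hc]; field_simp; ring
    intro ν hν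
    have h2 := hmin0 ν hν
    linarith

end

end Pool.Agent.H780R2.Mallows
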