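import Pool.Agent.H780R2.Mallows.Gauss

/-!
# Gaussian mixtures: density, derivative, score
-/

set_option autoImplicit false

namespace Pool.Agent.H780R2.Mallows

open Real MeasureTheory Set Filter Topology

/-- The density `f(x) = ∫ φ(x-u) dμ(u)` of the Gaussian mixture with mixing measure `μ`. -/
noncomputable def dens (μ : Measure ℝ) (x : ℝ) : ℝ := ∫ u, phi (x - u) ∂μ

/-- The derivative of `dens`. -/
noncomputable def dens1 (μ : Measure ℝ) (x : ℝ) : ℝ := ∫ u, -((x - u) * phi (x - u)) ∂μ

/-- `∫ (x-u)² φ(x-u) dμ(u)`. -/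
noncomputable def dens2 (μ : Measure ℝ) (x : ℝ) : ℝ := ∫ u, (x - u) ^ 2 * phi (x - u) ∂μ

section basic

variable (μ : Measure ℝ) [IsFiniteMeasure μ]

lemma integrable_k0 (x : ℝ) : Integrable (fun u => phi (x - u)) μ := by
  refine Integrable.of_bound (C := 1) ?_ (Eventually.of_forall fun u => ?_)
  · exact (continuous_phi.comp (by fun_prop : Continuous fun u : ℝ => x - u)).aestronglyMeasurable
  · rw [Real.norm_of_nonneg (phi_nonneg _)]
    exact phi_le_one _

lemma integrable_k1 (x : ℝ) : Integrable (fun u => -((x - u) * phi (x - u))) μ := by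
  refine Integrable.of_bound (C := 1) ?_ (Eventually.of_forall fun u => ?_)
  · have := continuous_phi
    exact (by fun_prop : Continuous fun u : ℝ => -((x - u) * phi (x - u))).aestronglyMeasurable
  · rw [norm_neg, norm_mul, Real.norm_of_nonneg (phi_nonneg _), Real.norm_eq_abs]
    exact abs_mul_phi_le _

lemma integrable_k2 (x : ℝ) : Integrable (fun u => (x - u) ^ 2 * phi (x - u)) μ := by
  refine Integrable.of_bound (C := 1) ?_ (Eventually.of_forall fun u => ?_)
  · have := continuous_phi
    exact (by fun_prop : Continuous fun u : ℝ => (x - u) ^ 2 * phi (x - u)).aestronglyMeasurable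
  · rw [norm_mul, Real.norm_of_nonneg (phi_nonneg _), Real.norm_of_nonneg (sq_nonneg _)]
    exact sq_mul_phi_le _

lemma hasDerivAt_dens (x : ℝ) : HasDerivAt (dens μ) (dens1 μ x) x := by
  have := continuous_phi
  refine (hasDerivAt_integral_of_dominated_loc_of_deriv_le (F := fun x u => phi (x - u))
    (F' := fun x u => -((x - u) * phi (x - u))) (bound := fun _ => 1) (μ := μ)
    (s := univ) univ_mem ?_ (integrable_k0 μ x) ?_ ?_ (integrable_const _) ?_).2
  · exact Eventually.of_forall fun y => (integrable_k0 μ y).aestronglyMeasurable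
  · exact (integrable_k1 μ x).aestronglyMeasurable
  · refine Eventually.of_forall fun u y _ => ?_
    rw [norm_neg, norm_mul, Real.norm_of_nonneg (phi_nonneg _), Real.norm_eq_abs]
    exact abs_mul_phi_le _
  · refine Eventually.of_forall fun u y _ => ?_
    have h := hasDerivAt_phi (y - u)
    have h2 : HasDerivAt (fun y : ℝ => y - u) 1 y := (hasDerivAt_id y).sub_const u
    have := h.comp y h2
    simpa [Function.comp_def] using this

lemma deriv_dens : deriv (dens μ) = dens1 μ := funext fun x => (hasDerivAt_dens μ x).deriv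

lemma continuous_dens : Continuous (dens μ) :=
  continuous_iff_continuousAt.2 fun x => (hasDerivAt_dens μ x).continuousAt

lemma continuous_dens1 : Continuous (dens1 μ) := by
  have := continuous_phi
  refine continuous_of_dominated (bound := fun _ => 1) (fun x => (integrable_k1 μ x).1) ?_
    (integrable_const _) ?_
  · refine fun x => Eventually.of_forall fun u => ?_
    rw [norm_neg, norm_mul, Real.norm_of_nonneg (phi_nonneg _), Real.norm_eq_abs]
    exact abs_mul_phi_le _
  · refine Eventually.of_forall fun u => ?_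
    fun_prop

lemma dens_nonneg (x : ℝ) : 0 ≤ dens μ x := integral_nonneg fun _ => phi_nonneg _

lemma dens2_nonneg (x : ℝ) : 0 ≤ dens2 μ x :=
  integral_nonneg fun _ => mul_nonneg (sq_nonneg _) (phi_nonneg _)

lemma dens_le (x : ℝ) : dens μ x ≤ μ.real univ := by
  unfold dens
  calc ∫ u, phi (x - u) ∂μ ≤ ∫ _, (1 : ℝ) ∂μ :=
        integral_mono (integrable_k0 μ x) (integrable_const _) fun u => phi_le_one _
    _ = μ.real univ := by simp

/-- Cauchy-Schwarz. -/
lemma dens1_sq_le (x : ℝ) : dens1 μ x ^ 2 ≤ dens μ x * dens2 μ x := by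
  -- the quadratic polynomial `t ↦ ∫ (t + (x-u))² φ` is nonnegative
  have key : ∀ t : ℝ, 0 ≤ dens μ x * (t * t) + (2 * dens1 μ x) * t + dens2 μ x := by
    intro t
    have h1 : dens μ x * (t * t) + (2 * dens1 μ x) * t + dens2 μ x
        = ∫ u, (t - (x - u)) ^ 2 * phi (x - u) ∂μ := by
      have e : ∀ u, (t - (x - u)) ^ 2 * phi (x - u)
          = t * t * phi (x - u) + 2 * t * (-((x - u) * phi (x - u)))
            + (x - u) ^ 2 * phi (x - u) := fun u => by ring
      simp_rw [e]
      rw [integral_add, integral_add, integral_const_mul, integral_const_mul]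
      · unfold dens dens1 dens2; ring
      · exact (integrable_k0 μ x).const_mul _
      · exact (integrable_k1 μ x).const_mul _
      · exact ((integrable_k0 μ x).const_mul _).add ((integrable_k1 μ x).const_mul _)
      · exact integrable_k2 μ x
    rw [h1]
    exact integral_nonneg fun u => mul_nonneg (sq_nonneg _) (phi_nonneg _)
  have := discrim_le_zero key
  unfold discrim at this
  nlinarith

end basic

/-- Integrability of a kernel in both variables. -/
lemma integrable_kernel {h : ℝ → ℝ} (hc : Continuous h) (hi : Integrable h)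
    (μ : Measure ℝ) [IsFiniteMeasure μ] :
    Integrable (fun p : ℝ × ℝ => h (p.1 - p.2)) (volume.prod μ) := by
  have hm : AEStronglyMeasurable (fun p : ℝ × ℝ => h (p.1 - p.2)) (volume.prod μ) :=
    (hc.comp (by fun_prop : Continuous fun p : ℝ × ℝ => p.1 - p.2)).aestronglyMeasurable
  rw [integrable_prod_iff' hm]
  refine ⟨Eventually.of_forall fun u => hi.comp_sub_right u, ?_⟩
  have : (fun u : ℝ => ∫ x, ‖h (x - u)‖) = fun _ => ∫ x, ‖h x‖ := by
    funext u
    exact integral_sub_right_eq_self (fun x => ‖h x‖) u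
  simp only [this]
  exact integrable_const _

section basic2

variable (μ : Measure ℝ) [IsFiniteMeasure μ]

lemma integrable_dens : Integrable (dens μ) :=
  (integrable_kernel continuous_phi integrable_phi μ).integral_prod_left

lemma integral_dens : ∫ x, dens μ x = μ.real univ := by
  unfold dens
  rw [integral_integral_swap (integrable_kernel continuous_phi integrable_phi μ)]
  have : ∀ u : ℝ, ∫ x, phi (x - u) = 1 := fun u => by
    rw [integral_sub_right_eq_self (fun x => phi x) u, integral_phi]
  simp [this]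

lemma continuous_sq_phi : Continuous (fun x => x ^ 2 * phi x) := by
  have := continuous_phi
  fun_prop

lemma integrable_dens2 : Integrable (dens2 μ) :=
  (integrable_kernel continuous_sq_phi integrable_sq_phi μ).integral_prod_left

end basic2

/-- The score `s = f'/f`. -/
noncomputable def score (μ : Measure ℝ) (x : ℝ) : ℝ := dens1 μ x / dens μ x

/-- Admissible (sub-probability) mixing measures with mass at least `α` at the origin. -/
structure Adm (α : ℝ) (μ : Measure ℝ) : Prop where
  fin : IsFiniteMeasure μ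
  mass : μ univ ≤ 1
  symm : μ.map (fun u => -u) = μ
  atom : ENNReal.ofReal α ≤ μ {0}

section adm

variable {α : ℝ} {μ : Measure ℝ}

lemma Adm.real_univ_le (h : Adm α μ) : μ.real univ ≤ 1 := by
  have := h.fin
  unfold Measure.real
  rw [← ENNReal.toReal_one]
  exact ENNReal.toReal_mono (by simp) h.mass

lemma Adm.alpha_le_real (h : Adm α μ) : α ≤ μ.real {0} := by
  have := h.fin
  exact (ENNReal.ofReal_le_iff_le_toReal (measure_ne_top _ _)).1 h.atom

lemma Adm.le_dens (h : Adm α μ) (x : ℝ) : α * phi x ≤ dens μ x := by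
  have := h.fin
  have h1 : ∫ u in ({0} : Set ℝ), phi (x - u) ∂μ ≤ dens μ x :=
    setIntegral_le_integral (integrable_k0 μ x) (Eventually.of_forall fun u => phi_nonneg _)
  rw [integral_singleton, sub_zero, smul_eq_mul] at h1
  exact (mul_le_mul_of_nonneg_right h.alpha_le_real (phi_nonneg x)).trans h1

lemma Adm.dens_pos (h : Adm α μ) (hα : 0 < α) (x : ℝ) : 0 < dens μ x :=
  (mul_pos hα (phi_pos x)).trans_le (h.le_dens x)

lemma Adm.dens_le_one (h : Adm α μ) (x : ℝ) : dens μ x ≤ 1 := by
  have := h.fin
  exact (dens_le μ x).trans h.real_univ_le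

lemma Adm.dens_neg (h : Adm α μ) (x : ℝ) : dens μ (-x) = dens μ x := by
  have := h.fin
  unfold dens
  conv_lhs => rw [← h.symm]
  rw [integral_map (by fun_prop)]
  · refine integral_congr_ae (Eventually.of_forall fun u => ?_)
    simp only
    rw [← phi_neg]
    congr 1; ring
  · exact (continuous_phi.comp (by fun_prop : Continuous fun u : ℝ => -x - u)).aestronglyMeasurable

lemma Adm.dens1_neg (h : Adm α μ) (x : ℝ) : dens1 μ (-x) = -dens1 μ x := by
  have := h.fin
  have hphi := continuous_phi
  unfold dens1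
  conv_lhs => rw [← h.symm]
  rw [integral_map (by fun_prop), ← integral_neg]
  · refine integral_congr_ae (Eventually.of_forall fun u => ?_)
    simp only
    have : -x - -u = -(x - u) := by ring
    rw [this, phi_neg]
    ring
  · exact (by fun_prop : Continuous fun u : ℝ => -((-x - u) * phi (-x - u))).aestronglyMeasurable

lemma Adm.score_neg (h : Adm α μ) (x : ℝ) : score μ (-x) = -score μ x := by
  unfold score
  rw [h.dens_neg, h.dens1_neg, neg_div]

lemma Adm.continuous_score (h : Adm α μ) (hα : 0 < α) : Continuous (score μ) := by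
  have := h.fin
  exact (continuous_dens1 μ).div (continuous_dens μ) fun x => (h.dens_pos hα x).ne'

/-- the moment bound: `∫ (x-u)² φ(x-u) dμ ≤ 2 f(x) log (1/L)` if `0 < L ≤ √(2π) f(x)`. -/
lemma Adm.dens2_le (h : Adm α μ) (x : ℝ) {L : ℝ} (hL : 0 < L)
    (hLf : L ≤ √(2 * π) * dens μ x) : dens2 μ x ≤ 2 * (dens μ x * (-log L)) := by
  have := h.fin
  have hpi := sqrt_two_pi_pos
  -- pointwise inequality
  have key : ∀ u, (x - u) ^ 2 * phi (x - u) ≤
      2 * (phi (x - u) * (-log L) + (√(2 * π))⁻¹ * L - phi (x - u)) := by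
    intro u
    set w : ℝ := exp (-((x - u) ^ 2) / 2) with hw
    have hwp : 0 < w := exp_pos _
    have hphi : phi (x - u) = (√(2 * π))⁻¹ * w := rfl
    have hlogw : (x - u) ^ 2 = -2 * log w := by
      rw [hw, log_exp]; ring
    have h1 : log (L / w) ≤ L / w - 1 := log_le_sub_one_of_pos (div_pos hL hwp)
    rw [log_div hL.ne' hwp.ne'] at h1
    have h2 : w * (log L - log w) ≤ L - w := by
      have := mul_le_mul_of_nonneg_left h1 hwp.le
      have e : w * (L / w - 1) = L - w := by field_simp
      rwa [e] at this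
    rw [hphi, hlogw]
    have h3 : 0 < (√(2 * π))⁻¹ := inv_pos.2 hpi
    have h4 : -2 * log w * ((√(2 * π))⁻¹ * w) = (√(2 * π))⁻¹ * (2 * (-(w * log w))) := by ring
    rw [h4]
    have h5 : 2 * ((√(2 * π))⁻¹ * w * -log L + (√(2 * π))⁻¹ * L - (√(2 * π))⁻¹ * w)
      = (√(2 * π))⁻¹ * (2 * (-(w * log L) + L - w)) := by ring
    rw [h5]
    refine mul_le_mul_of_nonneg_left ?_ h3.le
    nlinarith
  have hint : Integrable (fun u => 2 * (phi (x - u) * (-log L) + (√(2 * π))⁻¹ * L - phi (x - u)))
      μ := by
    refine Integrable.const_mul ?_ _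
    exact (((integrable_k0 μ x).mul_const _).add (integrable_const _)).sub (integrable_k0 μ x)
  have h1 : dens2 μ x ≤ 2 * (dens μ x * (-log L) + (√(2 * π))⁻¹ * L * μ.real univ
      - dens μ x) := by
    unfold dens2
    refine (integral_mono (integrable_k2 μ x) hint key).trans (le_of_eq ?_)
    rw [integral_const_mul, integral_sub, integral_add, integral_mul_const]
    · simp [dens]
      ring
    · exact (integrable_k0 μ x).mul_const _
    · exact integrable_const _
    · exact ((integrable_k0 μ x).mul_const _).add (integrable_const _)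
    · exact integrable_k0 μ x
  have h2 : (√(2 * π))⁻¹ * L * μ.real univ ≤ dens μ x := by
    have h3 : (√(2 * π))⁻¹ * L ≤ dens μ x := by
      rw [inv_mul_le_iff₀ hpi]; exact hLf
    have h4 : 0 ≤ (√(2 * π))⁻¹ * L := by positivity
    have h5 := h.real_univ_le
    have h6 : 0 ≤ μ.real univ := measureReal_nonneg
    nlinarith
  linarith

/-- `s² ≤ 2 log (1/L)` if `0 < L ≤ √(2π) f(x)`. -/
lemma Adm.score_sq_le' (h : Adm α μ) (hα : 0 < α) (x : ℝ) {L : ℝ} (hL : 0 < L)
    (hLf : L ≤ √(2 * π) * dens μ x) : score μ x ^ 2 ≤ 2 * (-log L) := by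
  have := h.fin
  have hf := h.dens_pos hα x
  unfold score
  rw [div_pow, div_le_iff₀ (by positivity)]
  have h1 := dens1_sq_le μ x
  have h2 := h.dens2_le x hL hLf
  have h3 := mul_le_mul_of_nonneg_left h2 hf.le
  nlinarith

/-- the constant in the score bound -/
noncomputable def scoreConst (α : ℝ) : ℝ := 2 * (-log α)

lemma scoreConst_nonneg {α : ℝ} (hα : 0 < α) (hα1 : α ≤ 1) : 0 ≤ scoreConst α := by
  unfold scoreConst
  have := log_nonpos hα.le hα1
  linarith

lemma Adm.score_sq_le (h : Adm α μ) (hα : 0 < α) (x : ℝ) :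
    score μ x ^ 2 ≤ x ^ 2 + scoreConst α := by
  have hL : 0 < α * exp (-(x ^ 2) / 2) := by positivity
  have hLf : α * exp (-(x ^ 2) / 2) ≤ √(2 * π) * dens μ x := by
    have h1 := h.le_dens x
    have h2 := mul_le_mul_of_nonneg_left h1 sqrt_two_pi_pos.le
    refine le_trans (le_of_eq ?_) h2
    unfold phi
    have := sqrt_two_pi_pos.ne'
    field_simp
  have := h.score_sq_le' hα x hL hLf
  rw [log_mul hα.ne' (exp_pos _).ne', log_exp] at this
  unfold scoreConst
  linarith

lemma Adm.alpha_le_one (h : Adm α μ) : α ≤ 1 := by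
  have := h.fin
  have h1 := h.alpha_le_real
  have h2 : μ.real {0} ≤ μ.real univ := measureReal_mono (subset_univ _)
  linarith [h.real_univ_le]

lemma Adm.abs_score_le (h : Adm α μ) (hα : 0 < α) (x : ℝ) :
    |score μ x| ≤ |x| + √(scoreConst α) := by
  have h1 := h.score_sq_le hα x
  have h0 := scoreConst_nonneg hα h.alpha_le_one
  have h2 : score μ x ^ 2 ≤ (|x| + √(scoreConst α)) ^ 2 := by
    have h3 := Real.sq_sqrt h0
    have h4 : 0 ≤ |x| * √(scoreConst α) := by positivity
    nlinarith [sq_abs x]
  exact abs_le_of_sq_le_sq h2 (by positivity)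

end adm

end Pool.Agent.H780R2.Mallows
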