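import Pool.Agent.H780R2.Mallows.Exists

/-!
# Euler identity, Laplace-type transforms, Riccati argument
-/

set_option autoImplicit false

namespace Pool.Agent.H780R2.Mallows

open Real MeasureTheory Set Filter Topology

section
variable {α : ℝ} {μ : Measure ℝ}

lemma Adm.integrable_F (h : Adm α μ) (hα : 0 < α) :
    Integrable (fun p : ℝ × ℝ => (-(2 * (p.1 - p.2) * score μ p.1) - score μ p.1 ^ 2)
      * phi (p.1 - p.2)) (volume.prod μ) := by
  have := h.fin
  have hs := h.continuous_score hα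
  have hphi := continuous_phi
  have h1 := integrable_kernel continuous_sq_phi integrable_sq_phi μ
  have h2 : Integrable (fun p : ℝ × ℝ => score μ p.1 ^ 2 * phi (p.1 - p.2)) (volume.prod μ) := by
    rw [integrable_prod_iff (by fun_prop : Continuous fun p : ℝ × ℝ =>
      score μ p.1 ^ 2 * phi (p.1 - p.2)).aestronglyMeasurable]
    refine ⟨Eventually.of_forall fun x => (integrable_k0 μ x).const_mul (score μ x ^ 2), ?_⟩
    refine (h.integrable_fish hα).congr (Eventually.of_forall fun x => ?_)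
    simp only
    unfold dens
    rw [← integral_const_mul]
    refine integral_congr_ae (Eventually.of_forall fun u => ?_)
    simp only
    rw [Real.norm_of_nonneg (mul_nonneg (sq_nonneg _) (phi_nonneg _))]
  refine (h1.add (h2.const_mul 2)).mono' ?_ (Eventually.of_forall fun p => ?_)
  · exact (by fun_prop : Continuous fun p : ℝ × ℝ =>
      (-(2 * (p.1 - p.2) * score μ p.1) - score μ p.1 ^ 2) * phi (p.1 - p.2)).aestronglyMeasurable
  · simp only [Pi.add_apply]
    rw [norm_mul, Real.norm_of_nonneg (phi_nonneg _), Real.norm_eq_abs]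
    have h3 : |-(2 * (p.1 - p.2) * score μ p.1) - score μ p.1 ^ 2| ≤
        (p.1 - p.2) ^ 2 + 2 * score μ p.1 ^ 2 := by
      rw [abs_le]
      constructor
      · nlinarith [sq_nonneg (p.1 - p.2 - score μ p.1), sq_nonneg (p.1 - p.2)]
      · nlinarith [sq_nonneg (p.1 - p.2 + score μ p.1), sq_nonneg (score μ p.1)]
    have h4 := mul_le_mul_of_nonneg_right h3 (phi_nonneg (p.1 - p.2))
    linarith

lemma Adm.integrable_J (h : Adm α μ) (hα : 0 < α) : Integrable (Jfun μ) μ := by
  have := h.fin
  exact (h.integrable_F hα).integral_prod_right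

lemma Adm.integral_J (h : Adm α μ) (hα : 0 < α) : ∫ u, Jfun μ u ∂μ = fish μ := by
  have := h.fin
  unfold Jfun
  rw [← integral_integral_swap (h.integrable_F hα)]
  unfold fish
  refine integral_congr_ae (Eventually.of_forall fun x => ?_)
  simp only
  have e : ∀ u, (-(2 * (x - u) * score μ x) - score μ x ^ 2) * phi (x - u)
      = 2 * score μ x * (-((x - u) * phi (x - u))) - score μ x ^ 2 * phi (x - u) := fun u => by
    ring
  simp_rw [e]
  rw [integral_sub ((integrable_k1 μ x).const_mul _) ((integrable_k0 μ x).const_mul _),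
    integral_const_mul, integral_const_mul]
  have h1 := h.score_mul hα x
  change 2 * score μ x * dens1 μ x - score μ x ^ 2 * dens μ x = _
  rw [← h1]
  ring

end

/-! ### bilateral Laplace transforms against `φ` -/

/-- `M h z = ∫ h(x) φ(x) e^{xz} dx`. -/
noncomputable def MM (h : ℝ → ℝ) (z : ℂ) : ℂ :=
  ∫ x : ℝ, ((h x * phi x : ℝ) : ℂ) * Complex.exp ((x : ℂ) * z)

/-- real version -/
noncomputable def mm (h : ℝ → ℝ) (u : ℝ) : ℝ := ∫ x : ℝ, h x * phi x * exp (x * u)

lemma MM_ofReal (h : ℝ → ℝ) (u : ℝ) : MM h u = ((mm h u : ℝ) : ℂ) := by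
  unfold MM mm
  rw [← integral_complex_ofReal]
  refine integral_congr_ae (Eventually.of_forall fun x => ?_)
  simp only
  push_cast
  rfl

lemma norm_cexp_mul_le (x : ℝ) (z : ℂ) : ‖Complex.exp ((x : ℂ) * z)‖ ≤ exp (|x| * ‖z‖) := by
  rw [Complex.norm_exp]
  rw [exp_le_exp]
  have : ((x : ℂ) * z).re = x * z.re := by simp
  rw [this]
  calc x * z.re ≤ |x * z.re| := le_abs_self _
    _ = |x| * |z.re| := abs_mul _ _
    _ ≤ |x| * ‖z‖ := by gcongr; exact Complex.abs_re_le_norm z

lemma MM_integrable {h : ℝ → ℝ} (hc : Continuous h) {C a : ℝ}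
    (hb : ∀ x, |h x| ≤ C * exp (a * |x|)) (z : ℂ) :
    Integrable (fun x : ℝ => ((h x * phi x : ℝ) : ℂ) * Complex.exp ((x : ℂ) * z)) := by
  have hphi := continuous_phi
  have h1 := integrable_mul_phi (h := fun x => |h x| * exp (|x| * ‖z‖)) (C := C) (a := a + ‖z‖)
    (by fun_prop : Continuous fun x => |h x| * exp (|x| * ‖z‖)).aestronglyMeasurable (fun x => by
      rw [abs_mul, abs_abs, abs_of_pos (exp_pos _), add_mul, exp_add, ← mul_assoc, mul_comm ‖z‖]
      exact mul_le_mul_of_nonneg_right (hb x) (exp_pos _).le)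
  refine h1.mono' ?_ (Eventually.of_forall fun x => ?_)
  · exact (by fun_prop : Continuous fun x : ℝ =>
      ((h x * phi x : ℝ) : ℂ) * Complex.exp ((x : ℂ) * z)).aestronglyMeasurable
  · rw [norm_mul, Complex.norm_real, norm_mul, Real.norm_eq_abs,
      Real.norm_of_nonneg (phi_nonneg x)]
    have := norm_cexp_mul_le x z
    have h2 := mul_le_mul_of_nonneg_left this (mul_nonneg (abs_nonneg (h x)) (phi_nonneg x))
    linarith

lemma mul_growth {h : ℝ → ℝ} {C a : ℝ} (hb : ∀ x, |h x| ≤ C * exp (a * |x|)) (x : ℝ) :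
    |x * h x| ≤ C * exp ((a + 1) * |x|) := by
  rw [abs_mul, add_mul, exp_add, one_mul]
  have h1 := hb x
  have h2 := abs_le_exp_abs x
  have h3 := mul_le_mul h2 h1 (abs_nonneg _) (exp_pos _).le
  linarith

lemma MM_hasDerivAt {h : ℝ → ℝ} (hc : Continuous h) {C a : ℝ}
    (hb : ∀ x, |h x| ≤ C * exp (a * |x|)) (z : ℂ) :
    HasDerivAt (MM h) (MM (fun x => x * h x) z) z := by
  have hphi := continuous_phi
  have hb2 := mul_growth hb
  have key := hasDerivAt_integral_of_dominated_loc_of_deriv_le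
    (F := fun (z : ℂ) (x : ℝ) => ((h x * phi x : ℝ) : ℂ) * Complex.exp ((x : ℂ) * z))
    (F' := fun (z : ℂ) (x : ℝ) => ((x * h x * phi x : ℝ) : ℂ) * Complex.exp ((x : ℂ) * z))
    (bound := fun x => |x * h x| * exp (|x| * (‖z‖ + 1)) * phi x)
    (μ := volume) (x₀ := z) (s := Metric.ball z 1) (Metric.ball_mem_nhds z one_pos)
    (Eventually.of_forall fun w => (MM_integrable hc hb w).aestronglyMeasurable)
    (MM_integrable hc hb z)
    (by
      have hc2 : Continuous (fun x => x * h x) := by fun_prop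
      exact (MM_integrable hc2 hb2 z).aestronglyMeasurable) ?_ ?_ ?_
  · exact key.2
  · refine Eventually.of_forall fun x w hw => ?_
    rw [norm_mul, Complex.norm_real, norm_mul, Real.norm_eq_abs,
      Real.norm_of_nonneg (phi_nonneg x)]
    have h1 := norm_cexp_mul_le x w
    have h2 : ‖w‖ ≤ ‖z‖ + 1 := by
      rw [Metric.mem_ball, dist_eq_norm] at hw
      have := norm_add_le (w - z) z
      rw [sub_add_cancel] at this
      linarith
    have h3 : exp (|x| * ‖w‖) ≤ exp (|x| * (‖z‖ + 1)) := by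
      rw [exp_le_exp]; gcongr
    have h4 := mul_le_mul_of_nonneg_left (h1.trans h3)
      (mul_nonneg (abs_nonneg (x * h x)) (phi_nonneg x))
    linarith
  · refine integrable_mul_phi (h := fun x => |x * h x| * exp (|x| * (‖z‖ + 1))) (C := C)
      (a := a + 1 + (‖z‖ + 1)) ?_ (fun x => ?_)
    · exact (by fun_prop : Continuous fun x =>
        |x * h x| * exp (|x| * (‖z‖ + 1))).aestronglyMeasurable
    · rw [abs_mul, abs_abs, abs_of_pos (exp_pos _), add_mul (a + 1), exp_add, ← mul_assoc,
        mul_comm (‖z‖ + 1)]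
      exact mul_le_mul_of_nonneg_right (hb2 x) (exp_pos _).le
  · refine Eventually.of_forall fun x w _ => ?_
    have h1 : HasDerivAt (fun w : ℂ => Complex.exp ((x : ℂ) * w))
        (Complex.exp ((x : ℂ) * w) * ((x : ℂ) * 1)) w :=
      ((hasDerivAt_id w).const_mul (x : ℂ)).cexp
    have h2 := h1.const_mul ((h x * phi x : ℝ) : ℂ)
    refine h2.congr_deriv ?_
    push_cast
    ring

lemma mm_hasDerivAt {h : ℝ → ℝ} (hc : Continuous h) {C a : ℝ}
    (hb : ∀ x, |h x| ≤ C * exp (a * |x|)) (u : ℝ) :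
    HasDerivAt (mm h) (mm (fun x => x * h x) u) u := by
  have h1 := (MM_hasDerivAt hc hb (u : ℂ)).real_of_complex
  have e : (fun x : ℝ => (MM h (x : ℂ)).re) = mm h := by
    funext x; rw [MM_ofReal]; simp
  rw [e, MM_ofReal] at h1
  simpa using h1

section
variable {α : ℝ} {μ : Measure ℝ}

/-- `b(u) = E s(u+Z)`. -/
noncomputable def bfun (μ : Measure ℝ) (u : ℝ) : ℝ := exp (-(u ^ 2) / 2) * mm (score μ) u

/-- `E s(u+Z)²`. -/
noncomputable def qfun (μ : Measure ℝ) (u : ℝ) : ℝ :=
  exp (-(u ^ 2) / 2) * mm (fun x => score μ x ^ 2) u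

lemma shift_eq (h : ℝ → ℝ) (u : ℝ) :
    exp (-(u ^ 2) / 2) * mm h u = ∫ x, h x * phi (x - u) := by
  unfold mm
  rw [← integral_const_mul]
  refine integral_congr_ae (Eventually.of_forall fun x => ?_)
  simp only
  rw [phi_sub, exp_sub]
  have : exp (-(u ^ 2) / 2) = (exp (u ^ 2 / 2))⁻¹ := by rw [← exp_neg]; congr 1; ring
  rw [this]
  ring

lemma Adm.growth1 (h : Adm α μ) (hα : 0 < α) (x : ℝ) :
    |score μ x| ≤ (1 + √(scoreConst α)) * exp (1 * |x|) := by
  rw [one_mul]; exact h.score_growth hα x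

lemma Adm.growth2 (h : Adm α μ) (hα : 0 < α) (x : ℝ) :
    |score μ x ^ 2| ≤ (1 + √(scoreConst α)) ^ 2 * exp (2 * |x|) := by
  rw [abs_pow]
  have h1 := pow_le_pow_left₀ (abs_nonneg _) (h.growth1 hα x) 2
  refine h1.trans (le_of_eq ?_)
  rw [mul_pow, ← exp_nat_mul]
  congr 2
  push_cast; ring

lemma Adm.J_eq (h : Adm α μ) (hα : 0 < α) (u : ℝ) :
    Jfun μ u = -(exp (-(u ^ 2) / 2) * (2 * mm (fun x => x * score μ x) u
      - 2 * u * mm (score μ) u + mm (fun x => score μ x ^ 2) u)) := by
  have hs := h.continuous_score hα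
  have e : exp (-(u ^ 2) / 2) * (2 * mm (fun x => x * score μ x) u
      - 2 * u * mm (score μ) u + mm (fun x => score μ x ^ 2) u)
      = 2 * (exp (-(u ^ 2) / 2) * mm (fun x => x * score μ x) u)
        - 2 * u * (exp (-(u ^ 2) / 2) * mm (score μ) u)
        + exp (-(u ^ 2) / 2) * mm (fun x => score μ x ^ 2) u := by ring
  rw [e, shift_eq, shift_eq, shift_eq]
  have i1 := integrable_mul_phi_sub (by fun_prop : Continuous fun x => x * score μ x).aestronglyMeasurable
    (mul_growth (h.growth1 hα)) u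
  have i2 := integrable_mul_phi_sub hs.aestronglyMeasurable (h.growth1 hα) u
  have i3 : Integrable (fun x => score μ x ^ 2 * phi (x - u)) :=
    integrable_mul_phi_sub (h := fun x => score μ x ^ 2) (hs.pow 2).aestronglyMeasurable
      (h.growth2 hα) u
  have e2 : Jfun μ u = ∫ x, -(2 * (x * score μ x * phi (x - u))
      - 2 * u * (score μ x * phi (x - u)) + score μ x ^ 2 * phi (x - u)) := by
    unfold Jfun
    refine integral_congr_ae (Eventually.of_forall fun x => ?_)
    simp only
    ring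
  rw [e2, integral_neg, integral_add, integral_sub, integral_const_mul, integral_const_mul]
  · exact i1.const_mul _
  · exact i2.const_mul _
  · exact (i1.const_mul _).sub (i2.const_mul _)
  · exact i3

lemma Adm.b_hasDerivAt (h : Adm α μ) (hα : 0 < α) (u : ℝ) :
    HasDerivAt (bfun μ) (exp (-(u ^ 2) / 2) * (mm (fun x => x * score μ x) u
      - u * mm (score μ) u)) u := by
  have hs := h.continuous_score hα
  have h1 := mm_hasDerivAt hs (h.growth1 hα) u
  have h2 : HasDerivAt (fun u : ℝ => exp (-(u ^ 2) / 2)) (exp (-(u ^ 2) / 2) * (-u)) u := by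
    have h0 : HasDerivAt (fun x : ℝ => x ^ 2) (2 * u) u := by
      simpa using hasDerivAt_pow 2 u
    have h00 : HasDerivAt (fun x : ℝ => -(x ^ 2) / 2) (-(2 * u) / 2) u := h0.neg.div_const 2
    refine h00.exp.congr_deriv ?_
    ring
  have h3 := h2.mul h1
  refine h3.congr_deriv ?_
  ring

lemma Adm.q_pos (h : Adm α μ) (hα : 0 < α) (u : ℝ) : 0 < qfun μ u := by
  have := h.fin
  have hs := h.continuous_score hα
  have hphi := continuous_phi
  unfold qfun
  rw [shift_eq (fun x => score μ x ^ 2)]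
  have i3 := integrable_mul_phi_sub (hs.pow 2).aestronglyMeasurable (h.growth2 hα) u
  have hnn : 0 ≤ fun x => score μ x ^ 2 * phi (x - u) :=
    fun x => mul_nonneg (sq_nonneg _) (phi_nonneg _)
  refine lt_of_le_of_ne (integral_nonneg hnn) fun h0 => ?_
  have h1 := (integral_eq_zero_iff_of_nonneg hnn i3).1 h0.symm
  have hc : Continuous (fun x => score μ x ^ 2 * phi (x - u)) := by fun_prop
  have h2 : (fun x => score μ x ^ 2 * phi (x - u)) = 0 :=
    (hc.ae_eq_iff_eq volume continuous_const).1 h1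
  have h3 := h.fish_pos hα
  unfold fish at h3
  have h4 : ∀ x, score μ x ^ 2 * dens μ x = 0 := fun x => by
    have h5 := congrFun h2 x
    simp only [Pi.zero_apply, mul_eq_zero, (phi_pos (x - u)).ne', or_false] at h5
    rw [h5, zero_mul]
  simp_rw [h4] at h3
  simp at h3

lemma Adm.b_sq_le (h : Adm α μ) (hα : 0 < α) (u : ℝ) : bfun μ u ^ 2 ≤ qfun μ u := by
  have hs := h.continuous_score hα
  have i2 := integrable_mul_phi_sub hs.aestronglyMeasurable (h.growth1 hα) u
  have i3 : Integrable (fun x => score μ x ^ 2 * phi (x - u)) :=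
    integrable_mul_phi_sub (h := fun x => score μ x ^ 2) (hs.pow 2).aestronglyMeasurable
      (h.growth2 hα) u
  have i0 : Integrable (fun x => phi (x - u)) := integrable_phi.comp_sub_right u
  have hb : bfun μ u = ∫ x, score μ x * phi (x - u) := shift_eq _ _
  have hq : qfun μ u = ∫ x, score μ x ^ 2 * phi (x - u) := shift_eq _ _
  have h1 : 0 ≤ ∫ x, (score μ x - bfun μ u) ^ 2 * phi (x - u) :=
    integral_nonneg fun x => mul_nonneg (sq_nonneg _) (phi_nonneg _)
  have h2 : ∫ x, (score μ x - bfun μ u) ^ 2 * phi (x - u)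
      = qfun μ u - 2 * bfun μ u * bfun μ u + bfun μ u ^ 2 := by
    have e : ∀ x, (score μ x - bfun μ u) ^ 2 * phi (x - u) = score μ x ^ 2 * phi (x - u)
        - 2 * bfun μ u * (score μ x * phi (x - u)) + bfun μ u ^ 2 * phi (x - u) := fun x => by ring
    simp_rw [e]
    rw [integral_add, integral_sub, integral_const_mul, integral_const_mul, ← hb, ← hq,
      integral_sub_right_eq_self (fun x => phi x) u, integral_phi]
    · ring
    · exact i3
    · exact i2.const_mul _
    · exact i3.sub (i2.const_mul _)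
    · exact i0.const_mul _
  rw [h2] at h1
  nlinarith

lemma Adm.b_zero (h : Adm α μ) : bfun μ 0 = 0 := by
  have hb : bfun μ 0 = ∫ x, score μ x * phi (x - 0) := shift_eq _ _
  rw [hb]
  have : ∫ x, score μ x * phi (x - 0) = -∫ x, score μ x * phi (x - 0) := by
    conv_lhs => rw [← integral_neg_eq_self]
    rw [← integral_neg]
    refine integral_congr_ae (Eventually.of_forall fun x => ?_)
    simp only [sub_zero]
    rw [h.score_neg, phi_neg]
    ring
  linarith

/-- The function `J` cannot be nonnegative everywhere (admissibility of the usual estimator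
in dimension one). -/
theorem Adm.J_not_nonneg (h : Adm α μ) (hα : 0 < α) : ¬ ∀ u, 0 ≤ Jfun μ u := by
  intro hJ
  set b' : ℝ → ℝ := fun u => exp (-(u ^ 2) / 2) * (mm (fun x => x * score μ x) u
      - u * mm (score μ) u) with hb'
  have hder : ∀ u, HasDerivAt (bfun μ) (b' u) u := fun u => h.b_hasDerivAt hα u
  have hJeq : ∀ u, Jfun μ u = -(2 * b' u + qfun μ u) := by
    intro u
    rw [h.J_eq hα]
    unfold qfun
    simp only [hb']
    ring
  have hric : ∀ u, 2 * b' u + qfun μ u ≤ 0 := fun u => by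
    have := hJ u
    rw [hJeq] at this
    linarith
  have hneg : ∀ u, b' u < 0 := fun u => by
    have := hric u
    have := h.q_pos hα u
    linarith
  have hanti : StrictAnti (bfun μ) := by
    apply strictAnti_of_deriv_neg
    intro u
    rw [(hder u).deriv]
    exact hneg u
  have hb1 : bfun μ 1 < 0 := by
    have := hanti (zero_lt_one' ℝ)
    rwa [h.b_zero] at this
  have hbneg : ∀ u, 1 ≤ u → bfun μ u < 0 := fun u hu => (hanti.antitone hu).trans_lt hb1
  -- the function `1/b - u/2` is monotone on `[1,∞)`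
  have hmono : MonotoneOn (fun u => (bfun μ u)⁻¹ - u / 2) (Ici 1) := by
    have hd : ∀ u ∈ Ici (1 : ℝ), HasDerivAt (fun u => (bfun μ u)⁻¹ - u / 2)
        (-b' u / bfun μ u ^ 2 - 1 / 2) u := by
      intro u hu
      exact ((hder u).inv (hbneg u hu).ne).sub ((hasDerivAt_id u).div_const 2)
    apply monotoneOn_of_deriv_nonneg (convex_Ici 1)
    · intro u hu
      exact (hd u hu).continuousAt.continuousWithinAt
    · intro u hu
      rw [interior_Ici] at hu
      exact (hd u (mem_Ici.2 (le_of_lt hu))).differentiableAt.differentiableWithinAt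
    · intro u hu
      rw [interior_Ici] at hu
      have hu' : (1 : ℝ) ≤ u := le_of_lt hu
      rw [(hd u hu').deriv]
      have h1 := hric u
      have h2 := h.b_sq_le hα u
      have h3 : 0 < bfun μ u ^ 2 := by
        have := (hbneg u hu').ne
        positivity
      have h4 : 1 / 2 ≤ -b' u / bfun μ u ^ 2 := by
        rw [le_div_iff₀ h3]
        linarith
      linarith
  set v := (bfun μ 1)⁻¹ with hv
  have hvneg : v < 0 := inv_lt_zero.2 hb1
  have h1 := hmono (mem_Ici.2 le_rfl) (mem_Ici.2 (by linarith : (1 : ℝ) ≤ 1 - 2 * v))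
    (by linarith : (1 : ℝ) ≤ 1 - 2 * v)
  simp only at h1
  have h2 : (bfun μ (1 - 2 * v))⁻¹ < 0 := inv_lt_zero.2 (hbneg _ (by linarith))
  linarith

/-! ### analyticity of `J` -/

/-- entire extension of `J` -/
noncomputable def GG (μ : Measure ℝ) (z : ℂ) : ℂ :=
  -(Complex.exp (-(z ^ 2) / 2) * (2 * MM (fun x => x * score μ x) z
      - 2 * z * MM (score μ) z + MM (fun x => score μ x ^ 2) z))

lemma Adm.GG_ofReal (h : Adm α μ) (hα : 0 < α) (u : ℝ) : GG μ u = ((Jfun μ u : ℝ) : ℂ) := by
  rw [h.J_eq hα]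
  unfold GG
  rw [MM_ofReal, MM_ofReal, MM_ofReal]
  push_cast
  rfl

lemma Adm.GG_differentiable (h : Adm α μ) (hα : 0 < α) : Differentiable ℂ (GG μ) := by
  have hs := h.continuous_score hα
  have d1 : Differentiable ℂ (MM (fun x => x * score μ x)) := fun z =>
    (MM_hasDerivAt (by fun_prop) (mul_growth (h.growth1 hα)) z).differentiableAt
  have d2 : Differentiable ℂ (MM (score μ)) := fun z =>
    (MM_hasDerivAt hs (h.growth1 hα) z).differentiableAt
  have d3 : Differentiable ℂ (MM (fun x => score μ x ^ 2)) := fun z =>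
    (MM_hasDerivAt (hs.pow 2) (h.growth2 hα) z).differentiableAt
  unfold GG
  fun_prop

/-- The level sets of `J` (other than that of a global constant) are locally finite. -/
theorem Adm.J_level_finite (h : Adm α μ) (hα : 0 < α) {c : ℝ} (hc : Jfun μ 0 ≠ c) (R : ℝ) :
    ({u | Jfun μ u = c} ∩ Icc (-R) R).Finite := by
  by_contra hinf
  obtain ⟨x, -, hx⟩ := Set.Infinite.exists_accPt_of_subset_isCompact (K := Icc (-R) R) hinf
    isCompact_Icc inter_subset_right
  have hfreq : ∃ᶠ u in 𝓝[≠] x, Jfun μ u = c := by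
    rw [accPt_iff_frequently_nhdsNE] at hx
    exact hx.mono fun u hu => hu.1
  have hfreq2 : ∃ᶠ z in 𝓝[≠] (x : ℂ), GG μ z = (c : ℂ) := by
    have ht : Tendsto (fun u : ℝ => (u : ℂ)) (𝓝[≠] x) (𝓝[≠] (x : ℂ)) := by
      refine tendsto_nhdsWithin_iff.2 ⟨?_, ?_⟩
      · exact (Complex.continuous_ofReal.tendsto x).mono_left nhdsWithin_le_nhds
      · filter_upwards [self_mem_nhdsWithin] with u hu
        simpa using hu
    refine ht.frequently (hfreq.mono fun u hu => ?_)
    rw [h.GG_ofReal hα, hu]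
  have han : AnalyticOnNhd ℂ (GG μ) univ :=
    (h.GG_differentiable hα).differentiableOn.analyticOnNhd isOpen_univ
  have han2 : AnalyticOnNhd ℂ (fun _ : ℂ => (c : ℂ)) univ := analyticOnNhd_const
  have heq := han.eqOn_of_preconnected_of_frequently_eq han2 isPreconnected_univ
    (mem_univ (x : ℂ)) hfreq2
  have h0 := heq (mem_univ (0 : ℂ))
  have h1 := h.GG_ofReal hα 0
  rw [Complex.ofReal_zero] at h1
  simp only at h0
  rw [h1] at h0
  exact hc (by exact_mod_cast h0)

end

end Pool.Agent.H780R2.Mallows
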