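import Pool.Agent.H780R2.Mallows.Dens

/-!
# Injectivity of Gaussian smoothing
-/

set_option autoImplicit false

namespace Pool.Agent.H780R2.Mallows

open Real MeasureTheory Set Filter Topology

/-- Fourier transform of `φ` -/
lemma integral_cexp_phi (t : ℝ) :
    ∫ y : ℝ, Complex.exp (t * y * Complex.I) * (phi y : ℂ) = Complex.exp (-(t ^ 2) / 2) := by
  have h := ProbabilityTheory.charFun_gaussianReal (μ := 0) (v := 1) t
  rw [charFun_apply_real,
    ProbabilityTheory.integral_gaussianReal_eq_integral_smul (by norm_num)] at h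
  have e : ∀ y : ℝ, Complex.exp (t * y * Complex.I) * (phi y : ℂ)
      = ProbabilityTheory.gaussianPDFReal 0 1 y • Complex.exp (t * y * Complex.I) := by
    intro y
    rw [ProbabilityTheory.gaussianPDFReal_def]
    simp only [NNReal.coe_one, mul_one, sub_zero, Complex.real_smul]
    rw [mul_comm]
    congr 2
  simp_rw [e]
  rw [h]
  congr 1
  simp
  ring

lemma integral_cexp_phi_sub (t u : ℝ) :
    ∫ x : ℝ, Complex.exp (t * x * Complex.I) * (phi (x - u) : ℂ)
      = Complex.exp (t * u * Complex.I) * Complex.exp (-(t ^ 2) / 2) := by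
  rw [← integral_cexp_phi t, ← integral_const_mul]
  rw [← integral_add_right_eq_self _ u]
  refine integral_congr_ae (Eventually.of_forall fun y => ?_)
  simp only [add_sub_cancel_right]
  rw [← mul_assoc, ← Complex.exp_add]
  congr 2
  push_cast
  ring

lemma integral_cexp_dens (μ : Measure ℝ) [IsFiniteMeasure μ] (t : ℝ) :
    ∫ x : ℝ, Complex.exp (t * x * Complex.I) * (dens μ x : ℂ)
      = charFun μ t * Complex.exp (-(t ^ 2) / 2) := by
  have hk := integrable_kernel continuous_phi integrable_phi μ
  have hint : Integrable (fun p : ℝ × ℝ => Complex.exp (t * p.1 * Complex.I)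
      * (phi (p.1 - p.2) : ℂ)) (volume.prod μ) := by
    refine (hk.ofReal (𝕜 := ℂ)).bdd_mul (c := 1) ?_ ?_
    · exact (by fun_prop : Continuous fun p : ℝ × ℝ =>
        Complex.exp (t * p.1 * Complex.I)).aestronglyMeasurable
    · refine Eventually.of_forall fun p => ?_
      have : (t * p.1 * Complex.I : ℂ) = ((t * p.1 : ℝ) : ℂ) * Complex.I := by push_cast; ring
      rw [this, Complex.norm_exp_ofReal_mul_I]
  have h1 : ∀ x : ℝ, Complex.exp (t * x * Complex.I) * (dens μ x : ℂ)
      = ∫ u, Complex.exp (t * x * Complex.I) * (phi (x - u) : ℂ) ∂μ := by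
    intro x
    rw [integral_const_mul]
    congr 1
    unfold dens
    rw [← integral_complex_ofReal]
  simp_rw [h1]
  rw [integral_integral_swap hint]
  simp_rw [integral_cexp_phi_sub]
  rw [integral_mul_const, charFun_apply_real]

lemma ext_of_dens {μ ν : Measure ℝ} [IsFiniteMeasure μ] [IsFiniteMeasure ν]
    (h : ∀ x, dens μ x = dens ν x) : μ = ν := by
  apply Measure.ext_of_charFun
  funext t
  have h1 := integral_cexp_dens μ t
  have h2 := integral_cexp_dens ν t
  simp_rw [h] at h1
  rw [h1] at h2
  exact mul_right_cancel₀ (Complex.exp_ne_zero _) h2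

end Pool.Agent.H780R2.Mallows
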