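import Pool.Agent.H780R2.Mallows.Var
import Pool.Agent.H780R2.Mallows.Inj

/-!
# Existence of a minimiser among admissible sub-probability measures
-/

set_option autoImplicit false

namespace Pool.Agent.H780R2.Mallows

open Real MeasureTheory Set Filter Topology

/-- Extension of a function on `ℝ` to `[-∞,∞]` by zero. -/
noncomputable def ext0 (h : ℝ → ℝ) (y : EReal) : ℝ := if y = ⊤ ∨ y = ⊥ then 0 else h y.toReal

lemma ext0_coe (h : ℝ → ℝ) (x : ℝ) : ext0 h (x : EReal) = h x := by
  unfold ext0
  simp

lemma continuous_ext0 {h : ℝ → ℝ} (hc : Continuous h) (ht : Tendsto h atTop (𝓝 0))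
    (hb : Tendsto h atBot (𝓝 0)) : Continuous (ext0 h) := by
  rw [continuous_iff_continuousAt]
  intro y
  induction y using EReal.rec with
  | bot =>
    have h0 : ext0 h ⊥ = 0 := by unfold ext0; simp
    unfold ContinuousAt
    rw [h0, Metric.tendsto_nhds]
    intro ε hε
    rw [Metric.tendsto_nhds] at hb
    have h1 := hb ε hε
    rw [eventually_atBot] at h1
    obtain ⟨M, hM⟩ := h1
    refine EReal.nhds_bot_basis.eventually_iff.2 ⟨M, trivial, fun {y} hy => ?_⟩
    rw [mem_Iio] at hy
    induction y using EReal.rec with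
    | bot => rw [h0, dist_self]; exact hε
    | top => simp at hy
    | coe r =>
      rw [ext0_coe]
      exact hM r (EReal.coe_lt_coe_iff.1 hy).le
  | top =>
    have h0 : ext0 h ⊤ = 0 := by unfold ext0; simp
    unfold ContinuousAt
    rw [h0, Metric.tendsto_nhds]
    intro ε hε
    rw [Metric.tendsto_nhds] at ht
    have h1 := ht ε hε
    rw [eventually_atTop] at h1
    obtain ⟨M, hM⟩ := h1
    refine EReal.nhds_top_basis.eventually_iff.2 ⟨M, trivial, fun {y} hy => ?_⟩
    rw [mem_Ioi] at hy
    induction y using EReal.rec with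
    | bot => simp at hy
    | top => rw [h0, dist_self]; exact hε
    | coe r =>
      rw [ext0_coe]
      exact hM r (EReal.coe_lt_coe_iff.1 hy).le
  | coe r =>
    rw [← EReal.isOpenEmbedding_coe.continuousAt_iff]
    have : ext0 h ∘ Real.toEReal = h := funext fun x => ext0_coe h x
    rw [this]
    exact hc.continuousAt

lemma measurableEmbedding_coe : MeasurableEmbedding Real.toEReal :=
  EReal.isOpenEmbedding_coe.measurableEmbedding

/-- push-forward of a sub-probability measure on `ℝ` to a probability measure on `[-∞,∞]`,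
the missing mass being put at `+∞`. -/
noncomputable def toP (μ : Measure ℝ) : Measure EReal :=
  μ.map Real.toEReal + (1 - μ univ) • Measure.dirac ⊤

lemma toP_prob {μ : Measure ℝ} (h : μ univ ≤ 1) : IsProbabilityMeasure (toP μ) := by
  constructor
  unfold toP
  simp only [Measure.coe_add, Measure.coe_smul, Pi.add_apply, Pi.smul_apply, smul_eq_mul,
    measure_univ, mul_one]
  rw [measurableEmbedding_coe.map_apply, preimage_univ]
  exact add_tsub_cancel_of_le h

lemma integral_toP {μ : Measure ℝ} (h : μ univ ≤ 1) {g : ℝ → ℝ} (hc : Continuous g)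
    (ht : Tendsto g atTop (𝓝 0)) (hb : Tendsto g atBot (𝓝 0)) :
    ∫ y, ext0 g y ∂(toP μ) = ∫ x, g x ∂μ := by
  have := toP_prob h
  have hcont := continuous_ext0 hc ht hb
  have hint : Integrable (ext0 g) (toP μ) :=
    (BoundedContinuousFunction.mkOfCompact ⟨ext0 g, hcont⟩).integrable _
  unfold toP at hint ⊢
  rw [integral_add_measure hint.left_of_add_measure hint.right_of_add_measure,
    integral_smul_measure, integral_dirac, measurableEmbedding_coe.integral_map]
  have h0 : ext0 g ⊤ = 0 := by unfold ext0; simp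
  rw [h0, smul_zero, add_zero]
  simp_rw [ext0_coe]

lemma integral_comap {ν : Measure EReal} {g : ℝ → ℝ} :
    ∫ y, ext0 g y ∂ν = ∫ x, g x ∂(ν.comap Real.toEReal) := by
  have h1 : ∫ x, g x ∂(ν.comap Real.toEReal)
      = ∫ y, ext0 g y ∂((ν.comap Real.toEReal).map Real.toEReal) := by
    rw [measurableEmbedding_coe.integral_map]
    simp_rw [ext0_coe]
  rw [h1, measurableEmbedding_coe.map_comap]
  symm
  apply setIntegral_eq_integral_of_forall_compl_eq_zero
  intro y hy
  unfold ext0
  rw [if_pos]
  induction y using EReal.rec with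
  | bot => simp
  | top => simp
  | coe r => exact absurd (mem_range_self r) hy

lemma tendsto_phi_sub (x : ℝ) : Tendsto (fun u => phi (x - u)) atTop (𝓝 0) ∧
    Tendsto (fun u => phi (x - u)) atBot (𝓝 0) := by
  have key : ∀ u, phi (x - u) ≤ 1 / (1 + (x - u) ^ 2 / 2) := by
    intro u
    refine (phi_le_exp _).trans ?_
    rw [show -((x - u) ^ 2) / 2 = -((x - u) ^ 2 / 2) by ring, exp_neg, ← one_div]
    apply one_div_le_one_div_of_le (by positivity)
    have := add_one_le_exp ((x - u) ^ 2 / 2)
    linarith
  constructor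
  · refine squeeze_zero (fun u => phi_nonneg _) key ?_
    apply Tendsto.div_atTop tendsto_const_nhds
    apply tendsto_atTop_add_const_left
    apply Tendsto.atTop_div_const (by norm_num)
    have : Tendsto (fun u : ℝ => u - x) atTop atTop := tendsto_atTop_add_const_right _ _ tendsto_id
    have h2 := this.atTop_mul_atTop₀ this
    refine h2.congr fun u => by ring
  · refine squeeze_zero (fun u => phi_nonneg _) key ?_
    apply Tendsto.div_atTop tendsto_const_nhds
    apply tendsto_atTop_add_const_left
    apply Tendsto.atTop_div_const (by norm_num)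
    have : Tendsto (fun u : ℝ => x - u) atBot atTop :=
      tendsto_atTop_add_const_left _ _ tendsto_neg_atBot_atTop
    have h2 := this.atTop_mul_atTop₀ this
    refine h2.congr fun u => by ring

lemma tendsto_k1 (x : ℝ) : Tendsto (fun u => -((x - u) * phi (x - u))) atTop (𝓝 0) ∧
    Tendsto (fun u => -((x - u) * phi (x - u))) atBot (𝓝 0) := by
  -- `|y φ(y)| ≤ C /|y|`
  have key : ∀ y : ℝ, |-(y * phi y)| ≤ 1 / |y| := by
    intro y
    rcases eq_or_ne y 0 with rfl | hy
    · simp
    · have hy' : 0 < |y| := abs_pos.2 hy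
      rw [le_div_iff₀ hy', abs_neg, abs_mul, abs_of_nonneg (phi_nonneg y)]
      have := sq_mul_phi_le y
      rw [← sq_abs] at this
      nlinarith
  constructor
  · refine squeeze_zero_norm (fun u => key (x - u)) ?_
    apply Tendsto.div_atTop tendsto_const_nhds
    refine tendsto_abs_atBot_atTop.comp ?_
    exact tendsto_atBot_add_const_left _ _ tendsto_neg_atTop_atBot
  · refine squeeze_zero_norm (fun u => key (x - u)) ?_
    apply Tendsto.div_atTop tendsto_const_nhds
    refine tendsto_abs_atTop_atTop.comp ?_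
    exact tendsto_atTop_add_const_left _ _ tendsto_neg_atBot_atTop

/-- Vague sequential compactness of the admissible class and lower semicontinuity. -/
theorem exists_limit {α : ℝ} (hα : 0 < α) (μ : ℕ → Measure ℝ) (hμ : ∀ n, Adm α (μ n)) :
    ∃ (σ : Measure ℝ) (k : ℕ → ℕ), Adm α σ ∧ StrictMono k ∧
      (∀ x, Tendsto (fun n => dens (μ (k n)) x) atTop (𝓝 (dens σ x))) ∧
      (∀ x, Tendsto (fun n => dens1 (μ (k n)) x) atTop (𝓝 (dens1 σ x))) := by
  classical
  let ν : ℕ → ProbabilityMeasure EReal := fun n => ⟨toP (μ n), toP_prob (hμ n).mass⟩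
  obtain ⟨τ, -, k, hk, hlim⟩ := isSeqCompact_univ (X := ProbabilityMeasure EReal)
    (fun n => mem_univ (ν n))
  set σ : Measure ℝ := (τ : Measure EReal).comap Real.toEReal with hσ
  have hσfin : IsFiniteMeasure σ := by
    constructor
    rw [hσ, measurableEmbedding_coe.comap_apply]
    exact measure_lt_top _ _
  have hconv : ∀ g : ℝ → ℝ, Continuous g → Tendsto g atTop (𝓝 0) → Tendsto g atBot (𝓝 0) →
      Tendsto (fun n => ∫ x, g x ∂(μ (k n))) atTop (𝓝 (∫ x, g x ∂σ)) := by
    intro g hc ht hb
    have h1 := (ProbabilityMeasure.tendsto_iff_forall_integral_tendsto.1 hlim)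
      (BoundedContinuousFunction.mkOfCompact ⟨ext0 g, continuous_ext0 hc ht hb⟩)
    simp only [BoundedContinuousFunction.mkOfCompact_apply, ContinuousMap.coe_mk] at h1
    rw [integral_comap] at h1
    refine h1.congr fun n => ?_
    exact integral_toP (hμ (k n)).mass hc ht hb
  have hphi := continuous_phi
  have hd0 : ∀ x, Tendsto (fun n => dens (μ (k n)) x) atTop (𝓝 (dens σ x)) := fun x =>
    hconv (fun u => phi (x - u)) (by fun_prop) (tendsto_phi_sub x).1 (tendsto_phi_sub x).2
  have hd1 : ∀ x, Tendsto (fun n => dens1 (μ (k n)) x) atTop (𝓝 (dens1 σ x)) := fun x =>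
    hconv (fun u => -((x - u) * phi (x - u))) (by fun_prop) (tendsto_k1 x).1 (tendsto_k1 x).2
  refine ⟨σ, k, ⟨hσfin, ?_, ?_, ?_⟩, hk, hd0, hd1⟩
  · rw [hσ, measurableEmbedding_coe.comap_apply]
    exact prob_le_one
  · -- symmetry
    have hmapfin : IsFiniteMeasure (σ.map (fun u => -u)) := inferInstance
    apply ext_of_dens
    intro x
    have e1 : dens (σ.map (fun u => -u)) x = dens σ (-x) := by
      unfold dens
      rw [integral_map (by fun_prop)]
      · refine integral_congr_ae (Eventually.of_forall fun u => ?_)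
        simp only
        rw [← phi_neg]
        congr 1; ring
      · exact (hphi.comp (by fun_prop : Continuous fun u : ℝ => x - u)).aestronglyMeasurable
    rw [e1]
    refine tendsto_nhds_unique (hd0 (-x)) ((hd0 x).congr fun n => ?_)
    rw [(hμ (k n)).dens_neg]
  · -- atom
    rw [hσ, measurableEmbedding_coe.comap_apply, image_singleton]
    have h1 := ProbabilityMeasure.limsup_measure_closed_le_of_tendsto hlim
      (F := {(0 : EReal)}) isClosed_singleton
    refine le_trans ?_ h1
    have h2 : ∀ n, ENNReal.ofReal α ≤ ((ν ∘ k) n : Measure EReal) {(0 : EReal)} := by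
      intro n
      refine (hμ (k n)).atom.trans ?_
      change μ (k n) {0} ≤ toP (μ (k n)) {(0 : EReal)}
      unfold toP
      simp only [Measure.coe_add, Measure.coe_smul, Pi.add_apply, Pi.smul_apply]
      refine le_trans ?_ le_self_add
      rw [measurableEmbedding_coe.map_apply]
      apply measure_mono
      intro x hx
      rw [mem_singleton_iff] at hx
      simp [hx]
    exact le_limsup_of_frequently_le (Frequently.of_forall h2)

/-- Existence of a minimiser. -/
theorem exists_min {α : ℝ} (hα : 0 < α) (hα1 : α ≤ 1) :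
    ∃ μ : Measure ℝ, Adm α μ ∧ ∀ ν, Adm α ν → fish μ ≤ fish ν := by
  classical
  set T : Set ℝ := fish '' {μ | Adm α μ} with hT
  have hne : T.Nonempty := ⟨_, ptm α 0 0, ptm_adm hα le_rfl (by linarith) 0, rfl⟩
  have hbdd : BddBelow T := ⟨0, by rintro _ ⟨μ, hμ, rfl⟩; exact Adm.fish_nonneg hμ⟩
  obtain ⟨x, -, hx, hxT⟩ := exists_seq_tendsto_sInf hne hbdd
  choose μ hμ hμx using hxT
  obtain ⟨σ, k, hσ, hk, hd0, hd1⟩ := exists_limit hα μ hμ
  refine ⟨σ, hσ, fun ν hν => ?_⟩
  have hle : fish σ ≤ sInf T := by
    have h1 : fisher σ ≤ liminf (fun n => fisher (μ (k n))) atTop := by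
      have hpt : ∀ y, ENNReal.ofReal ((deriv (dens σ) y) ^ 2 / dens σ y)
          = liminf (fun n => ENNReal.ofReal
            ((deriv (dens (μ (k n))) y) ^ 2 / dens (μ (k n)) y)) atTop := by
        intro y
        symm
        apply Tendsto.liminf_eq
        apply (ENNReal.continuous_ofReal.tendsto _).comp
        have := hσ.fin
        have e1 : ∀ n, deriv (dens (μ (k n))) = dens1 (μ (k n)) := fun n => by
          have := (hμ (k n)).fin
          exact deriv_dens _
        simp_rw [e1, deriv_dens]
        exact ((hd1 y).pow 2).div (hd0 y) (hσ.dens_pos hα y).ne'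
      unfold fisher
      simp_rw [hpt]
      apply lintegral_liminf_le
      intro n
      have := (hμ (k n)).fin
      rw [deriv_dens]
      exact ENNReal.measurable_ofReal.comp
        (((continuous_dens1 _).measurable.pow_const 2).div (continuous_dens _).measurable)
    have h2 : Tendsto (fun n => fisher (μ (k n))) atTop (𝓝 (ENNReal.ofReal (sInf T))) := by
      have e : ∀ n, fisher (μ (k n)) = ENNReal.ofReal (x (k n)) := fun n => by
        rw [(hμ (k n)).fisher_eq hα, hμx]
      simp_rw [e]
      exact (ENNReal.continuous_ofReal.tendsto _).comp (hx.comp hk.tendsto_atTop)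
    rw [h2.liminf_eq, hσ.fisher_eq hα] at h1
    have h3 : 0 ≤ sInf T := le_csInf hne (by rintro _ ⟨μ, hμ, rfl⟩; exact Adm.fish_nonneg hμ)
    exact (ENNReal.ofReal_le_ofReal_iff h3).1 h1
  exact hle.trans (csInf_le hbdd ⟨ν, hν, rfl⟩)

end Pool.Agent.H780R2.Mallows
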