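import Mathlib

/-!
# The standard Gaussian density: elementary facts
-/

set_option autoImplicit false

namespace Pool.Agent.H780R2.Mallows

open Real MeasureTheory Set Filter Topology

/-- The standard Gaussian density `φ(x) = (2π)^{-1/2} e^{-x²/2}`. -/
noncomputable def phi (x : ℝ) : ℝ := (√(2 * π))⁻¹ * exp (-(x ^ 2) / 2)

lemma sqrt_two_pi_pos : 0 < √(2 * π) := by positivity

lemma one_le_sqrt_two_pi : 1 ≤ √(2 * π) := by
  rw [Real.one_le_sqrt]
  nlinarith [pi_gt_three]

lemma phi_pos (x : ℝ) : 0 < phi x := by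
  unfold phi
  have := sqrt_two_pi_pos
  positivity

lemma phi_nonneg (x : ℝ) : 0 ≤ phi x := (phi_pos x).le

lemma phi_neg (x : ℝ) : phi (-x) = phi x := by
  unfold phi; rw [neg_sq]

lemma phi_le_exp (x : ℝ) : phi x ≤ exp (-(x ^ 2) / 2) := by
  unfold phi
  have h1 : (√(2 * π))⁻¹ ≤ 1 := inv_le_one_of_one_le₀ one_le_sqrt_two_pi
  have h2 := exp_pos (-(x ^ 2) / 2)
  nlinarith

lemma phi_le_one (x : ℝ) : phi x ≤ 1 := by
  refine (phi_le_exp x).trans ?_
  rw [exp_le_one_iff]
  nlinarith [sq_nonneg x]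

lemma continuous_phi : Continuous phi := by
  unfold phi
  fun_prop

lemma measurable_phi : Measurable phi := continuous_phi.measurable

lemma hasDerivAt_phi (x : ℝ) : HasDerivAt phi (-(x * phi x)) x := by
  have h1 : HasDerivAt (fun x : ℝ => -(x ^ 2) / 2) (-x) x := by
    have h0 : HasDerivAt (fun x : ℝ => x ^ 2) (2 * x) x := by
      simpa using hasDerivAt_pow 2 x
    have := (h0.neg).div_const 2
    refine this.congr_deriv ?_
    ring
  have h2 := (h1.exp).const_mul (√(2 * π))⁻¹
  unfold phi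
  refine h2.congr_deriv ?_
  ring

lemma phi_sub (x u : ℝ) : phi (x - u) = phi x * exp (x * u - u ^ 2 / 2) := by
  unfold phi
  rw [mul_assoc, ← exp_add]
  congr 2
  ring

lemma sq_mul_exp_le (x : ℝ) : x ^ 2 * exp (-(x ^ 2) / 2) ≤ 1 := by
  have h1 : x ^ 2 / 2 ≤ exp (x ^ 2 / 2 - 1) := by
    have := add_one_le_exp (x ^ 2 / 2 - 1)
    linarith
  have h2 : exp (x ^ 2 / 2 - 1) * exp (-(x ^ 2) / 2) = exp (-1) := by
    rw [← exp_add]; congr 1; ring
  have h3 : 2 * exp (-1) ≤ 1 := by
    have : exp 1 ≥ 2 := by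
      have := add_one_le_exp (1 : ℝ); linarith
    rw [exp_neg]
    have h4 : 0 < exp 1 := exp_pos 1
    rw [mul_inv_le_iff₀ h4]
    linarith
  have h4 := exp_pos (-(x ^ 2) / 2)
  nlinarith

lemma sq_mul_phi_le (x : ℝ) : x ^ 2 * phi x ≤ 1 :=
  (mul_le_mul_of_nonneg_left (phi_le_exp x) (sq_nonneg x)).trans (sq_mul_exp_le x)

lemma abs_mul_phi_le (x : ℝ) : |x| * phi x ≤ 1 := by
  have h1 := sq_mul_phi_le x
  have h2 := phi_le_one x
  have h3 := phi_nonneg x
  have h4 : |x| ≤ (1 + x ^ 2) / 2 := by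
    nlinarith [sq_nonneg (|x| - 1), sq_abs x]
  nlinarith

/-- `e^{a|x|} φ(x)` is integrable. -/
lemma integrable_exp_mul_phi (a : ℝ) : Integrable (fun x => exp (a * |x|) * phi x) := by
  have h1 : Integrable (fun x : ℝ => exp (a ^ 2) * exp (-(1 / 4) * x ^ 2)) :=
    (integrable_exp_neg_mul_sq (by norm_num)).const_mul _
  refine h1.mono' ?_ (Eventually.of_forall fun x => ?_)
  · have : Continuous (fun x => exp (a * |x|) * phi x) := by
      have := continuous_phi
      fun_prop
    exact this.aestronglyMeasurable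
  · rw [Real.norm_of_nonneg (mul_nonneg (exp_pos _).le (phi_nonneg _))]
    calc exp (a * |x|) * phi x ≤ exp (a * |x|) * exp (-(x ^ 2) / 2) :=
          mul_le_mul_of_nonneg_left (phi_le_exp x) (exp_pos _).le
      _ = exp (a * |x| + -(x ^ 2) / 2) := by rw [exp_add]
      _ ≤ exp (a ^ 2 + -(1 / 4) * x ^ 2) := by
          rw [exp_le_exp]
          nlinarith [sq_nonneg (|x| / 2 - a), sq_abs x]
      _ = _ := by rw [exp_add]

lemma integrable_phi : Integrable phi := by
  have := integrable_exp_mul_phi 0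
  simpa using this

lemma integral_phi : ∫ x, phi x = 1 := by
  unfold phi
  rw [integral_const_mul]
  have h := integral_gaussian (1 / 2)
  have : ∀ x : ℝ, -(x ^ 2) / 2 = -(1 / 2) * x ^ 2 := fun x => by ring
  simp_rw [this]
  rw [h]
  have h2 : π / (1 / 2) = 2 * π := by ring
  rw [h2]
  exact inv_mul_cancel₀ sqrt_two_pi_pos.ne'

lemma abs_le_exp_abs (x : ℝ) : |x| ≤ exp |x| := by
  have := add_one_le_exp |x|
  linarith

lemma one_add_abs_le_exp (x : ℝ) : 1 + |x| ≤ exp |x| := by
  have := add_one_le_exp |x|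
  linarith

/-- A measurable function of growth at most `C e^{a|x|}` times `φ` is integrable. -/
lemma integrable_mul_phi {h : ℝ → ℝ} (hm : AEStronglyMeasurable h) {C a : ℝ}
    (hb : ∀ x, |h x| ≤ C * exp (a * |x|)) : Integrable (fun x => h x * phi x) := by
  refine ((integrable_exp_mul_phi a).const_mul C).mono'
    (hm.mul continuous_phi.aestronglyMeasurable) (Eventually.of_forall fun x => ?_)
  rw [norm_mul, Real.norm_eq_abs, Real.norm_of_nonneg (phi_nonneg x), ← mul_assoc]
  exact mul_le_mul_of_nonneg_right (hb x) (phi_nonneg x)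

/-- The shifted version. -/
lemma integrable_mul_phi_sub {h : ℝ → ℝ} (hm : AEStronglyMeasurable h) {C a : ℝ}
    (hb : ∀ x, |h x| ≤ C * exp (a * |x|)) (u : ℝ) :
    Integrable (fun x => h x * phi (x - u)) := by
  have h1 : Integrable (fun x => (h x * exp (x * u - u ^ 2 / 2)) * phi x) := by
    refine integrable_mul_phi (C := C) (a := a + |u|) (hm.mul ?_) ?_
    · exact (by fun_prop : Continuous fun x : ℝ => exp (x * u - u ^ 2 / 2)).aestronglyMeasurable
    · intro x
      rw [abs_mul, abs_of_pos (exp_pos _), add_mul, exp_add, ← mul_assoc]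
      have h3 : exp (x * u - u ^ 2 / 2) ≤ exp (|u| * |x|) := by
        rw [exp_le_exp]
        have : x * u ≤ |u| * |x| := by
          rw [mul_comm, ← abs_mul]; exact le_abs_self _
        nlinarith [sq_nonneg u]
      have h4 : 0 ≤ C * exp (a * |x|) := (abs_nonneg _).trans (hb x)
      exact mul_le_mul (hb x) h3 (exp_pos _).le h4
  refine h1.congr (Eventually.of_forall fun x => ?_)
  simp only
  rw [phi_sub]
  ring

lemma integrable_sq_phi : Integrable (fun x => x ^ 2 * phi x) := by
  refine integrable_mul_phi (C := 2) (a := 1) (by fun_prop) (fun x => ?_)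
  rw [abs_of_nonneg (sq_nonneg x), one_mul]
  have := quadratic_le_exp_of_nonneg (abs_nonneg x)
  rw [sq_abs] at this
  have := abs_nonneg x
  linarith

lemma integrable_abs_phi : Integrable (fun x => |x| * phi x) := by
  refine integrable_mul_phi (C := 1) (a := 1) (by fun_prop) (fun x => ?_)
  rw [abs_abs, one_mul, one_mul]
  exact abs_le_exp_abs x

end Pool.Agent.H780R2.Mallows
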