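import Pool.Agent.H780R2.Mallows.Struct

/-!
# Geometric weights on an arithmetic progression: the shift relation
-/

set_option autoImplicit false

namespace Pool.Agent.H780R2.Mallows

open Real MeasureTheory Set Filter Topology

/-- The suggested explicit form: weight `c p^j` at `± j g` for `j ≥ 1`, and weight `α` at `0`. -/
noncomputable def geoMeasure (α c p g : ℝ) : Measure ℝ :=
  stepMeasure α (fun n => (n + 1) * g) (fun n => c * p ^ (n + 1))

/-- one-sided geometric measure -/
noncomputable def kap (p g : ℝ) : Measure ℝ :=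
  Measure.sum (fun n : ℕ => ENNReal.ofReal (p ^ n) • Measure.dirac (-(n * g)))

section
variable {α c p g : ℝ}

lemma kap_finite (hp : 0 < p) (hp1 : p < 1) : IsFiniteMeasure (kap p g) := by
  constructor
  unfold kap
  rw [Measure.sum_apply _ MeasurableSet.univ]
  simp only [Measure.coe_smul, Pi.smul_apply, measure_univ, smul_eq_mul, mul_one]
  rw [← ENNReal.ofReal_tsum_of_nonneg (fun n => by positivity)
    (summable_geometric_of_lt_one hp.le hp1)]
  exact ENNReal.ofReal_lt_top

lemma p_lt_one (hc : 0 < c) (hp : 0 < p) (h : Adm α (geoMeasure α c p g)) : p < 1 := by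
  by_contra hp1
  push Not at hp1
  have hm := h.mass
  unfold geoMeasure stepMeasure at hm
  rw [Measure.add_apply] at hm
  have h1 := le_add_self.trans hm
  rw [Measure.sum_apply _ MeasurableSet.univ] at h1
  have h2 : ∀ n : ℕ, ENNReal.ofReal c ≤
      (ENNReal.ofReal (c * p ^ (n + 1)) • (Measure.dirac ((n + 1) * g) +
        Measure.dirac (-((n + 1) * g))) : Measure ℝ) univ := by
    intro n
    rw [Measure.smul_apply, Measure.add_apply, measure_univ, measure_univ, smul_eq_mul]
    calc ENNReal.ofReal c ≤ ENNReal.ofReal (c * p ^ (n + 1)) := by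
          apply ENNReal.ofReal_le_ofReal
          have := one_le_pow₀ hp1 (n := n + 1)
          nlinarith
      _ = ENNReal.ofReal (c * p ^ (n + 1)) * 1 := (mul_one _).symm
      _ ≤ _ := by
          gcongr
          exact le_self_add
  have h3 : (∑' _ : ℕ, ENNReal.ofReal c) ≤ 1 := (ENNReal.tsum_le_tsum h2).trans h1
  rw [ENNReal.tsum_const_eq_top_of_ne_zero (by simpa using hc)] at h3
  exact absurd h3 (by simp)

lemma hasSum_kap {f : ℝ → ℝ} (hp : 0 < p) (hi : Integrable f (kap p g)) :
    HasSum (fun n : ℕ => p ^ n * f (-(n * g))) (∫ u, f u ∂(kap p g)) := by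
  have h := hasSum_integral_measure hi
  have e : (fun n : ℕ => ∫ x, f x ∂(ENNReal.ofReal (p ^ n) • Measure.dirac (-(n * g)) : Measure ℝ))
      = fun n : ℕ => p ^ n * f (-(n * g)) := by
    funext n
    rw [integral_smul_measure, integral_dirac, ENNReal.toReal_ofReal (by positivity), smul_eq_mul]
  rw [e] at h
  exact h

lemma hasSum_dens_kap (hp : 0 < p) (hp1 : p < 1) (x : ℝ) :
    HasSum (fun n : ℕ => p ^ n * phi (x + n * g)) (dens (kap p g) x) := by
  have := kap_finite (g := g) hp hp1
  have h := hasSum_kap hp (integrable_k0 (kap p g) x)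
  unfold dens
  simpa only [sub_neg_eq_add] using h

lemma hasSum_dens1_kap (hp : 0 < p) (hp1 : p < 1) (x : ℝ) :
    HasSum (fun n : ℕ => p ^ n * (-((x + n * g) * phi (x + n * g)))) (dens1 (kap p g) x) := by
  have := kap_finite (g := g) hp hp1
  have h := hasSum_kap hp (integrable_k1 (kap p g) x)
  unfold dens1
  simpa only [sub_neg_eq_add] using h

lemma kap_shift (hp : 0 < p) (hp1 : p < 1) (x : ℝ) :
    dens (kap p g) x = phi x + p * dens (kap p g) (x + g) := by
  have h1 := hasSum_dens_kap (g := g) hp hp1 x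
  have h2 := (hasSum_dens_kap (g := g) hp hp1 (x + g)).mul_left p
  have h3 := (hasSum_nat_add_iff' 1).2 h1
  have e : (fun n : ℕ => p ^ (n + 1) * phi (x + ((n + 1 : ℕ) : ℝ) * g))
      = fun n : ℕ => p * (p ^ n * phi (x + g + n * g)) := by
    funext n
    push_cast
    have : x + ((n : ℝ) + 1) * g = x + g + n * g := by ring
    rw [this]
    ring
  rw [e] at h3
  have h4 := h3.unique h2
  simp only [Finset.range_one, Finset.sum_singleton, pow_zero, one_mul, Nat.cast_zero, zero_mul,
    add_zero] at h4
  linarith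

/-- the shifted sum -/
lemma hasSum_kap_succ (hp : 0 < p) (hp1 : p < 1) (x : ℝ) :
    HasSum (fun n : ℕ => p ^ (n + 1) * phi (x + (n + 1) * g)) (dens (kap p g) x - phi x) := by
  have h1 := hasSum_dens_kap (g := g) hp hp1 x
  have h3 := (hasSum_nat_add_iff' 1).2 h1
  simpa only [Finset.range_one, Finset.sum_singleton, pow_zero, one_mul, Nat.cast_zero, zero_mul,
    add_zero, Nat.cast_add, Nat.cast_one] using h3

lemma dens_geo (hα : 0 < α) (hc : 0 < c) (hp : 0 < p) (h : Adm α (geoMeasure α c p g)) (x : ℝ) :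
    dens (geoMeasure α c p g) x = (α - 2 * c) * phi x + c * dens (kap p g) x
      + c * dens (kap p g) (-x) := by
  have hfin := h.fin
  have hp1 := p_lt_one hc hp h
  have hint := integrable_k0 (geoMeasure α c p g) x
  have h0 : dens (geoMeasure α c p g) x = ∫ u, phi (x - u) ∂(geoMeasure α c p g) := rfl
  rw [h0]
  unfold geoMeasure stepMeasure at hint ⊢
  rw [integral_add_measure hint.left_of_add_measure hint.right_of_add_measure,
    integral_smul_measure, integral_dirac, ENNReal.toReal_ofReal hα.le, smul_eq_mul, sub_zero]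
  have h1 := hasSum_integral_measure hint.right_of_add_measure
  have e : ∀ n : ℕ, ∫ u, phi (x - u) ∂(ENNReal.ofReal (c * p ^ (n + 1)) •
      (Measure.dirac (((n : ℝ) + 1) * g) + Measure.dirac (-(((n : ℝ) + 1) * g))) : Measure ℝ)
      = c * (p ^ (n + 1) * phi (-x + (n + 1) * g)) + c * (p ^ (n + 1) * phi (x + (n + 1) * g)) := by
    intro n
    rw [integral_smul_measure, integral_add_measure (integrable_k0 _ x) (integrable_k0 _ x),
      integral_dirac, integral_dirac, ENNReal.toReal_ofReal (by positivity), smul_eq_mul,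
      sub_neg_eq_add]
    have : phi (x - (n + 1) * g) = phi (-x + (n + 1) * g) := by
      rw [← phi_neg]; congr 1; ring
    rw [this]
    ring
  simp_rw [e] at h1
  have h2 := ((hasSum_kap_succ (g := g) hp hp1 (-x)).mul_left c).add
    ((hasSum_kap_succ (g := g) hp hp1 x).mul_left c)
  rw [h1.unique h2, phi_neg]
  ring

/-- The shift relation `f(x+g) = p f(x) + η(x)`. -/
lemma geo_shift (hα : 0 < α) (hc : 0 < c) (hp : 0 < p) (h : Adm α (geoMeasure α c p g)) (x : ℝ) :
    dens (geoMeasure α c p g) (x + g) = p * dens (geoMeasure α c p g) x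
      + (-(p * (α - c)) * phi x + (α - c) * phi (x + g)
        + c * (1 - p ^ 2) * dens (kap p g) (x + g)) := by
  have hp1 := p_lt_one hc hp h
  rw [dens_geo hα hc hp h, dens_geo hα hc hp h]
  have h1 := kap_shift (g := g) hp hp1 x
  have h2 := kap_shift (g := g) hp hp1 (-(x + g))
  have e : -(x + g) + g = -x := by ring
  rw [e, phi_neg] at h2
  rw [h2, h1]
  ring

lemma geo_shift1 (hα : 0 < α) (hc : 0 < c) (hp : 0 < p) (h : Adm α (geoMeasure α c p g)) (x : ℝ) :
    dens1 (geoMeasure α c p g) (x + g) = p * dens1 (geoMeasure α c p g) x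
      + (p * (α - c) * (x * phi x) - (α - c) * ((x + g) * phi (x + g))
        + c * (1 - p ^ 2) * dens1 (kap p g) (x + g)) := by
  have hfin := h.fin
  have hp1 := p_lt_one hc hp h
  have := kap_finite (g := g) hp hp1
  have hs : HasDerivAt (fun x : ℝ => x + g) 1 x := (hasDerivAt_id x).add_const g
  have h1 : HasDerivAt (fun x => dens (geoMeasure α c p g) (x + g))
      (dens1 (geoMeasure α c p g) (x + g)) x := by
    have := (hasDerivAt_dens (geoMeasure α c p g) (x + g)).comp x hs
    simpa [Function.comp_def] using this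
  have h2 : HasDerivAt (fun x => dens (kap p g) (x + g)) (dens1 (kap p g) (x + g)) x := by
    have := (hasDerivAt_dens (kap p g) (x + g)).comp x hs
    simpa [Function.comp_def] using this
  have h3 : HasDerivAt (fun x => phi (x + g)) (-((x + g) * phi (x + g))) x := by
    have := (hasDerivAt_phi (x + g)).comp x hs
    simpa [Function.comp_def] using this
  have h4 := ((hasDerivAt_dens (geoMeasure α c p g) x).const_mul p).add
    ((((hasDerivAt_phi x).const_mul (-(p * (α - c)))).add (h3.const_mul (α - c))).add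
      (h2.const_mul (c * (1 - p ^ 2))))
  have h5 : (fun x => dens (geoMeasure α c p g) (x + g)) = fun x =>
      p * dens (geoMeasure α c p g) x + (-(p * (α - c)) * phi x + (α - c) * phi (x + g)
        + c * (1 - p ^ 2) * dens (kap p g) (x + g)) := funext fun x => geo_shift hα hc hp h x
  rw [h5] at h1
  have h6 := h1.unique h4
  rw [h6]
  ring

/-- `E(x) = ∑ p^n (x+s+g+ng) φ(x+g+ng)`. -/
noncomputable def EE (μ : Measure ℝ) (p g x : ℝ) : ℝ :=
  -(dens1 (kap p g) (x + g) - score μ x * dens (kap p g) (x + g))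

/-- numerator of `s(x+g) - s(x)` -/
noncomputable def WW (μ : Measure ℝ) (α c p g x : ℝ) : ℝ :=
  p * (α - c) * (x + score μ x) * phi x - (α - c) * (x + g + score μ x) * phi (x + g)
    - c * (1 - p ^ 2) * EE μ p g x

lemma score_shift (hα : 0 < α) (hc : 0 < c) (hp : 0 < p) (h : Adm α (geoMeasure α c p g)) (x : ℝ) :
    score (geoMeasure α c p g) (x + g) - score (geoMeasure α c p g) x
      = WW (geoMeasure α c p g) α c p g x / dens (geoMeasure α c p g) (x + g) := by
  have h1 := geo_shift hα hc hp h x
  have h2 := geo_shift1 hα hc hp h x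
  have hf1 := (h.dens_pos hα (x + g)).ne'
  have hs := h.score_mul hα x
  have hs1 := h.score_mul hα (x + g)
  rw [eq_div_iff hf1, sub_mul, hs1, h2, h1]
  unfold WW EE
  rw [← hs]
  ring

lemma hasSum_EE (μ : Measure ℝ) (hp : 0 < p) (hp1 : p < 1) (x : ℝ) :
    HasSum (fun n : ℕ => p ^ n * ((x + score μ x + g + n * g) * phi (x + g + n * g)))
      (EE μ p g x) := by
  have h1 := hasSum_dens1_kap (g := g) hp hp1 (x + g)
  have h2 := (hasSum_dens_kap (g := g) hp hp1 (x + g)).mul_left (score μ x)
  have h3 := (h1.sub h2).neg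
  have e : (fun n : ℕ => p ^ n * ((x + score μ x + g + n * g) * phi (x + g + n * g)))
      = fun n : ℕ => -(p ^ n * (-((x + g + n * g) * phi (x + g + n * g)))
        - score μ x * (p ^ n * phi (x + g + n * g))) := by
    funext n
    ring
  unfold EE
  rw [e]
  exact h3

end

end Pool.Agent.H780R2.Mallows
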