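import Pool.Agent.H780R2.Mallows.Geo1

/-!
# Geometric weights on an arithmetic progression: estimates
-/

set_option autoImplicit false

namespace Pool.Agent.H780R2.Mallows

open Real MeasureTheory Set Filter Topology

lemma phi_mono {a b : ℝ} (h : |a| ≤ |b|) : phi b ≤ phi a := by
  unfold phi
  have h1 : a ^ 2 ≤ b ^ 2 := sq_le_sq.2 h
  have h2 : exp (-(b ^ 2) / 2) ≤ exp (-(a ^ 2) / 2) := by
    rw [exp_le_exp]; linarith
  exact mul_le_mul_of_nonneg_left h2 (inv_nonneg.2 sqrt_two_pi_pos.le)

lemma phi_add_le {x t : ℝ} (hx : 0 ≤ x) (ht : 0 ≤ t) :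
    phi (x + t) ≤ phi x * exp (-(x * t)) := by
  have h := phi_sub x (-t)
  rw [sub_neg_eq_add, neg_sq] at h
  rw [h]
  refine mul_le_mul_of_nonneg_left ?_ (phi_nonneg x)
  rw [exp_le_exp]
  nlinarith [sq_nonneg t]

lemma phi_add_le' {x t : ℝ} (hx : 0 ≤ x) (ht : 0 ≤ t) :
    phi (x + t) ≤ phi x * exp (-(t ^ 2) / 2) := by
  have h := phi_sub x (-t)
  rw [sub_neg_eq_add, neg_sq] at h
  rw [h]
  refine mul_le_mul_of_nonneg_left ?_ (phi_nonneg x)
  rw [exp_le_exp]
  nlinarith [mul_nonneg hx ht]

lemma mul_exp_neg_sq_le {t : ℝ} : t * exp (-(t ^ 2) / 2) ≤ 1 := by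
  have h1 : t ≤ exp (t ^ 2 / 2) := by
    have := add_one_le_exp (t ^ 2 / 2)
    nlinarith [sq_nonneg (t - 1)]
  have h2 : exp (t ^ 2 / 2) * exp (-(t ^ 2) / 2) = 1 := by
    rw [← exp_add, ← exp_zero]; congr 1; ring
  have := exp_pos (-(t ^ 2) / 2)
  nlinarith

lemma atom_le_dens {μ : Measure ℝ} [IsFiniteMeasure μ] {w a : ℝ}
    (h : ENNReal.ofReal w ≤ μ {a}) (x : ℝ) : w * phi (x - a) ≤ dens μ x := by
  have h1 : ∫ u in ({a} : Set ℝ), phi (x - u) ∂μ ≤ dens μ x :=
    setIntegral_le_integral (integrable_k0 μ x) (Eventually.of_forall fun u => phi_nonneg _)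
  rw [integral_singleton, smul_eq_mul] at h1
  have h2 : w ≤ μ.real {a} := (ENNReal.ofReal_le_iff_le_toReal (measure_ne_top _ _)).1 h
  exact (mul_le_mul_of_nonneg_right h2 (phi_nonneg _)).trans h1

section
variable {α c p g : ℝ}

lemma geo_atom (n : ℕ) :
    ENNReal.ofReal (c * p ^ (n + 1)) ≤ geoMeasure α c p g {(n + 1) * g} := by
  unfold geoMeasure stepMeasure
  rw [Measure.add_apply]
  refine le_trans ?_ le_add_self
  rw [Measure.sum_apply _ (measurableSet_singleton _)]
  refine le_trans ?_ (ENNReal.le_tsum n)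
  rw [Measure.smul_apply, Measure.add_apply, smul_eq_mul, Measure.dirac_apply_of_mem (mem_singleton _)]
  calc ENNReal.ofReal (c * p ^ (n + 1)) = ENNReal.ofReal (c * p ^ (n + 1)) * 1 := (mul_one _).symm
    _ ≤ _ := by
      gcongr
      exact le_self_add

/-- exponential lower bound for the density on the right half line -/
lemma geo_dens_lower (hc : 0 < c) (hp : 0 < p) (hg : 0 < g)
    (h : Adm α (geoMeasure α c p g)) {x : ℝ} (hx : 0 ≤ x) :
    c * p * phi g * exp (-(-log p / g * x)) ≤ dens (geoMeasure α c p g) x := by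
  have hfin := h.fin
  have hp1 := p_lt_one hc hp h
  set n := ⌊x / g⌋₊ with hn
  have hxg : 0 ≤ x / g := by positivity
  have h1 : (n : ℝ) ≤ x / g := Nat.floor_le hxg
  have h2 : x / g < n + 1 := Nat.lt_floor_add_one _
  have h1' : (n : ℝ) * g ≤ x := by rwa [le_div_iff₀ hg] at h1
  have h2' : x < (n + 1) * g := by rwa [div_lt_iff₀ hg] at h2
  have hd := atom_le_dens (geo_atom (α := α) (c := c) (p := p) (g := g) n) x
  refine le_trans ?_ hd
  have h3 : phi g ≤ phi (x - (n + 1) * g) := by
    apply phi_mono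
    rw [abs_le, abs_of_pos hg]
    constructor <;> nlinarith
  have hlog : log p < 0 := log_neg hp hp1
  have h4 : exp (-(-log p / g * x)) ≤ p ^ n := by
    rw [← exp_log hp, ← exp_nat_mul, exp_log hp, exp_le_exp]
    have : -(-log p / g * x) = (x / g) * log p := by field_simp
    rw [this]
    nlinarith
  have h5 : 0 < phi g := phi_pos g
  calc c * p * phi g * exp (-(-log p / g * x)) ≤ c * p * phi g * p ^ n := by gcongr
    _ = c * p ^ (n + 1) * phi g := by ring
    _ ≤ c * p ^ (n + 1) * phi (x - (n + 1) * g) := by gcongr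

/-- the score is small compared with `x` on the right -/
lemma geo_score_small (hα : 0 < α) (hc : 0 < c) (hp : 0 < p) (hg : 0 < g)
    (h : Adm α (geoMeasure α c p g)) :
    ∃ X, 1 ≤ X ∧ ∀ x, X ≤ x → |score (geoMeasure α c p g) x| ≤ x / 8 := by
  have hp1 := p_lt_one hc hp h
  have hlog : log p < 0 := log_neg hp hp1
  set k := -log p / g with hk
  have hk0 : 0 ≤ k := div_nonneg (by linarith) hg.le
  set m := c * p * phi g with hm
  have hm0 : 0 < m := by have := phi_pos g; positivity
  set C1 := 2 * (-log (√(2 * π) * m)) with hC1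
  refine ⟨64 * (2 * k + |C1|) + 1, by have := abs_nonneg C1; linarith, fun x hx => ?_⟩
  have hC1n := abs_nonneg C1
  have hx1 : 1 ≤ x := by linarith
  have hL : 0 < √(2 * π) * (m * exp (-(k * x))) := by
    have := sqrt_two_pi_pos; positivity
  have h1 := h.score_sq_le' hα x hL
    (mul_le_mul_of_nonneg_left (geo_dens_lower hc hp hg h (by linarith)) sqrt_two_pi_pos.le)
  have h2 : log (√(2 * π) * (m * exp (-(k * x)))) = log (√(2 * π) * m) - k * x := by
    rw [← mul_assoc, log_mul (by have := sqrt_two_pi_pos; positivity) (exp_pos _).ne', log_exp]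
    ring
  rw [h2] at h1
  have h3 : score (geoMeasure α c p g) x ^ 2 ≤ (x / 8) ^ 2 := by
    have h4 := le_abs_self C1
    have h5 : 2 * k * x + C1 ≤ (2 * k + |C1|) * x := by nlinarith
    have h6 : (2 * k + |C1|) * x ≤ (x / 8) ^ 2 := by nlinarith
    linarith
  exact abs_le_of_sq_le_sq h3 (by linarith)

/-- two-sided bounds for `E` -/
lemma EE_lower (μ : Measure ℝ) (hp : 0 < p) (hp1 : p < 1) (hg : 0 < g) {x : ℝ}
    (hd : 0 ≤ x + score μ x) :
    (x + score μ x + g) * phi (x + g) ≤ EE μ p g x := by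
  have h := hasSum_EE (g := g) μ hp hp1 x
  have h1 := le_hasSum h 0 (fun n _ => by
    have := phi_nonneg (x + g + n * g)
    have : 0 ≤ x + score μ x + g + n * g := by positivity
    positivity)
  simpa using h1

lemma EE_abs (μ : Measure ℝ) (hp : 0 < p) (hp1 : p < 1) (hg : 0 < g) {x : ℝ} (hx : 0 ≤ x) :
    |EE μ p g x| ≤ (|x + score μ x| + g + 1) * phi (x + g) / (1 - p) := by
  have h := hasSum_EE (g := g) μ hp hp1 x
  have hgeo : HasSum (fun n : ℕ => p ^ n * ((|x + score μ x| + g + 1) * phi (x + g)))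
      ((1 - p)⁻¹ * ((|x + score μ x| + g + 1) * phi (x + g))) :=
    (hasSum_geometric_of_lt_one hp.le hp1).mul_right _
  have hterm : ∀ n : ℕ, |p ^ n * ((x + score μ x + g + n * g) * phi (x + g + n * g))|
      ≤ p ^ n * ((|x + score μ x| + g + 1) * phi (x + g)) := by
    intro n
    rw [abs_mul, abs_of_nonneg (pow_nonneg hp.le n)]
    refine mul_le_mul_of_nonneg_left ?_ (pow_nonneg hp.le n)
    rw [abs_mul, abs_of_nonneg (phi_nonneg _)]
    set t : ℝ := n * g with ht
    have ht0 : 0 ≤ t := by positivity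
    have h1 : phi (x + g + t) ≤ phi (x + g) * exp (-(t ^ 2) / 2) :=
      phi_add_le' (by linarith) ht0
    have h2 : |x + score μ x + g + t| ≤ |x + score μ x| + g + t := by
      calc |x + score μ x + g + t| = |(x + score μ x) + (g + t)| := by congr 1; ring
        _ ≤ |x + score μ x| + |g + t| := abs_add_le _ _
        _ = |x + score μ x| + g + t := by
          rw [abs_of_nonneg (by positivity : 0 ≤ g + t)]; ring
    have h3 : t * exp (-(t ^ 2) / 2) ≤ 1 := mul_exp_neg_sq_le
    have h4 : exp (-(t ^ 2) / 2) ≤ 1 := by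
      rw [exp_le_one_iff]; nlinarith [sq_nonneg t]
    have h5 := abs_nonneg (x + score μ x)
    have h6 := phi_nonneg (x + g)
    calc |x + score μ x + g + t| * phi (x + g + t)
        ≤ (|x + score μ x| + g + t) * (phi (x + g) * exp (-(t ^ 2) / 2)) := by
          apply mul_le_mul h2 h1 (phi_nonneg _) (by positivity)
      _ = ((|x + score μ x| + g) * exp (-(t ^ 2) / 2) + t * exp (-(t ^ 2) / 2)) * phi (x + g) := by
          ring
      _ ≤ ((|x + score μ x| + g) * 1 + 1) * phi (x + g) := by gcongr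
      _ = _ := by ring
  have h7 : EE μ p g x ≤ (1 - p)⁻¹ * ((|x + score μ x| + g + 1) * phi (x + g)) :=
    hasSum_le (fun n => (le_abs_self _).trans (hterm n)) h hgeo
  have h8 : -EE μ p g x ≤ (1 - p)⁻¹ * ((|x + score μ x| + g + 1) * phi (x + g)) :=
    hasSum_le (fun n => (neg_le_abs _).trans (hterm n)) h.neg hgeo
  rw [abs_le, div_eq_inv_mul]
  constructor <;> linarith

/-- upper bound for `|W|` on the right half line -/
lemma WW_upper {μ : Measure ℝ} (h : Adm α μ) (hα : 0 < α) (hc : 0 < c) (hp : 0 < p) (hp1 : p < 1)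
    (hg : 0 < g) :
    ∃ C, 0 ≤ C ∧ ∀ x, 0 ≤ x → |WW μ α c p g x| ≤ C * (1 + x) * phi x := by
  set S := √(scoreConst α) with hS
  have hS0 : 0 ≤ S := sqrt_nonneg _
  have hp1' : 0 < 1 - p := by linarith
  have hp2 : 0 ≤ 1 - p ^ 2 := by nlinarith
  refine ⟨p * |α - c| * (2 + S) + |α - c| * (2 + S + g) + c * (1 - p ^ 2) * ((2 + S + g + 1)
    / (1 - p)), by positivity, fun x hx => ?_⟩
  have hd : |x + score μ x| ≤ (2 + S) * (1 + x) := by
    have h1 := h.abs_score_le hα x
    have h2 := abs_add_le x (score μ x)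
    rw [abs_of_nonneg hx] at h1 h2
    nlinarith
  have hφ : phi (x + g) ≤ phi x := phi_mono (by
    rw [abs_of_nonneg hx, abs_of_nonneg (by linarith)]; linarith)
  have hφ0 := phi_nonneg x
  have hφ1 := phi_nonneg (x + g)
  have hE := EE_abs μ hp hp1 hg hx
  have hd' : |x + g + score μ x| ≤ (2 + S + g) * (1 + x) := by
    calc |x + g + score μ x| = |(x + score μ x) + g| := by congr 1; ring
      _ ≤ |x + score μ x| + |g| := abs_add_le _ _
      _ ≤ (2 + S) * (1 + x) + g := by rw [abs_of_pos hg]; linarith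
      _ ≤ _ := by nlinarith
  have hd'' : |x + score μ x| + g + 1 ≤ (2 + S + g + 1) * (1 + x) := by nlinarith
  have hdn := abs_nonneg (x + score μ x)
  have hE' : |EE μ p g x| ≤ ((2 + S + g + 1) / (1 - p)) * (1 + x) * phi x := by
    refine hE.trans ?_
    rw [div_mul_eq_mul_div, div_mul_eq_mul_div]
    apply div_le_div_of_nonneg_right _ hp1'.le
    apply mul_le_mul hd'' hφ hφ1 (by positivity)
  have hac := abs_nonneg (α - c)
  have t1 : |p * (α - c) * (x + score μ x) * phi x| ≤ p * |α - c| * ((2 + S) * (1 + x)) * phi x := by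
    rw [abs_mul, abs_mul, abs_mul, abs_of_pos hp, abs_of_nonneg hφ0]
    gcongr
  have t2 : |(α - c) * (x + g + score μ x) * phi (x + g)|
      ≤ |α - c| * ((2 + S + g) * (1 + x)) * phi x := by
    rw [abs_mul, abs_mul, abs_of_nonneg hφ1]
    gcongr
  have t3 : |c * (1 - p ^ 2) * EE μ p g x|
      ≤ c * (1 - p ^ 2) * (((2 + S + g + 1) / (1 - p)) * (1 + x) * phi x) := by
    rw [abs_mul, abs_of_nonneg (mul_nonneg hc.le hp2)]
    gcongr
  unfold WW
  calc |p * (α - c) * (x + score μ x) * phi x - (α - c) * (x + g + score μ x) * phi (x + g)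
      - c * (1 - p ^ 2) * EE μ p g x|
      ≤ |p * (α - c) * (x + score μ x) * phi x - (α - c) * (x + g + score μ x) * phi (x + g)|
        + |c * (1 - p ^ 2) * EE μ p g x| := abs_sub _ _
    _ ≤ |p * (α - c) * (x + score μ x) * phi x| + |(α - c) * (x + g + score μ x) * phi (x + g)|
        + |c * (1 - p ^ 2) * EE μ p g x| := by
          gcongr
          exact abs_sub _ _
    _ ≤ _ := by linarith

lemma lin_exp_small {g ε : ℝ} (hg : 0 < g) (hε : 0 < ε) :
    ∃ X, 1 ≤ X ∧ ∀ x, X ≤ x → (x + 1) * exp (-(x * g)) ≤ ε := by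
  refine ⟨4 / (g ^ 2 * ε) + 1, by have : 0 < 4 / (g ^ 2 * ε) := by positivity
                                  linarith, fun x hx => ?_⟩
  have hx1 : 1 ≤ x := by
    have : 0 < 4 / (g ^ 2 * ε) := by positivity
    linarith
  have hx2 : 4 ≤ x * (g ^ 2 * ε) := by
    have : 4 / (g ^ 2 * ε) ≤ x := by linarith
    rwa [div_le_iff₀ (by positivity)] at this
  have h1 := quadratic_le_exp_of_nonneg (by positivity : 0 ≤ x * g)
  have h2 : (x * g) ^ 2 / 2 ≤ exp (x * g) := by nlinarith [mul_pos (by linarith : 0 < x) hg]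
  rw [exp_neg, ← div_eq_mul_inv, div_le_iff₀ (exp_pos _)]
  have h3 : x + 1 ≤ ε * ((x * g) ^ 2 / 2) := by nlinarith
  nlinarith

/-- `W` has a constant sign on the right, with a lower bound. -/
lemma WW_sign {μ : Measure ℝ} (hα : 0 < α) (hc : 0 < c) (hp : 0 < p)
    (hp1 : p < 1) (hg : 0 < g) (hs : ∃ X, 1 ≤ X ∧ ∀ x, X ≤ x → |score μ x| ≤ x / 8) :
    ∃ σ : ℝ, |σ| = 1 ∧ ∃ c' X, 0 < c' ∧ 1 ≤ X ∧ ∀ x, X ≤ x →
      c' * phi (x + g) ≤ σ * WW μ α c p g x := by
  obtain ⟨X0, hX0, hs⟩ := hs
  have hp1' : 0 < 1 - p := by linarith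
  have hp2 : 0 < 1 - p ^ 2 := by nlinarith
  rcases lt_trichotomy α c with hac | hac | hac
  · -- `α < c`
    set b := c - α with hb
    have hb0 : 0 < b := by linarith
    obtain ⟨X1, hX1, hsm⟩ := lin_exp_small hg (ε := p / (4 * (2 + g))) (by positivity)
    refine ⟨-1, by norm_num, b * p / 8, max X0 X1, by positivity, le_max_of_le_left hX0,
      fun x hx => ?_⟩
    have hxX0 := (le_max_left _ _).trans hx
    have hxX1 := (le_max_right _ _).trans hx
    have hx1 : 1 ≤ x := hX0.trans hxX0
    have hsc := abs_le.1 (hs x hxX0)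
    have hd0 : 7 / 8 * x ≤ x + score μ x := by linarith
    have hd1 : x + score μ x ≤ 9 / 8 * x := by linarith
    have hE := EE_lower μ hp hp1 hg (x := x) (by linarith)
    have hE0 : 0 ≤ EE μ p g x := le_trans (by
      have := phi_nonneg (x + g)
      have : 0 ≤ x + score μ x + g := by linarith
      positivity) hE
    have hφ := phi_pos x
    have hφ2 : phi (x + g) ≤ phi x * exp (-(x * g)) := phi_add_le (by linarith) hg.le
    have hsmx := hsm x hxX1
    have h1 : (x + g + score μ x) * phi (x + g) ≤ (p / 4) * phi x := by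
      have h2 : x + g + score μ x ≤ (2 + g) * (x + 1) := by nlinarith
      have h3 : 0 ≤ x + g + score μ x := by linarith
      calc (x + g + score μ x) * phi (x + g)
          ≤ ((2 + g) * (x + 1)) * (phi x * exp (-(x * g))) :=
            mul_le_mul h2 hφ2 (phi_nonneg _) (by positivity)
        _ = (2 + g) * ((x + 1) * exp (-(x * g))) * phi x := by ring
        _ ≤ (2 + g) * (p / (4 * (2 + g))) * phi x := by gcongr
        _ = (p / 4) * phi x := by field_simp
    have h2 : p * (7 / 8) * phi x ≤ p * (x + score μ x) * phi x := by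
      have : p * (7 / 8) ≤ p * (x + score μ x) := by nlinarith
      exact mul_le_mul_of_nonneg_right this hφ.le
    have h3 : phi (x + g) ≤ phi x := by
      refine hφ2.trans ?_
      have : exp (-(x * g)) ≤ 1 := by rw [exp_le_one_iff]; nlinarith
      nlinarith
    have h4 : 0 ≤ c * (1 - p ^ 2) * EE μ p g x := by positivity
    have h5 : -1 * WW μ α c p g x = b * (p * (x + score μ x) * phi x)
        - b * ((x + g + score μ x) * phi (x + g)) + c * (1 - p ^ 2) * EE μ p g x := by
      unfold WW; rw [hb]; ring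
    rw [h5]
    have h6 := mul_le_mul_of_nonneg_left h1 hb0.le
    have h7 := mul_le_mul_of_nonneg_left h2 hb0.le
    have h8 : b * p / 8 * phi (x + g) ≤ b * p / 8 * phi x := by gcongr
    have h9 : 0 < b * p * phi x := mul_pos (mul_pos hb0 hp) hφ
    linarith
  · -- `α = c`
    refine ⟨-1, by norm_num, c * (1 - p ^ 2) * g, X0, by positivity, hX0, fun x hx => ?_⟩
    have hx1 : 1 ≤ x := hX0.trans hx
    have hsc := abs_le.1 (hs x hx)
    have hE := EE_lower μ hp hp1 hg (x := x) (by linarith)
    have h5 : -1 * WW μ α c p g x = c * (1 - p ^ 2) * EE μ p g x := by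
      unfold WW; rw [hac]; ring
    rw [h5, mul_assoc]
    refine mul_le_mul_of_nonneg_left (le_trans ?_ hE) (by positivity)
    have : g ≤ x + score μ x + g := by linarith
    exact mul_le_mul_of_nonneg_right this (phi_nonneg _)
  · -- `α > c`
    set b := α - c with hb
    have hb0 : 0 < b := by linarith
    set K := b * (2 + g) + c * (1 - p ^ 2) * ((3 + g) / (1 - p)) with hK
    have hK0 : 0 < K := by positivity
    obtain ⟨X1, hX1, hsm⟩ := lin_exp_small hg (ε := b * p / (4 * K)) (by positivity)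
    refine ⟨1, by norm_num, b * p / 8, max X0 X1, by positivity, le_max_of_le_left hX0,
      fun x hx => ?_⟩
    have hxX0 := (le_max_left _ _).trans hx
    have hxX1 := (le_max_right _ _).trans hx
    have hx1 : 1 ≤ x := hX0.trans hxX0
    have hsc := abs_le.1 (hs x hxX0)
    have hd0 : 7 / 8 * x ≤ x + score μ x := by linarith
    have hd1 : x + score μ x ≤ 9 / 8 * x := by linarith
    have hE := EE_abs μ hp hp1 hg (x := x) (by linarith)
    have hE1 : EE μ p g x ≤ ((3 + g) / (1 - p)) * ((x + 1) * phi (x + g)) := by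
      refine (le_abs_self _).trans (hE.trans ?_)
      rw [div_mul_eq_mul_div]
      apply div_le_div_of_nonneg_right _ hp1'.le
      rw [abs_of_nonneg (by linarith : 0 ≤ x + score μ x), ← mul_assoc]
      refine mul_le_mul_of_nonneg_right ?_ (phi_nonneg _)
      nlinarith
    have hφ := phi_pos x
    have hφ2 : phi (x + g) ≤ phi x * exp (-(x * g)) := phi_add_le (by linarith) hg.le
    have hsmx := hsm x hxX1
    have h1 : b * ((x + g + score μ x) * phi (x + g)) + c * (1 - p ^ 2) * EE μ p g x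
        ≤ K * ((x + 1) * phi (x + g)) := by
      have h2 : x + g + score μ x ≤ (2 + g) * (x + 1) := by nlinarith
      have h3 : (x + g + score μ x) * phi (x + g) ≤ (2 + g) * (x + 1) * phi (x + g) :=
        mul_le_mul_of_nonneg_right h2 (phi_nonneg _)
      have h4 := mul_le_mul_of_nonneg_left hE1 (by positivity : 0 ≤ c * (1 - p ^ 2))
      have h5 := mul_le_mul_of_nonneg_left h3 hb0.le
      rw [hK]
      linarith
    clear_value K b
    have hKK : K * (b * p / (4 * K)) = b * p / 4 := by field_simp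
    have h1' : K * ((x + 1) * phi (x + g)) ≤ (b * p / 4) * phi x := by
      have e1 : (x + 1) * phi (x + g) ≤ (x + 1) * (phi x * exp (-(x * g))) :=
        mul_le_mul_of_nonneg_left hφ2 (by linarith)
      have e2 := mul_le_mul_of_nonneg_left e1 hK0.le
      have e3 := mul_le_mul_of_nonneg_left hsmx hK0.le
      rw [hKK] at e3
      have e4 := mul_le_mul_of_nonneg_right e3 hφ.le
      have e5 : K * ((x + 1) * (phi x * exp (-(x * g)))) = K * ((x + 1) * exp (-(x * g))) * phi x := by
        ring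
      linarith
    have h2 : p * (7 / 8) * phi x ≤ p * (x + score μ x) * phi x := by
      have : p * (7 / 8) ≤ p * (x + score μ x) := by nlinarith
      exact mul_le_mul_of_nonneg_right this hφ.le
    have h3 : phi (x + g) ≤ phi x := by
      refine hφ2.trans ?_
      have : exp (-(x * g)) ≤ 1 := by rw [exp_le_one_iff]; nlinarith
      nlinarith
    have h5 : 1 * WW μ α c p g x = b * (p * (x + score μ x) * phi x)
        - (b * ((x + g + score μ x) * phi (x + g)) + c * (1 - p ^ 2) * EE μ p g x) := by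
      unfold WW; rw [hb]; ring
    rw [h5]
    have h7 := mul_le_mul_of_nonneg_left h2 hb0.le
    have h8 : b * p / 8 * phi (x + g) ≤ b * p / 8 * phi x := by gcongr
    have h9 : 0 < b * p * phi x := mul_pos (mul_pos hb0 hp) hφ
    linarith

end

end Pool.Agent.H780R2.Mallows
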