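import Pool.Agent.H780R2.Mallows.Geo2

/-!
# The geometric form is never optimal
-/

set_option autoImplicit false

namespace Pool.Agent.H780R2.Mallows

open Real MeasureTheory Set Filter Topology

/-- difference of scores -/
noncomputable def TT (μ : Measure ℝ) (g x : ℝ) : ℝ := score μ (x + g) - score μ x

/-- integrand of `J(u+g) - J(u)` (without the Gaussian factor) -/
noncomputable def FF (μ : Measure ℝ) (g u x : ℝ) : ℝ :=
  -(TT μ g x * (2 * (x + score μ x - u) + TT μ g x))

section
variable {α : ℝ} {μ : Measure ℝ}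

lemma Adm.FF_integrable (h : Adm α μ) (hα : 0 < α) (g u : ℝ) :
    Integrable (fun x => FF μ g u x * phi (x - u)) ∧
    ∫ x, FF μ g u x * phi (x - u) = Jfun μ (u + g) - Jfun μ u := by
  have i1 := h.J_integrable hα u
  have i2 := (h.J_integrable hα (u + g)).comp_add_right g
  have e : (fun x => FF μ g u x * phi (x - u)) = fun x =>
      (-(2 * (x + g - (u + g)) * score μ (x + g)) - score μ (x + g) ^ 2) * phi (x + g - (u + g))
      - (-(2 * (x - u) * score μ x) - score μ x ^ 2) * phi (x - u) := by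
    funext x
    have : x + g - (u + g) = x - u := by ring
    rw [this]
    unfold FF TT
    ring
  rw [e]
  refine ⟨i2.sub i1, ?_⟩
  rw [integral_sub i2 i1]
  unfold Jfun
  congr 1
  exact integral_add_right_eq_self
    (fun x => (-(2 * (x - (u + g)) * score μ x) - score μ x ^ 2) * phi (x - (u + g))) g

/-- general bounds -/
lemma Adm.TT_abs (h : Adm α μ) (hα : 0 < α) {g : ℝ} (hg : 0 < g) (x : ℝ) :
    |TT μ g x| ≤ (2 + g + 2 * √(scoreConst α)) * (1 + |x|) := by
  have h1 := h.abs_score_le hα x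
  have h2 := h.abs_score_le hα (x + g)
  have h3 := abs_add_le x g
  rw [abs_of_pos hg] at h3
  have h4 := abs_nonneg x
  have h5 := sqrt_nonneg (scoreConst α)
  unfold TT
  have h6 := abs_sub (score μ (x + g)) (score μ x)
  nlinarith

lemma Adm.bracket_abs (h : Adm α μ) (hα : 0 < α) {g : ℝ} (hg : 0 < g) (x : ℝ) {u : ℝ}
    (hu : 0 ≤ u) :
    |2 * (x + score μ x - u) + TT μ g x| ≤ (8 + g + 4 * √(scoreConst α)) * (1 + |x|) * (1 + u) := by
  have h0 := h.TT_abs hα hg x
  have h1 := h.abs_score_le hα x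
  have h4 := abs_nonneg x
  have h5 := sqrt_nonneg (scoreConst α)
  set S := √(scoreConst α) with hS
  have e1 : |2 * (x + score μ x - u) + TT μ g x| ≤ 2 * (|x| + |score μ x| + u) + |TT μ g x| := by
    have a1 := abs_add_le (2 * (x + score μ x - u)) (TT μ g x)
    have a2 : |2 * (x + score μ x - u)| = 2 * |x + score μ x - u| := by
      rw [abs_mul, abs_two]
    have a3 := abs_sub (x + score μ x) u
    have a4 := abs_add_le x (score μ x)
    rw [abs_of_nonneg hu] at a3
    linarith
  have e2 : 2 * (|x| + |score μ x| + u) + |TT μ g x|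
      ≤ 2 * (2 * |x| + S + u) + (2 + g + 2 * S) * (1 + |x|) := by linarith
  have e3 : 0 ≤ g * |x| := by positivity
  have e4 : 0 ≤ g * u := by positivity
  have e5 : 0 ≤ S * |x| := by positivity
  have e6 : 0 ≤ S * u := by positivity
  have e7 : 0 ≤ |x| * u := by positivity
  have e8 : 0 ≤ g * (|x| * u) := by positivity
  have e9 : 0 ≤ S * (|x| * u) := by positivity
  have e10 : (8 + g + 4 * S) * (1 + |x|) * (1 + u) - (2 * (2 * |x| + S + u)
      + (2 + g + 2 * S) * (1 + |x|)) = 6 + 2 * |x| + 6 * u + 8 * (|x| * u) + g * u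
        + g * (|x| * u) + 2 * (S * |x|) + 4 * (S * u) + 4 * (S * (|x| * u)) := by ring
  linarith

/-- integrable majorant -/
noncomputable def rho (x : ℝ) : ℝ := (1 + |x|) ^ 2 * exp (-(x ^ 2) / 72)

lemma rho_nonneg (x : ℝ) : 0 ≤ rho x := by unfold rho; positivity

lemma integrable_rho : Integrable rho := by
  have h1 : Integrable (fun x : ℝ => exp 144 * exp (-(1 / 144) * x ^ 2)) :=
    (integrable_exp_neg_mul_sq (by norm_num)).const_mul _
  refine h1.mono' ?_ (Eventually.of_forall fun x => ?_)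
  · unfold rho
    exact (by fun_prop : Continuous fun x : ℝ => (1 + |x|) ^ 2 * exp (-(x ^ 2) / 72)).aestronglyMeasurable
  · rw [Real.norm_of_nonneg (rho_nonneg x)]
    unfold rho
    have h2 := one_add_abs_le_exp x
    have h3 := pow_le_pow_left₀ (by positivity) h2 2
    calc (1 + |x|) ^ 2 * exp (-(x ^ 2) / 72) ≤ exp |x| ^ 2 * exp (-(x ^ 2) / 72) := by gcongr
      _ = exp (2 * |x| + -(x ^ 2) / 72) := by rw [← exp_nat_mul, ← exp_add]; norm_num
      _ ≤ exp (144 + -(1 / 144) * x ^ 2) := by
          rw [exp_le_exp]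
          nlinarith [sq_nonneg (|x| - 144), sq_abs x]
      _ = _ := by rw [exp_add]

lemma left_bound {x u : ℝ} (hu : 0 ≤ u) (hx : x ≤ u / 4) :
    phi (x - u) ≤ exp (-(17 / 64 * u ^ 2)) * exp (-(x ^ 2) / 72) := by
  refine (phi_le_exp _).trans ?_
  rw [← exp_add, exp_le_exp]
  rcases le_total x 0 with h | h
  · nlinarith [mul_nonneg hu (neg_nonneg.2 h), sq_nonneg x, sq_nonneg u]
  · nlinarith [mul_nonneg hu h, sq_nonneg (x - u / 4), sq_nonneg x, mul_nonneg h (sub_nonneg.2 hx),
      mul_nonneg hu (sub_nonneg.2 hx)]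

lemma right_bound {x u k : ℝ} (hu : 0 ≤ u) (hx : 3 * u / 4 ≤ x) :
    phi x * exp (k * x) ≤ exp (18 * k ^ 2) * (exp (-(17 / 64 * u ^ 2)) * exp (-(x ^ 2) / 72)) := by
  calc phi x * exp (k * x) ≤ exp (-(x ^ 2) / 2) * exp (k * x) := by
        gcongr; exact phi_le_exp x
    _ = exp (-(x ^ 2) / 2 + k * x) := by rw [exp_add]
    _ ≤ exp (18 * k ^ 2 + (-(17 / 64 * u ^ 2) + -(x ^ 2) / 72)) := by
        rw [exp_le_exp]
        nlinarith [sq_nonneg (x - 36 * k), mul_nonneg hu (sub_nonneg.2 hx),
          mul_nonneg (by linarith : 0 ≤ x) (sub_nonneg.2 hx)]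
    _ = _ := by rw [exp_add, exp_add]

end

section
variable {α c p g : ℝ}

/-- majorant outside `[u/4, 3u/4]` -/
lemma outer_bound (hα : 0 < α) (hc : 0 < c) (hp : 0 < p) (hg : 0 < g)
    (h : Adm α (geoMeasure α c p g)) :
    ∃ C, 0 ≤ C ∧ ∀ u x, 0 ≤ u → (x ≤ u / 4 ∨ 3 * u / 4 ≤ x) →
      |FF (geoMeasure α c p g) g u x * phi (x - u)|
        ≤ C * (1 + u) * exp (-(17 / 64 * u ^ 2)) * rho x := by
  have hp1 := p_lt_one hc hp h
  set μ := geoMeasure α c p g with hμ
  set S := √(scoreConst α) with hS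
  have hS0 : 0 ≤ S := sqrt_nonneg _
  obtain ⟨C0, hC0, hW⟩ := WW_upper (c := c) (p := p) (g := g) h hα hc hp hp1 hg
  set k := -log p / g with hk
  set m := c * p * phi g with hm
  have hm0 : 0 < m := by have := phi_pos g; positivity
  set A := (2 + g + 2 * S) * (8 + g + 4 * S) with hA
  set B := C0 * exp (k * g) / m * exp (18 * k ^ 2) * (8 + g + 4 * S) with hB
  have hA0 : 0 ≤ A := by positivity
  have hB0 : 0 ≤ B := by positivity
  refine ⟨A + B, by positivity, fun u x hu hx => ?_⟩
  have hx0 := abs_nonneg x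
  have hbr := h.bracket_abs hα hg x hu
  rw [← hS] at hbr
  have hρ := rho_nonneg x
  have hE : 0 ≤ exp (-(17 / 64 * u ^ 2)) := (exp_pos _).le
  unfold FF
  rw [abs_mul, abs_neg, abs_mul, abs_of_nonneg (phi_nonneg (x - u))]
  rcases hx with hx | hx
  · -- left part
    have hT := h.TT_abs hα hg x
    rw [← hS] at hT
    have h1 := left_bound hu hx
    calc |TT μ g x| * |2 * (x + score μ x - u) + TT μ g x| * phi (x - u)
        ≤ ((2 + g + 2 * S) * (1 + |x|)) * ((8 + g + 4 * S) * (1 + |x|) * (1 + u))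
          * (exp (-(17 / 64 * u ^ 2)) * exp (-(x ^ 2) / 72)) := by
          apply mul_le_mul _ h1 (phi_nonneg _) (by positivity)
          exact mul_le_mul hT hbr (abs_nonneg _) (by positivity)
      _ = A * (1 + u) * exp (-(17 / 64 * u ^ 2)) * rho x := by
          rw [hA]; unfold rho; ring
      _ ≤ (A + B) * (1 + u) * exp (-(17 / 64 * u ^ 2)) * rho x := by
          gcongr
          linarith
  · -- right part
    have hxpos : 0 ≤ x := by linarith
    have habs : |x| = x := abs_of_nonneg hxpos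
    have hT : |TT μ g x| ≤ C0 * exp (k * g) / m * (1 + |x|) * (phi x * exp (k * x)) := by
      unfold TT
      rw [hμ, score_shift hα hc hp h, abs_div, abs_of_pos (h.dens_pos hα _), ← hμ]
      have hlow := geo_dens_lower hc hp hg h (x := x + g) (by linarith)
      rw [← hμ, ← hm, ← hk] at hlow
      have hdpos : 0 < dens μ (x + g) := h.dens_pos hα _
      rw [div_le_iff₀ hdpos]
      have hw := hW x hxpos
      have e1 : exp (-(k * (x + g))) * (exp (k * g) * exp (k * x)) = 1 := by
        rw [← exp_add, ← exp_add, ← exp_zero]; congr 1; ring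
      calc |WW μ α c p g x| ≤ C0 * (1 + x) * phi x := hw
        _ = C0 * exp (k * g) / m * (1 + |x|) * (phi x * exp (k * x))
            * (m * exp (-(k * (x + g)))) := by
            rw [habs]
            have : C0 * exp (k * g) / m * (1 + x) * (phi x * exp (k * x))
              * (m * exp (-(k * (x + g))))
              = C0 * (1 + x) * phi x * (m / m) * (exp (-(k * (x + g))) * (exp (k * g) * exp (k * x))) := by
              ring
            rw [this, e1, div_self hm0.ne']
            ring
        _ ≤ _ := by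
            have := phi_nonneg x
            gcongr
    have h1 := right_bound (k := k) hu hx
    have hφ1 := phi_le_one (x - u)
    have hφ0 := phi_nonneg (x - u)
    have hφx := phi_nonneg x
    calc |TT μ g x| * |2 * (x + score μ x - u) + TT μ g x| * phi (x - u)
        ≤ (C0 * exp (k * g) / m * (1 + |x|) * (phi x * exp (k * x)))
          * ((8 + g + 4 * S) * (1 + |x|) * (1 + u)) * 1 := by
          apply mul_le_mul _ hφ1 hφ0 (by positivity)
          exact mul_le_mul hT hbr (abs_nonneg _) (by positivity)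
      _ ≤ (C0 * exp (k * g) / m * (1 + |x|) * (exp (18 * k ^ 2) *
            (exp (-(17 / 64 * u ^ 2)) * exp (-(x ^ 2) / 72))))
          * ((8 + g + 4 * S) * (1 + |x|) * (1 + u)) * 1 := by
          gcongr
      _ = B * (1 + u) * exp (-(17 / 64 * u ^ 2)) * rho x := by
          rw [hB]; unfold rho; ring
      _ ≤ (A + B) * (1 + u) * exp (-(17 / 64 * u ^ 2)) * rho x := by
          gcongr
          linarith

/-- lower bound inside `[u/4, 3u/4]` -/
lemma inner_bound (hα : 0 < α) (hc : 0 < c) (hp : 0 < p) (hg : 0 < g)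
    (h : Adm α (geoMeasure α c p g)) :
    ∃ σ : ℝ, |σ| = 1 ∧ ∃ c' U, 0 < c' ∧ 4 ≤ U ∧ ∀ u x, U ≤ u → u / 4 ≤ x → x ≤ 3 * u / 4 →
      c' * phi (x + g) * phi (x - u) ≤ σ * (FF (geoMeasure α c p g) g u x * phi (x - u)) := by
  have hp1 := p_lt_one hc hp h
  obtain ⟨X0, hX0, hs⟩ := geo_score_small hα hc hp hg h
  obtain ⟨σ, hσ, c', X1, hc', hX1, hW⟩ := WW_sign hα hc hp hp1 hg ⟨X0, hX0, hs⟩
  set μ := geoMeasure α c p g with hμ
  refine ⟨σ, hσ, c', 4 * (max X0 X1) + 16 + g, hc', by
    have := le_max_left X0 X1; linarith, fun u x hu hx1 hx2 => ?_⟩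
  have hm0 := le_max_left X0 X1
  have hm1 := le_max_right X0 X1
  have hxX0 : X0 ≤ x := by linarith
  have hxX1 : X1 ≤ x := by linarith
  have hs0 := abs_le.1 (hs x hxX0)
  have hs1 := abs_le.1 (hs (x + g) (by linarith))
  have hw := hW x hxX1
  have hT : c' * phi (x + g) ≤ σ * TT μ g x := by
    unfold TT
    have hd1 : dens μ (x + g) ≤ 1 := h.dens_le_one _
    have hdpos : 0 < dens μ (x + g) := h.dens_pos hα _
    rw [hμ, score_shift hα hc hp h, ← hμ, mul_div_assoc', le_div_iff₀ hdpos]
    have h1 : 0 ≤ c' * phi (x + g) := mul_nonneg hc'.le (phi_nonneg _)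
    nlinarith
  have hbr : 2 * (x + score μ x - u) + TT μ g x ≤ -1 := by
    unfold TT
    linarith
  have hφ := phi_nonneg (x - u)
  have hcφ : 0 ≤ c' * phi (x + g) := mul_nonneg hc'.le (phi_nonneg _)
  have h2 : σ * (FF μ g u x * phi (x - u))
      = (σ * TT μ g x) * (-(2 * (x + score μ x - u) + TT μ g x)) * phi (x - u) := by
    unfold FF; ring
  rw [h2]
  refine mul_le_mul_of_nonneg_right ?_ hφ
  have h3 : 1 ≤ -(2 * (x + score μ x - u) + TT μ g x) := by linarith
  nlinarith

/-- `J` is not constant on the positive atoms of the geometric form. -/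
theorem geo_not_level (hα : 0 < α) (hc : 0 < c) (hp : 0 < p) (hg : 0 < g)
    (h : Adm α (geoMeasure α c p g)) {v : ℝ}
    (hJ : ∀ n : ℕ, Jfun (geoMeasure α c p g) ((n + 1) * g) = v) : False := by
  obtain ⟨C, hC, hout⟩ := outer_bound hα hc hp hg h
  obtain ⟨σ, hσ, c', U, hc', hU, hin⟩ := inner_bound hα hc hp hg h
  set μ := geoMeasure α c p g with hμ
  set I := ∫ x, rho x with hI
  have hI0 : 0 ≤ I := integral_nonneg rho_nonneg
  -- the integral inequality for large `u`
  have key : ∀ n : ℕ, U ≤ ((n : ℝ) + 1) * g →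
      c' * (phi (((n : ℝ) + 1) * g / 2 + 1 + g) * phi (((n : ℝ) + 1) * g / 2))
        ≤ C * (1 + ((n : ℝ) + 1) * g) * exp (-(17 / 64 * (((n : ℝ) + 1) * g) ^ 2)) * I := by
    intro n hn
    set u := ((n : ℝ) + 1) * g with hu
    have hu4 : 4 ≤ u := hU.trans hn
    have hint := h.FF_integrable hα g u
    have hzero : ∫ x, FF μ g u x * phi (x - u) = 0 := by
      rw [hint.2]
      have e1 : u + g = ((n + 1 : ℕ) + 1 : ℝ) * g := by rw [hu]; push_cast; ring
      rw [e1, hJ (n + 1), hu, hJ n, sub_self]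
    -- pointwise inequality
    set E := exp (-(17 / 64 * u ^ 2)) with hE
    have hE0 : 0 ≤ E := (exp_pos _).le
    set P := phi (u / 2 + 1 + g) * phi (u / 2) with hP
    have hP0 : 0 ≤ P := mul_nonneg (phi_nonneg _) (phi_nonneg _)
    have hpt : ∀ x, (Icc (u / 2) (u / 2 + 1)).indicator (fun _ => c' * P) x
        - C * (1 + u) * E * rho x ≤ σ * (FF μ g u x * phi (x - u)) := by
      intro x
      have hρ := rho_nonneg x
      have hR : 0 ≤ C * (1 + u) * E * rho x := by positivity
      by_cases hx : u / 4 ≤ x ∧ x ≤ 3 * u / 4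
      · have h1 := hin u x hn hx.1 hx.2
        have hφ1 := phi_nonneg (x + g)
        have hφ2 := phi_nonneg (x - u)
        by_cases hxi : x ∈ Icc (u / 2) (u / 2 + 1)
        · rw [indicator_of_mem hxi]
          have h2 : phi (u / 2 + 1 + g) ≤ phi (x + g) := by
            apply phi_mono
            rw [abs_of_nonneg (by linarith [hxi.1]), abs_of_nonneg (by linarith)]
            linarith [hxi.2]
          have h3 : phi (u / 2) ≤ phi (x - u) := by
            apply phi_mono
            rw [abs_of_nonneg (by linarith : 0 ≤ u / 2), abs_le]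
            constructor <;> linarith [hxi.1, hxi.2]
          have h4 : P ≤ phi (x + g) * phi (x - u) :=
            mul_le_mul h2 h3 (phi_nonneg _) hφ1
          have h5 := mul_le_mul_of_nonneg_left h4 hc'.le
          linarith
        · rw [indicator_of_notMem hxi]
          have : 0 ≤ c' * phi (x + g) * phi (x - u) := by positivity
          linarith
      · have hxi : x ∉ Icc (u / 2) (u / 2 + 1) := by
          intro hxi
          apply hx
          exact ⟨by linarith [hxi.1], by linarith [hxi.2]⟩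
        rw [indicator_of_notMem hxi]
        have hx' : x ≤ u / 4 ∨ 3 * u / 4 ≤ x := by
          by_contra hcon
          push Not at hcon
          exact hx ⟨hcon.1.le, hcon.2.le⟩
        have h1 := hout u x (by linarith) hx'
        have h2 : |σ * (FF μ g u x * phi (x - u))| = |FF μ g u x * phi (x - u)| := by
          rw [abs_mul, hσ, one_mul]
        have h3 := neg_abs_le (σ * (FF μ g u x * phi (x - u)))
        rw [h2] at h3
        linarith
    have hind : Integrable ((Icc (u / 2) (u / 2 + 1)).indicator (fun _ : ℝ => c' * P)) :=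
      (integrable_indicator_iff measurableSet_Icc).2 (integrableOn_const (by simp) enorm_ne_top)
    have hineq := integral_mono (hind.sub (integrable_rho.const_mul (C * (1 + u) * E)))
      (hint.1.const_mul σ) hpt
    rw [integral_const_mul, hzero, mul_zero] at hineq
    have e2 : ∫ x, ((Icc (u / 2) (u / 2 + 1)).indicator (fun _ : ℝ => c' * P)
        - fun x => C * (1 + u) * E * rho x) x = c' * P - C * (1 + u) * E * I := by
      simp only [Pi.sub_apply]
      rw [integral_sub hind (integrable_rho.const_mul _), integral_const_mul,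
        integral_indicator measurableSet_Icc, setIntegral_const, smul_eq_mul]
      have : (volume : Measure ℝ).real (Icc (u / 2) (u / 2 + 1)) = 1 := by
        rw [Real.volume_real_Icc_of_le (by linarith)]
        ring
      rw [this, one_mul]
    rw [e2] at hineq
    linarith
  -- asymptotics
  have hpi := sqrt_two_pi_pos
  set D := c' * ((√(2 * π))⁻¹ * (√(2 * π))⁻¹ * exp (-((1 + g) ^ 2) / 2)) with hD
  have hD0 : 0 < D := by positivity
  have key2 : ∀ n : ℕ, U ≤ ((n : ℝ) + 1) * g →
      D ≤ C * I * exp ((((n : ℝ) + 1) * g) + (1 + g) * (((n : ℝ) + 1) * g) / 2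
        - (((n : ℝ) + 1) * g) ^ 2 / 64) := by
    intro n hn
    have h1 := key n hn
    set u := ((n : ℝ) + 1) * g with hu
    have hu4 : 4 ≤ u := hU.trans hn
    have e1 : c' * (phi (u / 2 + 1 + g) * phi (u / 2))
        = D * exp (-(u ^ 2 / 4) - (1 + g) * u / 2) := by
      rw [hD]
      unfold phi
      have : exp (-((u / 2 + 1 + g) ^ 2) / 2) * exp (-((u / 2) ^ 2) / 2)
          = exp (-((1 + g) ^ 2) / 2) * exp (-(u ^ 2 / 4) - (1 + g) * u / 2) := by
        rw [← exp_add, ← exp_add]; congr 1; ring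
      calc c' * ((√(2 * π))⁻¹ * exp (-((u / 2 + 1 + g) ^ 2) / 2)
            * ((√(2 * π))⁻¹ * exp (-((u / 2) ^ 2) / 2)))
          = c' * ((√(2 * π))⁻¹ * (√(2 * π))⁻¹) * (exp (-((u / 2 + 1 + g) ^ 2) / 2)
            * exp (-((u / 2) ^ 2) / 2)) := by ring
        _ = _ := by rw [this]; ring
    rw [e1] at h1
    have h2 : 1 + u ≤ exp u := by have := add_one_le_exp u; linarith
    have hCI : 0 ≤ C * I := mul_nonneg hC hI0
    have h3 : C * (1 + u) * exp (-(17 / 64 * u ^ 2)) * I
        ≤ C * I * (exp u * exp (-(17 / 64 * u ^ 2))) := by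
      have h4 := mul_le_mul_of_nonneg_right h2 (exp_pos (-(17 / 64 * u ^ 2))).le
      have h5 := mul_le_mul_of_nonneg_left h4 hCI
      linarith
    have h6 : D * exp (-(u ^ 2 / 4) - (1 + g) * u / 2)
        ≤ C * I * (exp u * exp (-(17 / 64 * u ^ 2))) := h1.trans h3
    have h7 : exp u * exp (-(17 / 64 * u ^ 2))
        = exp (u + (1 + g) * u / 2 - u ^ 2 / 64) * exp (-(u ^ 2 / 4) - (1 + g) * u / 2) := by
      rw [← exp_add, ← exp_add]; congr 1; ring
    rw [h7] at h6
    have h8 : D * exp (-(u ^ 2 / 4) - (1 + g) * u / 2)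
        ≤ (C * I * exp (u + (1 + g) * u / 2 - u ^ 2 / 64))
          * exp (-(u ^ 2 / 4) - (1 + g) * u / 2) := by linarith
    exact le_of_mul_le_mul_right h8 (exp_pos _)
  -- let `n → ∞`
  have hlim : Tendsto (fun n : ℕ => ((n : ℝ) + 1) * g) atTop atTop := by
    apply Tendsto.atTop_mul_const hg
    exact tendsto_atTop_add_const_right _ _ tendsto_natCast_atTop_atTop
  have hlim2 : Tendsto (fun u : ℝ => C * I * exp (u + (1 + g) * u / 2 - u ^ 2 / 64)) atTop
      (𝓝 (C * I * 0)) := by
    apply Tendsto.const_mul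
    apply tendsto_exp_atBot.comp
    have h1 : Tendsto (fun u : ℝ => u / 64 - (1 + (1 + g) / 2)) atTop atTop := by
      apply tendsto_atTop_add_const_right
      exact Tendsto.atTop_div_const (by norm_num) tendsto_id
    have h2 : Tendsto (fun u : ℝ => u * (u / 64 - (1 + (1 + g) / 2))) atTop atTop :=
      tendsto_id.atTop_mul_atTop₀ h1
    have h3 := tendsto_neg_atTop_atBot.comp h2
    refine h3.congr fun u => ?_
    simp only [Function.comp_apply]
    ring
  rw [mul_zero] at hlim2
  have hev := (hlim2.comp hlim).eventually (gt_mem_nhds hD0)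
  obtain ⟨n, hn1, hn2⟩ := (hev.and (hlim.eventually_ge_atTop U)).exists
  have := key2 n hn2
  simp only [Function.comp_apply] at hn1
  linarith

end

/-- The geometric form is not a minimiser. -/
theorem Adm.not_geometric {α : ℝ} {μ : Measure ℝ} (h : Adm α μ) (hα : 0 < α) (hα1 : α < 1)
    (hmin : ∀ ν, Adm α ν → fish μ ≤ fish ν) {c p g : ℝ} (hc : 0 < c) (hp : 0 < p) (hg : 0 < g) :
    μ ≠ geoMeasure α c p g := by
  intro heq
  obtain ⟨-, v, -, -, hnull⟩ := h.structure hα hα1 hmin
  rw [heq] at h hnull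
  refine geo_not_level hα hc hp hg h (v := v) fun n => ?_
  by_contra hne
  have hpos : 0 < ((n : ℝ) + 1) * g := by positivity
  have h1 : geoMeasure α c p g {((n : ℝ) + 1) * g} = 0 := by
    refine measure_mono_null ?_ hnull
    rw [singleton_subset_iff]
    exact ⟨hne, fun h0 => hpos.ne' h0⟩
  have h2 := geo_atom (α := α) (c := c) (p := p) (g := g) n
  rw [h1, nonpos_iff_eq_zero, ENNReal.ofReal_eq_zero] at h2
  have : 0 < c * p ^ (n + 1) := by positivity
  linarith

end Pool.Agent.H780R2.Mallows
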