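import Pool.Agent.H780R2.Mallows.Euler

/-!
# Structure of the minimiser
-/

set_option autoImplicit false

namespace Pool.Agent.H780R2.Mallows

open Real MeasureTheory Set Filter Topology

/-- The class `𝒢_α`: probability measures on `ℝ`, symmetric about `0`, with an atom of mass
exactly `α` at `0`. -/
structure InClass (α : ℝ) (μ : Measure ℝ) : Prop where
  prob : IsProbabilityMeasure μ
  symm : μ.map (fun u => -u) = μ
  atom : μ {0} = ENNReal.ofReal α

lemma InClass.adm {α : ℝ} {μ : Measure ℝ} (h : InClass α μ) : Adm α μ := by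
  have := h.prob
  exact ⟨inferInstance, prob_le_one, h.symm, h.atom.ge⟩

section
variable {α : ℝ} {μ : Measure ℝ}

/-- Structure of a minimiser over the admissible class. -/
theorem Adm.structure (h : Adm α μ) (hα : 0 < α) (hα1 : α < 1)
    (hmin : ∀ ν, Adm α ν → fish μ ≤ fish ν) :
    InClass α μ ∧ ∃ c, (∀ u, c ≤ Jfun μ u) ∧ c < Jfun μ 0 ∧ μ ({u | Jfun μ u ≠ c} \ {0}) = 0 := by
  have := h.fin
  set c := (fish μ - α * Jfun μ 0) / (1 - α) with hc
  have hα1' : 0 < 1 - α := by linarith
  have hfc : fish μ = α * Jfun μ 0 + (1 - α) * c := by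
    rw [hc]; field_simp; ring
  have hJc : ∀ u, c ≤ Jfun μ u := by
    intro u
    have h1 := h.first_order_pt hα hmin hα1'.le (by linarith) u
    rw [hfc] at h1
    have h2 : (1 - α) * c ≤ (1 - α) * Jfun μ u := by linarith
    exact le_of_mul_le_mul_left h2 hα1'
  have hc0 : c ≤ 0 := by
    have h1 := h.first_order_pt hα hmin (le_refl 0) (by linarith) 0
    rw [zero_mul, add_zero] at h1
    rw [hc]
    exact div_nonpos_of_nonpos_of_nonneg (by linarith) hα1'.le
  have hfp := h.fish_pos hα
  have hJ0 : c < Jfun μ 0 := by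
    have h1 : 0 < α * Jfun μ 0 := by
      have : (1 - α) * c ≤ 0 := mul_nonpos_of_nonneg_of_nonpos hα1'.le hc0
      linarith
    have h2 : 0 < Jfun μ 0 := (mul_pos_iff_of_pos_left hα).1 h1
    linarith
  -- masses
  set m0 := μ.real {0} with hm0
  set m := μ.real univ with hm
  have hm0α : α ≤ m0 := h.alpha_le_real
  have hm1 : m ≤ 1 := h.real_univ_le
  have hJint := h.integrable_J hα
  have hJcint : Integrable (fun u => Jfun μ u - c) μ := hJint.sub (integrable_const _)
  have hE : ∫ u, (Jfun μ u - c) ∂μ = fish μ - c * m := by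
    rw [integral_sub hJint (integrable_const _), h.integral_J hα, integral_const, smul_eq_mul,
      mul_comm c]
  have hsplit : ∫ u, (Jfun μ u - c) ∂μ
      = m0 * (Jfun μ 0 - c) + ∫ u in ({0} : Set ℝ)ᶜ, (Jfun μ u - c) ∂μ := by
    rw [← integral_add_compl (measurableSet_singleton (0 : ℝ)) hJcint, integral_singleton,
      smul_eq_mul]
  have hrest : 0 ≤ ∫ u in ({0} : Set ℝ)ᶜ, (Jfun μ u - c) ∂μ :=
    integral_nonneg fun u => sub_nonneg.2 (hJc u)
  have hkey : (∫ u in ({0} : Set ℝ)ᶜ, (Jfun μ u - c) ∂μ)
      = -((m0 - α) * (Jfun μ 0 - c)) + c * (1 - m) := by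
    have : fish μ - c * m = m0 * (Jfun μ 0 - c) + ∫ u in ({0} : Set ℝ)ᶜ, (Jfun μ u - c) ∂μ := by
      rw [← hE, hsplit]
    rw [hfc] at this
    linarith
  have ht1 : 0 ≤ (m0 - α) * (Jfun μ 0 - c) := mul_nonneg (by linarith) (by linarith)
  have ht2 : c * (1 - m) ≤ 0 := mul_nonpos_of_nonpos_of_nonneg hc0 (by linarith)
  have hr0 : (∫ u in ({0} : Set ℝ)ᶜ, (Jfun μ u - c) ∂μ) = 0 := by linarith
  have hm0' : (m0 - α) * (Jfun μ 0 - c) = 0 := by linarith
  have hm0eq : m0 = α := by
    rcases mul_eq_zero.1 hm0' with h1 | h1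
    · linarith
    · linarith
  have hcm : c * (1 - m) = 0 := by linarith
  have hmeq : m = 1 := by
    rcases mul_eq_zero.1 hcm with h1 | h1
    · exfalso
      apply h.J_not_nonneg hα
      intro u
      rw [← h1]; exact hJc u
    · linarith
  refine ⟨⟨⟨?_⟩, h.symm, ?_⟩, c, hJc, hJ0, ?_⟩
  · have : μ univ = ENNReal.ofReal m := by rw [hm, ofReal_measureReal]
    rw [this, hmeq, ENNReal.ofReal_one]
  · have : μ {0} = ENNReal.ofReal m0 := by rw [hm0, ofReal_measureReal]
    rw [this, hm0eq]
  · have h1 : (fun u => Jfun μ u - c) =ᵐ[μ.restrict ({0} : Set ℝ)ᶜ] 0 :=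
      (integral_eq_zero_iff_of_nonneg (fun u => sub_nonneg.2 (hJc u)) hJcint.restrict).1 hr0
    have h2 : ∀ᵐ u ∂(μ.restrict ({0} : Set ℝ)ᶜ), Jfun μ u = c := by
      filter_upwards [h1] with u hu
      simp only [Pi.zero_apply] at hu
      linarith
    rw [ae_restrict_iff' (measurableSet_singleton (0 : ℝ)).compl, ae_iff] at h2
    convert h2 using 2
    ext u
    simp only [Set.mem_sdiff, mem_ofPred_eq, mem_singleton_iff, mem_compl_iff, Classical.not_imp]
    tauto

/-- Existence in the class `𝒢_α`, minimising even among all admissible measures. -/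
theorem exists_min_class (hα : 0 < α) (hα1 : α < 1) :
    ∃ μ : Measure ℝ, InClass α μ ∧ ∀ ν, Adm α ν → fish μ ≤ fish ν := by
  obtain ⟨μ, hμ, hmin⟩ := exists_min hα hα1.le
  exact ⟨μ, (hμ.structure hα hα1 hmin).1, hmin⟩

/-- A minimiser in `𝒢_α` minimises among all admissible measures. -/
theorem InClass.min_adm (h : InClass α μ) (hα : 0 < α) (hα1 : α < 1)
    (hmin : ∀ ν, InClass α ν → fisher μ ≤ fisher ν) : ∀ ν, Adm α ν → fish μ ≤ fish ν := by
  intro ν hν
  obtain ⟨μ0, h0, hmin0⟩ := exists_min_class hα hα1
  have h1 := hmin μ0 h0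
  rw [h.adm.fisher_eq hα, h0.adm.fisher_eq hα,
    ENNReal.ofReal_le_ofReal_iff h0.adm.fish_nonneg] at h1
  exact h1.trans (hmin0 ν hν)

/-- Uniqueness. -/
theorem unique_min {μ ν : Measure ℝ} (hμ : InClass α μ) (hν : InClass α ν) (hα : 0 < α)
    (hm1 : ∀ σ, Adm α σ → fish μ ≤ fish σ) (hm2 : ∀ σ, Adm α σ → fish ν ≤ fish σ) : μ = ν := by
  have hp1 := hμ.prob
  have hp2 := hν.prob
  have ha1 := hμ.adm
  have ha2 := hν.adm
  have hmix := ha1.mix ha2 (t := 1 / 2) (by norm_num) (by norm_num)
  have heq : fish ν = fish μ := le_antisymm (hm2 μ ha1) (hm1 ν ha2)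
  have hmixge := hm1 _ hmix
  -- the defect
  set Df : ℝ → ℝ := fun x => (dens1 μ x * dens ν x - dens1 ν x * dens μ x) ^ 2
    / (2 * dens μ x * dens ν x * (dens μ x + dens ν x)) with hDf
  have hid : ∀ x, score (Mallows.mix (1 / 2) μ ν) x ^ 2 * dens (Mallows.mix (1 / 2) μ ν) x
      = (1 / 2) * (score μ x ^ 2 * dens μ x) + (1 / 2) * (score ν x ^ 2 * dens ν x) - Df x := by
    intro x
    rw [hmix.score_sq_mul hα, ha1.score_sq_mul hα, ha2.score_sq_mul hα]
    unfold Mallows.mix
    rw [dens_add_smul μ ν (by norm_num) (by norm_num), dens1_add_smul μ ν (by norm_num)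
      (by norm_num)]
    have h1 := ha1.dens_pos hα x
    have h2 := ha2.dens_pos hα x
    simp only [hDf]
    have h3 : (1 - 1 / 2) * dens μ x + 1 / 2 * dens ν x ≠ 0 := by positivity
    have h4 : dens μ x + dens ν x ≠ 0 := by positivity
    field_simp
    ring
  have i1 := ha1.integrable_fish hα
  have i2 := ha2.integrable_fish hα
  have i3 := hmix.integrable_fish hα
  have hDfeq : Df = fun x => (1 / 2) * (score μ x ^ 2 * dens μ x)
      + (1 / 2) * (score ν x ^ 2 * dens ν x)
      - score (Mallows.mix (1 / 2) μ ν) x ^ 2 * dens (Mallows.mix (1 / 2) μ ν) x := by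
    funext x
    rw [hid x]; ring
  have hDfint : Integrable Df := by
    rw [hDfeq]
    exact ((i1.const_mul _).add (i2.const_mul _)).sub i3
  have hDfI : ∫ x, Df x = fish μ - fish (Mallows.mix (1 / 2) μ ν) := by
    rw [hDfeq, integral_sub, integral_add, integral_const_mul, integral_const_mul]
    · change 1 / 2 * fish μ + 1 / 2 * fish ν - fish (Mallows.mix (1 / 2) μ ν) = _
      rw [heq]; ring
    · exact i1.const_mul _
    · exact i2.const_mul _
    · exact (i1.const_mul _).add (i2.const_mul _)
    · exact i3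
  have hDfnn : 0 ≤ Df := by
    intro x
    have h1 := ha1.dens_pos hα x
    have h2 := ha2.dens_pos hα x
    simp only [hDf, Pi.zero_apply]
    positivity
  have hDf0 : ∫ x, Df x = 0 := le_antisymm (by rw [hDfI]; linarith) (integral_nonneg hDfnn)
  have hDfc : Continuous Df := by
    have c1 := continuous_dens μ
    have c2 := continuous_dens ν
    have c3 := continuous_dens1 μ
    have c4 := continuous_dens1 ν
    simp only [hDf]
    refine Continuous.div (by fun_prop) (by fun_prop) fun x => ?_
    have h1 := ha1.dens_pos hα x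
    have h2 := ha2.dens_pos hα x
    positivity
  have hae := (integral_eq_zero_iff_of_nonneg hDfnn hDfint).1 hDf0
  have hz : Df = 0 := (hDfc.ae_eq_iff_eq volume continuous_const).1 hae
  have hcross : ∀ x, dens1 μ x * dens ν x = dens1 ν x * dens μ x := by
    intro x
    have h1 := ha1.dens_pos hα x
    have h2 := ha2.dens_pos hα x
    have h3 := congrFun hz x
    simp only [hDf, Pi.zero_apply] at h3
    rw [div_eq_zero_iff] at h3
    rcases h3 with h3 | h3
    · have := pow_eq_zero_iff (two_ne_zero) |>.1 h3
      linarith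
    · exfalso
      have : 0 < 2 * dens μ x * dens ν x * (dens μ x + dens ν x) := by positivity
      linarith
  -- the ratio is constant
  have hratio : ∀ x, dens μ x / dens ν x = dens μ 0 / dens ν 0 := by
    intro x
    have hd : ∀ y, HasDerivAt (fun y => dens μ y / dens ν y) 0 y := by
      intro y
      have h1 := (hasDerivAt_dens μ y).div (hasDerivAt_dens ν y) (ha2.dens_pos hα y).ne'
      refine h1.congr_deriv ?_
      rw [hcross y]
      ring
    exact is_const_of_deriv_eq_zero (fun y => (hd y).differentiableAt)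
      (fun y => (hd y).deriv) x 0
  set r := dens μ 0 / dens ν 0 with hr
  have hμν : ∀ x, dens μ x = r * dens ν x := by
    intro x
    have h2 := (ha2.dens_pos hα x).ne'
    rw [← hratio x]; field_simp
  have hr1 : r = 1 := by
    have e1 := integral_dens μ
    have e2 := integral_dens ν
    simp_rw [hμν] at e1
    rw [integral_const_mul, e2] at e1
    simpa using e1
  apply ext_of_dens
  intro x
  rw [hμν x, hr1, one_mul]

/-- A minimiser cannot have bounded support. -/
theorem Adm.unbounded_support (h : Adm α μ) (hα : 0 < α) {c : ℝ} (hJc : ∀ u, c ≤ Jfun μ u)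
    (R : ℝ) : μ (Icc (-R) R)ᶜ ≠ 0 := by
  intro h0
  have := h.fin
  have hs := h.continuous_score hα
  have hphi := continuous_phi
  -- posterior mean bound
  have hpost : ∀ x, x + score μ x ≤ R := by
    intro x
    have hf := h.dens_pos hα x
    have h1 : (x + score μ x) * dens μ x = ∫ u, u * phi (x - u) ∂μ := by
      rw [add_mul, h.score_mul hα]
      unfold dens dens1
      rw [← integral_const_mul, ← integral_add ((integrable_k0 μ x).const_mul _)
        (integrable_k1 μ x)]
      refine integral_congr_ae (Eventually.of_forall fun u => ?_)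
      simp only
      ring
    have hint : Integrable (fun u => u * phi (x - u)) μ := by
      have := ((integrable_k0 μ x).const_mul x).add (integrable_k1 μ x)
      refine this.congr (Eventually.of_forall fun u => ?_)
      simp only [Pi.add_apply]
      ring
    have h2 : ∫ u, u * phi (x - u) ∂μ ≤ ∫ u, R * phi (x - u) ∂μ := by
      refine integral_mono_ae hint ((integrable_k0 μ x).const_mul _) ?_
      have h3 : ∀ᵐ u ∂μ, u ∈ Icc (-R) R := by
        rw [ae_iff]
        convert h0 using 2
        ext u
        simp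
      filter_upwards [h3] with u hu
      exact mul_le_mul_of_nonneg_right hu.2 (phi_nonneg _)
    rw [integral_const_mul, ← h1] at h2
    exact le_of_mul_le_mul_right h2 hf
  set V := ∫ x, x ^ 2 * phi x with hV
  have hJle : ∀ u, R ≤ u → Jfun μ u ≤ V - (u - R) ^ 2 := by
    intro u hu
    have i1 : Integrable (fun x => (x - u) ^ 2 * phi (x - u)) :=
      integrable_sq_phi.comp_sub_right u
    have i0 : Integrable (fun x => phi (x - u)) := integrable_phi.comp_sub_right u
    have e1 : ∫ x, (x - u) ^ 2 * phi (x - u) = V :=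
      integral_sub_right_eq_self (fun x => x ^ 2 * phi x) u
    have e0 : ∫ x, phi (x - u) = 1 := by
      rw [integral_sub_right_eq_self (fun x => phi x) u, integral_phi]
    have h1 : Jfun μ u ≤ ∫ x, ((x - u) ^ 2 * phi (x - u) - (u - R) ^ 2 * phi (x - u)) := by
      unfold Jfun
      refine integral_mono (h.J_integrable hα u) (i1.sub (i0.const_mul _)) fun x => ?_
      simp only
      have h2 := hpost x
      have h3 : (u - R) ^ 2 ≤ (x + score μ x - u) ^ 2 := by nlinarith
      have h4 : -(2 * (x - u) * score μ x) - score μ x ^ 2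
          = (x - u) ^ 2 - (x + score μ x - u) ^ 2 := by ring
      rw [h4]
      have := phi_nonneg (x - u)
      nlinarith
    refine h1.trans (le_of_eq ?_)
    rw [integral_sub i1 (i0.const_mul _), integral_const_mul, e1, e0, mul_one]
  have h1 := hJc (R + (1 + |V| + |c|))
  have h2 := hJle (R + (1 + |V| + |c|)) (by have := abs_nonneg V; have := abs_nonneg c; linarith)
  have h3 := le_abs_self V
  have h4 := neg_abs_le c
  have h5 := abs_nonneg V
  have h6 := abs_nonneg c
  nlinarith

end

/-! ### enumeration of the atoms -/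

/-- A locally finite infinite subset of `(0,∞)` is the range of a strictly increasing sequence
tending to infinity. -/
lemma exists_enum {A : Set ℝ} (hpos : ∀ a ∈ A, 0 < a) (hinf : A.Infinite)
    (hfin : ∀ R, (A ∩ Iic R).Finite) :
    ∃ g : ℕ → ℝ, StrictMono g ∧ Tendsto g atTop atTop ∧ range g = A := by
  classical
  have hne : ∀ x, (A ∩ Ioi x).Nonempty := by
    intro x
    by_contra h
    rw [not_nonempty_iff_eq_empty] at h
    apply hinf
    apply (hfin x).subset
    intro a ha
    refine ⟨ha, ?_⟩
    by_contra hax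
    rw [mem_Iic, not_le] at hax
    have : a ∈ A ∩ Ioi x := ⟨ha, hax⟩
    rw [h] at this
    exact this
  have hleast : ∀ x, ∃ y, IsLeast (A ∩ Ioi x) y := by
    intro x
    obtain ⟨a, ha⟩ := hne x
    have hf : ((A ∩ Ioi x) ∩ Iic a).Finite := (hfin a).subset (by
      intro b hb; exact ⟨hb.1.1, hb.2⟩)
    have hne' : ((A ∩ Ioi x) ∩ Iic a).Nonempty := ⟨a, ha, mem_Iic.2 le_rfl⟩
    obtain ⟨y, hy, hymin⟩ := Set.exists_min_image _ id hf hne'
    refine ⟨y, hy.1, fun b hb => ?_⟩
    rcases le_total b a with hba | hba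
    · exact hymin b ⟨hb, hba⟩
    · exact (mem_Iic.1 hy.2).trans hba
  choose nx hnx using hleast
  let g : ℕ → ℝ := fun n => Nat.rec (nx 0) (fun _ y => nx y) n
  have hg0 : g 0 = nx 0 := rfl
  have hgs : ∀ n, g (n + 1) = nx (g n) := fun n => rfl
  have hgA : ∀ n, g n ∈ A := by
    intro n
    cases n with
    | zero => exact (hnx 0).1.1
    | succ n => rw [hgs]; exact (hnx _).1.1
  have hmono : StrictMono g := by
    apply strictMono_nat_of_lt_succ
    intro n
    rw [hgs]
    exact (hnx _).1.2
  have hrange : range g = A := by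
    apply Subset.antisymm
    · rintro _ ⟨n, rfl⟩; exact hgA n
    · intro a ha
      by_contra hna
      have hlt : ∀ n, g n < a := by
        intro n
        induction n with
        | zero =>
          have h1 : nx 0 ≤ a := (hnx 0).2 ⟨ha, hpos a ha⟩
          exact lt_of_le_of_ne h1 fun h => hna ⟨0, h⟩
        | succ n ih =>
          have h1 : nx (g n) ≤ a := (hnx (g n)).2 ⟨ha, ih⟩
          exact lt_of_le_of_ne h1 fun h => hna ⟨n + 1, h⟩
      have h1 : (range g) ⊆ A ∩ Iic a := by
        rintro _ ⟨n, rfl⟩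
        exact ⟨hgA n, (hlt n).le⟩
      exact (Set.infinite_range_of_injective hmono.injective) ((hfin a).subset h1)
  refine ⟨g, hmono, ?_, hrange⟩
  rw [tendsto_atTop_atTop]
  intro b
  by_contra hcon
  push Not at hcon
  have h1 : (range g) ⊆ A ∩ Iic b := by
    rintro _ ⟨n, rfl⟩
    obtain ⟨m, hm, hmb⟩ := hcon n
    exact ⟨hgA n, (hmono.monotone hm).trans hmb.le⟩
  exact (Set.infinite_range_of_injective hmono.injective) ((hfin b).subset h1)

/-- Two measures concentrated on a countable set and agreeing on its points are equal. -/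
lemma ext_countable {μ ν : Measure ℝ} {D : Set ℝ} (hD : D.Countable) (h1 : μ Dᶜ = 0)
    (h2 : ν Dᶜ = 0) (h : ∀ d ∈ D, μ {d} = ν {d}) : μ = ν := by
  ext B hB
  have key : ∀ σ : Measure ℝ, σ Dᶜ = 0 → σ B = ∑' d : (B ∩ D : Set ℝ), σ {(d : ℝ)} := by
    intro σ hσ
    have e1 : σ B = σ (B ∩ D) := by
      rw [← measure_inter_add_sdiff B hD.measurableSet]
      have : σ (B \ D) = 0 := measure_mono_null (fun x hx => hx.2) hσ
      rw [this, add_zero]
    have hc : (B ∩ D).Countable := hD.mono inter_subset_right
    rw [e1]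
    have e2 : (B ∩ D) = ⋃ d ∈ (B ∩ D), {d} := (Set.biUnion_of_singleton _).symm
    conv_lhs => rw [e2]
    rw [measure_biUnion hc]
    · exact fun x _ y _ hxy => by simpa using hxy
    · exact fun b _ => measurableSet_singleton b
  rw [key μ h1, key ν h2]
  apply tsum_congr
  rintro ⟨d, hd⟩
  exact h d hd.2

/-- The measure `α δ_0 + ∑_n p_n (δ_{g_n} + δ_{-g_n})`. -/
noncomputable def stepMeasure (α : ℝ) (g p : ℕ → ℝ) : Measure ℝ :=
  ENNReal.ofReal α • Measure.dirac 0 +
    Measure.sum (fun n => ENNReal.ofReal (p n) • (Measure.dirac (g n) + Measure.dirac (-(g n))))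

/-- Discreteness: a minimiser is `α δ_0 + ∑ p_n (δ_{g_n} + δ_{-g_n})` with `0 < g_0 < g_1 < ...`
tending to infinity and `p_n > 0`. -/
theorem Adm.discrete {α : ℝ} {μ : Measure ℝ} (h : Adm α μ) (hα : 0 < α) (hα1 : α < 1)
    (hmin : ∀ ν, Adm α ν → fish μ ≤ fish ν) :
    ∃ g p : ℕ → ℝ, StrictMono g ∧ 0 < g 0 ∧ Tendsto g atTop atTop ∧ (∀ n, 0 < p n) ∧
      μ = stepMeasure α g p := by
  have hfin := h.fin
  obtain ⟨hcl, c, hJc, hJ0, hnull⟩ := h.structure hα hα1 hmin
  -- the level set
  set Z : Set ℝ := {u | Jfun μ u = c} with hZ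
  have hZfin : ∀ R, (Z ∩ Icc (-R) R).Finite := h.J_level_finite hα hJ0.ne'
  have hZc : Z.Countable := by
    have : Z = ⋃ n : ℕ, Z ∩ Icc (-(n : ℝ)) n := by
      rw [← inter_iUnion]
      ext x
      simp only [mem_inter_iff, mem_iUnion]
      refine ⟨fun hx => ⟨hx, ?_⟩, fun hx => hx.1⟩
      obtain ⟨n, hn⟩ := exists_nat_ge |x|
      exact ⟨n, abs_le.1 hn⟩
    rw [this]
    exact countable_iUnion fun n => (hZfin n).countable
  have hsymm : ∀ u, μ {-u} = μ {u} := by
    intro u
    conv_rhs => rw [← h.symm]
    rw [Measure.map_apply measurable_neg (measurableSet_singleton u)]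
    congr 1
    ext x
    simp
  set A : Set ℝ := {u | 0 < u ∧ μ {u} ≠ 0} with hA
  have hAZ : A ⊆ Z := by
    intro u hu
    by_contra hne
    apply hu.2
    refine measure_mono_null ?_ hnull
    rw [singleton_subset_iff]
    exact ⟨hne, fun h0 => by rw [mem_singleton_iff] at h0; rw [h0] at hu; exact lt_irrefl _ hu.1⟩
  have hAfin : ∀ R, (A ∩ Iic R).Finite := by
    intro R
    apply (hZfin |R|).subset
    intro u hu
    refine ⟨hAZ hu.1, ?_, (mem_Iic.1 hu.2).trans (le_abs_self R)⟩
    have := hu.1.1
    have := abs_nonneg R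
    linarith
  -- concentration
  have hDnull : μ ({0} ∪ (A ∪ {u | -u ∈ A}))ᶜ = 0 := by
    have h1 : ({0} ∪ (A ∪ {u | -u ∈ A}))ᶜ ⊆ ({u | Jfun μ u ≠ c} \ {0})
        ∪ ⋃ u ∈ Z ∩ ({0} ∪ (A ∪ {u | -u ∈ A}))ᶜ, {u} := by
      intro u hu
      by_cases huZ : Jfun μ u = c
      · right
        simp only [mem_iUnion, mem_singleton_iff, exists_prop, exists_eq_right']
        exact ⟨huZ, hu⟩
      · left
        refine ⟨huZ, fun h0 => hu (Or.inl h0)⟩
    refine measure_mono_null h1 (measure_union_null hnull ?_)
    rw [measure_biUnion_null_iff (hZc.mono inter_subset_left)]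
    intro u hu
    by_contra hne
    apply hu.2
    rcases lt_trichotomy u 0 with h2 | h2 | h2
    · right; right
      exact ⟨by linarith, by rw [hsymm]; exact hne⟩
    · left; exact h2
    · right; left
      exact ⟨h2, hne⟩
  have hAinf : A.Infinite := by
    intro hf
    obtain ⟨R, hR⟩ := hf.bddAbove
    apply h.unbounded_support hα hJc (max R 0)
    refine measure_mono_null ?_ hDnull
    intro u hu hmem
    apply hu
    have hR0 := le_max_left R 0
    have hR1 := le_max_right R 0
    rcases hmem with h1 | h1 | h1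
    · rw [mem_singleton_iff] at h1
      rw [h1]
      exact ⟨by linarith, hR1⟩
    · exact ⟨by have := h1.1; linarith, (hR h1).trans hR0⟩
    · have h2 := hR h1
      have h3 : 0 < -u := h1.1
      exact ⟨by linarith, by linarith⟩
  obtain ⟨g, hg, hgt, hgA⟩ := exists_enum (fun a ha => ha.1) hAinf hAfin
  have hgmem : ∀ n, g n ∈ A := fun n => by rw [← hgA]; exact mem_range_self n
  have hgpos : ∀ n, 0 < g n := fun n => (hgmem n).1
  refine ⟨g, fun n => μ.real {g n}, hg, hgpos 0, hgt, fun n => ?_, ?_⟩
  · exact ENNReal.toReal_pos (hgmem n).2 (measure_ne_top _ _)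
  · set D : Set ℝ := {0} ∪ (A ∪ {u | -u ∈ A}) with hD
    have hAc : A.Countable := hZc.mono hAZ
    have hDc : D.Countable := by
      refine (countable_singleton 0).union (hAc.union ?_)
      exact hAc.preimage neg_injective
    -- value of the step measure on singletons
    have hstep : ∀ B : Set ℝ, MeasurableSet B →
        stepMeasure α g (fun n => μ.real {g n}) B = ENNReal.ofReal α * B.indicator 1 0
        + ∑' n, μ {g n} * (B.indicator 1 (g n) + B.indicator 1 (-(g n))) := by
      intro B hB
      unfold stepMeasure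
      rw [Measure.add_apply, Measure.smul_apply, smul_eq_mul, Measure.dirac_apply' _ hB,
        Measure.sum_apply _ hB]
      congr 1
      apply tsum_congr
      intro n
      rw [Measure.smul_apply, Measure.add_apply, Measure.dirac_apply' _ hB,
        Measure.dirac_apply' _ hB, smul_eq_mul, ofReal_measureReal]
    refine ext_countable hDc hDnull ?_ ?_
    · rw [hstep _ hDc.measurableSet.compl]
      have e0 : (Dᶜ).indicator (1 : ℝ → ENNReal) 0 = 0 := by
        apply indicator_of_notMem
        exact fun h => h (Or.inl rfl)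
      have e1 : ∀ n, (Dᶜ).indicator (1 : ℝ → ENNReal) (g n) = 0 := fun n => by
        apply indicator_of_notMem
        exact fun h => h (Or.inr (Or.inl (hgmem n)))
      have e2 : ∀ n, (Dᶜ).indicator (1 : ℝ → ENNReal) (-(g n)) = 0 := fun n => by
        apply indicator_of_notMem
        refine fun h => h (Or.inr (Or.inr ?_))
        rw [mem_ofPred_eq, neg_neg]; exact hgmem n
      simp [e0, e1, e2]
    · intro d hd
      rw [hstep _ (measurableSet_singleton d)]
      rcases hd with hd | hd | hd
      · rw [mem_singleton_iff] at hd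
        subst hd
        have e1 : ∀ n, ({0} : Set ℝ).indicator (1 : ℝ → ENNReal) (g n) = 0 := fun n => by
          apply indicator_of_notMem
          rw [mem_singleton_iff]
          exact (hgpos n).ne'
        have e2 : ∀ n, ({0} : Set ℝ).indicator (1 : ℝ → ENNReal) (-(g n)) = 0 := fun n => by
          apply indicator_of_notMem
          rw [mem_singleton_iff]
          exact fun h => (hgpos n).ne' (neg_eq_zero.1 h)
        simp [e1, e2, hcl.atom]
      · obtain ⟨k, hk⟩ : ∃ k, g k = d := by rw [← hgA] at hd; exact hd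
        subst hk
        have e0 : ({g k} : Set ℝ).indicator (1 : ℝ → ENNReal) 0 = 0 := by
          apply indicator_of_notMem
          rw [mem_singleton_iff]
          exact (hgpos k).ne
        have e1 : ∀ n, n ≠ k → ({g k} : Set ℝ).indicator (1 : ℝ → ENNReal) (g n) = 0 :=
          fun n hn => by
            apply indicator_of_notMem
            rw [mem_singleton_iff]
            exact fun h => hn (hg.injective h)
        have e2 : ∀ n, ({g k} : Set ℝ).indicator (1 : ℝ → ENNReal) (-(g n)) = 0 := fun n => by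
          apply indicator_of_notMem
          rw [mem_singleton_iff]
          intro h
          have := hgpos n; have := hgpos k; linarith
        rw [e0, mul_zero, zero_add, tsum_eq_single k]
        · rw [e2, indicator_of_mem (mem_singleton _)]
          simp
        · intro n hn
          rw [e1 n hn, e2]
          simp
      · obtain ⟨k, hk⟩ : ∃ k, g k = -d := by
          have : -d ∈ A := hd
          rw [← hgA] at this; exact this
        have hd' : d = -(g k) := by rw [hk, neg_neg]
        subst hd'
        have e0 : ({-(g k)} : Set ℝ).indicator (1 : ℝ → ENNReal) 0 = 0 := by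
          apply indicator_of_notMem
          rw [mem_singleton_iff]
          intro h
          have := hgpos k; linarith
        have e1 : ∀ n, ({-(g k)} : Set ℝ).indicator (1 : ℝ → ENNReal) (g n) = 0 := fun n => by
          apply indicator_of_notMem
          rw [mem_singleton_iff]
          intro h
          have := hgpos n; have := hgpos k; linarith
        have e2 : ∀ n, n ≠ k → ({-(g k)} : Set ℝ).indicator (1 : ℝ → ENNReal) (-(g n)) = 0 :=
          fun n hn => by
            apply indicator_of_notMem
            rw [mem_singleton_iff]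
            exact fun h => hn (hg.injective (neg_injective h))
        rw [e0, mul_zero, zero_add, tsum_eq_single k]
        · rw [e1, indicator_of_mem (mem_singleton _), hsymm]
          simp
        · intro n hn
          rw [e1, e2 n hn]
          simp

end Pool.Agent.H780R2.Mallows
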