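import Pool.Agent.H780R2.Mallows.Dens

/-!
# Fisher information, directional derivatives, first order condition
-/

set_option autoImplicit false

namespace Pool.Agent.H780R2.Mallows

open Real MeasureTheory Set Filter Topology

/-- The Fisher information `∫ f'²/f` of the mixture density, as an extended nonnegative real. -/
noncomputable def fisher (μ : Measure ℝ) : ENNReal :=
  ∫⁻ x, ENNReal.ofReal ((deriv (dens μ) x) ^ 2 / dens μ x)

/-- Real version. -/
noncomputable def fish (μ : Measure ℝ) : ℝ := ∫ x, score μ x ^ 2 * dens μ x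

/-- The directional derivative of the Fisher information at `μ` in the direction `δ_u`. -/
noncomputable def Jfun (μ : Measure ℝ) (u : ℝ) : ℝ :=
  ∫ x, (-(2 * (x - u) * score μ x) - score μ x ^ 2) * phi (x - u)

section
variable {α : ℝ} {μ ν : Measure ℝ}

lemma Adm.score_sq_mul (h : Adm α μ) (hα : 0 < α) (x : ℝ) :
    score μ x ^ 2 * dens μ x = dens1 μ x ^ 2 / dens μ x := by
  have hf := (h.dens_pos hα x).ne'
  unfold score
  field_simp

lemma Adm.score_mul (h : Adm α μ) (hα : 0 < α) (x : ℝ) :
    score μ x * dens μ x = dens1 μ x := by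
  have hf := (h.dens_pos hα x).ne'
  unfold score
  field_simp

lemma Adm.score_sq_mul_le (h : Adm α μ) (hα : 0 < α) (x : ℝ) :
    score μ x ^ 2 * dens μ x ≤ dens2 μ x := by
  have := h.fin
  rw [h.score_sq_mul hα, div_le_iff₀ (h.dens_pos hα x)]
  have := dens1_sq_le μ x
  linarith

lemma Adm.integrable_fish (h : Adm α μ) (hα : 0 < α) :
    Integrable (fun x => score μ x ^ 2 * dens μ x) := by
  have := h.fin
  refine (integrable_dens2 μ).mono'
    (((h.continuous_score hα).pow 2).mul (continuous_dens μ)).aestronglyMeasurable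
    (Eventually.of_forall fun x => ?_)
  rw [Real.norm_of_nonneg (mul_nonneg (sq_nonneg _) (dens_nonneg μ x))]
  exact h.score_sq_mul_le hα x

lemma Adm.fisher_eq (h : Adm α μ) (hα : 0 < α) : fisher μ = ENNReal.ofReal (fish μ) := by
  have := h.fin
  unfold fisher fish
  rw [ofReal_integral_eq_lintegral_ofReal (h.integrable_fish hα)
    (Eventually.of_forall fun x => mul_nonneg (sq_nonneg _) (dens_nonneg μ x))]
  refine lintegral_congr fun x => ?_
  rw [deriv_dens, h.score_sq_mul hα]

lemma Adm.fish_nonneg (h : Adm α μ) : 0 ≤ fish μ := by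
  have := h.fin
  exact integral_nonneg fun x => mul_nonneg (sq_nonneg _) (dens_nonneg μ x)

lemma Adm.fish_pos (h : Adm α μ) (hα : 0 < α) : 0 < fish μ := by
  have := h.fin
  refine lt_of_le_of_ne h.fish_nonneg fun h0 => ?_
  have h1 : (fun x => score μ x ^ 2 * dens μ x) =ᵐ[volume] 0 :=
    (integral_eq_zero_iff_of_nonneg
      (fun x => mul_nonneg (sq_nonneg _) (dens_nonneg μ x)) (h.integrable_fish hα)).1 h0.symm
  have hc : Continuous (fun x => score μ x ^ 2 * dens μ x) :=
    ((h.continuous_score hα).pow 2).mul (continuous_dens μ)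
  have h2 : (fun x => score μ x ^ 2 * dens μ x) = 0 :=
    (hc.ae_eq_iff_eq volume continuous_const).1 h1
  have h3 : ∀ x, dens1 μ x = 0 := fun x => by
    have h4 := congrFun h2 x
    simp only [Pi.zero_apply, mul_eq_zero, (h.dens_pos hα x).ne', or_false] at h4
    have h5 : score μ x = 0 := by simpa using h4
    rw [← h.score_mul hα, h5, zero_mul]
  have h4 : ∀ x, dens μ x = dens μ 0 := fun x =>
    is_const_of_deriv_eq_zero (fun y => (hasDerivAt_dens μ y).differentiableAt)
      (fun y => by rw [(hasDerivAt_dens μ y).deriv, h3]) x 0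
  have h5 := integrable_dens μ
  have h6 : dens μ = fun _ => dens μ 0 := funext h4
  rw [h6, integrable_const_iff] at h5
  rcases h5 with h5 | h5
  · exact (h.dens_pos hα 0).ne' h5
  · have := h5.measure_univ_lt_top
    simp at this

/-- growth of the score -/
lemma Adm.score_growth (h : Adm α μ) (hα : 0 < α) (x : ℝ) :
    |score μ x| ≤ (1 + √(scoreConst α)) * exp |x| := by
  have h1 := h.abs_score_le hα x
  have h2 := one_add_abs_le_exp x
  have h3 : 0 ≤ √(scoreConst α) := sqrt_nonneg _
  have h4 := abs_nonneg x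
  nlinarith

lemma Adm.J_integrand_growth (h : Adm α μ) (hα : 0 < α) (u x : ℝ) :
    |-(2 * (x - u) * score μ x) - score μ x ^ 2| ≤
      (2 * (1 + |u|) * (1 + √(scoreConst α)) + (1 + √(scoreConst α)) ^ 2) * exp (2 * |x|) := by
  have h1 := h.score_growth hα x
  have h3 : 0 ≤ √(scoreConst α) := sqrt_nonneg _
  set c := 1 + √(scoreConst α) with hc
  have hc1 : 1 ≤ c := by linarith
  have h2 := one_add_abs_le_exp x
  have h4 := abs_nonneg x
  have h5 := abs_nonneg u
  have hE : exp (2 * |x|) = exp |x| * exp |x| := by rw [← exp_add]; congr 1; ring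
  have h6 : |x - u| ≤ (1 + |u|) * exp |x| := by
    have := abs_sub x u
    nlinarith
  have h7 : |2 * (x - u) * score μ x| ≤ 2 * (1 + |u|) * c * exp (2 * |x|) := by
    rw [abs_mul, abs_mul, abs_two, hE]
    have h8 := mul_le_mul h6 h1 (abs_nonneg _) (by positivity)
    nlinarith
  have h9 : |score μ x ^ 2| ≤ c ^ 2 * exp (2 * |x|) := by
    rw [abs_pow, hE]
    have := pow_le_pow_left₀ (abs_nonneg _) h1 2
    calc |score μ x| ^ 2 ≤ (c * exp |x|) ^ 2 := this
      _ = c ^ 2 * (exp |x| * exp |x|) := by ring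
  calc |-(2 * (x - u) * score μ x) - score μ x ^ 2|
      ≤ |-(2 * (x - u) * score μ x)| + |score μ x ^ 2| := abs_sub _ _
    _ ≤ _ := by rw [abs_neg]; nlinarith

lemma Adm.J_integrable (h : Adm α μ) (hα : 0 < α) (u : ℝ) :
    Integrable (fun x => (-(2 * (x - u) * score μ x) - score μ x ^ 2) * phi (x - u)) := by
  have hs := h.continuous_score hα
  exact integrable_mul_phi_sub
    (by fun_prop : Continuous fun x => -(2 * (x - u) * score μ x) - score μ x ^ 2).aestronglyMeasurable
    (h.J_integrand_growth hα u) u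

lemma Adm.J_neg (h : Adm α μ) (u : ℝ) : Jfun μ (-u) = Jfun μ u := by
  unfold Jfun
  rw [← integral_neg_eq_self]
  refine integral_congr_ae (Eventually.of_forall fun x => ?_)
  simp only
  rw [h.score_neg]
  have e : -x - -u = -(x - u) := by ring
  rw [e, phi_neg]
  ring

/-! ### mixtures -/

lemma dens_add_smul (μ ν : Measure ℝ) [IsFiniteMeasure μ] [IsFiniteMeasure ν] {a b : ℝ}
    (ha : 0 ≤ a) (hb : 0 ≤ b) (x : ℝ) :
    dens (ENNReal.ofReal a • μ + ENNReal.ofReal b • ν) x = a * dens μ x + b * dens ν x := by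
  unfold dens
  rw [integral_add_measure ((integrable_k0 μ x).smul_measure (by simp))
    ((integrable_k0 ν x).smul_measure (by simp)), integral_smul_measure, integral_smul_measure,
    ENNReal.toReal_ofReal ha, ENNReal.toReal_ofReal hb, smul_eq_mul, smul_eq_mul]

lemma dens1_add_smul (μ ν : Measure ℝ) [IsFiniteMeasure μ] [IsFiniteMeasure ν] {a b : ℝ}
    (ha : 0 ≤ a) (hb : 0 ≤ b) (x : ℝ) :
    dens1 (ENNReal.ofReal a • μ + ENNReal.ofReal b • ν) x = a * dens1 μ x + b * dens1 ν x := by
  unfold dens1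
  rw [integral_add_measure ((integrable_k1 μ x).smul_measure (by simp))
    ((integrable_k1 ν x).smul_measure (by simp)), integral_smul_measure, integral_smul_measure,
    ENNReal.toReal_ofReal ha, ENNReal.toReal_ofReal hb, smul_eq_mul, smul_eq_mul]

/-- The mixture `(1-t) μ + t ν`. -/
noncomputable def mix (t : ℝ) (μ ν : Measure ℝ) : Measure ℝ :=
  ENNReal.ofReal (1 - t) • μ + ENNReal.ofReal t • ν

lemma Adm.mix (hμ : Adm α μ) (hν : Adm α ν) {t : ℝ} (h0 : 0 ≤ t) (h1 : t ≤ 1) :
    Adm α (mix t μ ν) := by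
  have := hμ.fin
  have := hν.fin
  have hsum : ENNReal.ofReal (1 - t) + ENNReal.ofReal t = 1 := by
    rw [← ENNReal.ofReal_add (by linarith) h0]; simp
  refine ⟨?_, ?_, ?_, ?_⟩
  · unfold Mallows.mix
    constructor
    simp only [Measure.coe_add, Measure.coe_smul, Pi.add_apply, Pi.smul_apply, smul_eq_mul]
    exact ENNReal.add_lt_top.2 ⟨ENNReal.mul_lt_top (by simp) (measure_lt_top _ _),
      ENNReal.mul_lt_top (by simp) (measure_lt_top _ _)⟩
  · unfold Mallows.mix
    simp only [Measure.coe_add, Measure.coe_smul, Pi.add_apply, Pi.smul_apply, smul_eq_mul]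
    calc ENNReal.ofReal (1 - t) * μ univ + ENNReal.ofReal t * ν univ
        ≤ ENNReal.ofReal (1 - t) * 1 + ENNReal.ofReal t * 1 := by
          gcongr
          · exact hμ.mass
          · exact hν.mass
      _ = 1 := by rw [mul_one, mul_one, hsum]
  · unfold Mallows.mix
    rw [Measure.map_add _ _ (by fun_prop), Measure.map_smul, Measure.map_smul, hμ.symm, hν.symm]
  · unfold Mallows.mix
    simp only [Measure.coe_add, Measure.coe_smul, Pi.add_apply, Pi.smul_apply, smul_eq_mul]
    calc ENNReal.ofReal α = ENNReal.ofReal (1 - t) * ENNReal.ofReal α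
          + ENNReal.ofReal t * ENNReal.ofReal α := by rw [← add_mul, hsum, one_mul]
      _ ≤ _ := by
          gcongr
          · exact hμ.atom
          · exact hν.atom

/-- Pointwise second order expansion. -/
lemma expand_pointwise {a c a' c' s t : ℝ} (hc : 0 < c) (hc' : 0 ≤ c') (hs : a = s * c)
    (ht0 : 0 ≤ t) (ht : t ≤ 1 / 2) :
    ((1 - t) * a + t * a') ^ 2 / ((1 - t) * c + t * c') ≤
      s ^ 2 * c + t * ((2 * s * a' - s ^ 2 * c') - s ^ 2 * c)
        + 2 * t ^ 2 * ((a' - s * c') ^ 2 / c) := by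
  have hC : c / 2 ≤ (1 - t) * c + t * c' := by
    have := mul_nonneg ht0 hc'
    nlinarith
  have hCp : 0 < (1 - t) * c + t * c' := by linarith
  have h1 : ((1 - t) * a + t * a') ^ 2 / ((1 - t) * c + t * c')
      = s ^ 2 * c + t * ((2 * s * a' - s ^ 2 * c') - s ^ 2 * c)
        + t ^ 2 * ((a' - s * c') ^ 2 / ((1 - t) * c + t * c')) := by
    rw [hs]
    field_simp
    ring
  rw [h1]
  have h2 : (a' - s * c') ^ 2 / ((1 - t) * c + t * c') ≤ (a' - s * c') ^ 2 / (c / 2) :=
    div_le_div_of_nonneg_left (sq_nonneg _) (by positivity) hC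
  have h3 : (a' - s * c') ^ 2 / (c / 2) = 2 * ((a' - s * c') ^ 2 / c) := by
    field_simp
  have h4 := mul_le_mul_of_nonneg_left h2 (sq_nonneg t)
  rw [h3] at h4
  nlinarith

lemma Adm.fish_mix_le (hμ : Adm α μ) (hν : Adm α ν) (hα : 0 < α)
    (hlin : Integrable (fun x => 2 * score μ x * dens1 ν x - score μ x ^ 2 * dens ν x))
    (hQ : Integrable (fun x => (dens1 ν x - score μ x * dens ν x) ^ 2 / dens μ x))
    {t : ℝ} (ht0 : 0 ≤ t) (ht : t ≤ 1 / 2) :
    fish (Mallows.mix t μ ν) ≤ fish μ
      + t * ((∫ x, 2 * score μ x * dens1 ν x - score μ x ^ 2 * dens ν x) - fish μ)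
      + 2 * t ^ 2 * ∫ x, (dens1 ν x - score μ x * dens ν x) ^ 2 / dens μ x := by
  have := hμ.fin
  have := hν.fin
  have hm := hμ.mix hν ht0 (by linarith : t ≤ 1)
  have hfi := hμ.integrable_fish hα
  have h1 : fish (Mallows.mix t μ ν) ≤ ∫ x, (score μ x ^ 2 * dens μ x
      + t * ((2 * score μ x * dens1 ν x - score μ x ^ 2 * dens ν x) - score μ x ^ 2 * dens μ x)
      + 2 * t ^ 2 * ((dens1 ν x - score μ x * dens ν x) ^ 2 / dens μ x)) := by
    unfold fish
    refine integral_mono (hm.integrable_fish hα) ?_ fun x => ?_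
    · exact (hfi.add ((hlin.sub hfi).const_mul t)).add (hQ.const_mul _)
    · simp only
      rw [hm.score_sq_mul hα]
      unfold Mallows.mix
      rw [dens_add_smul μ ν (by linarith) ht0, dens1_add_smul μ ν (by linarith) ht0]
      exact expand_pointwise (hμ.dens_pos hα x) (dens_nonneg ν x) (hμ.score_mul hα x).symm ht0 ht
  refine h1.trans (le_of_eq ?_)
  rw [integral_add, integral_add, integral_const_mul, integral_const_mul, integral_sub hlin hfi]
  · rfl
  · exact hfi
  · exact (hlin.sub hfi).const_mul t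
  · exact hfi.add ((hlin.sub hfi).const_mul t)
  · exact hQ.const_mul _

/-- First order condition. -/
lemma Adm.first_order (hμ : Adm α μ) (hν : Adm α ν) (hα : 0 < α)
    (hlin : Integrable (fun x => 2 * score μ x * dens1 ν x - score μ x ^ 2 * dens ν x))
    (hQ : Integrable (fun x => (dens1 ν x - score μ x * dens ν x) ^ 2 / dens μ x))
    (hmin : ∀ t : ℝ, 0 ≤ t → t ≤ 1 → fish μ ≤ fish (Mallows.mix t μ ν)) :
    fish μ ≤ ∫ x, 2 * score μ x * dens1 ν x - score μ x ^ 2 * dens ν x := by
  by_contra hcon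
  push Not at hcon
  set D := (∫ x, 2 * score μ x * dens1 ν x - score μ x ^ 2 * dens ν x) - fish μ with hD
  have hDneg : D < 0 := by linarith
  set Q := ∫ x, (dens1 ν x - score μ x * dens ν x) ^ 2 / dens μ x with hQdef
  have hQ0 : 0 ≤ Q := by
    have := hμ.fin
    exact integral_nonneg fun x => div_nonneg (sq_nonneg _) (dens_nonneg μ x)
  set t := min (1 / 2) (-D / (4 * (Q + 1))) with ht
  have ht0 : 0 < t := by
    apply lt_min (by norm_num)
    apply div_pos (by linarith) (by linarith)
  have ht1 : t ≤ 1 / 2 := min_le_left _ _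
  have ht2 : t * (4 * (Q + 1)) ≤ -D := by
    have := min_le_right (1 / 2) (-D / (4 * (Q + 1)))
    rw [le_div_iff₀ (by linarith)] at this
    exact this
  have h1 := hμ.fish_mix_le hν hα hlin hQ ht0.le ht1
  have h2 := hmin t ht0.le (by linarith)
  rw [← hD] at h1
  have h3 : 0 ≤ t * D + 2 * t ^ 2 * Q := by linarith
  have h4 : 0 ≤ D + 2 * t * Q := by
    by_contra h5
    push Not at h5
    nlinarith [mul_neg_of_pos_of_neg ht0 h5]
  nlinarith

/-! ### point competitors -/

/-- `α δ_0 + (b/2) (δ_u + δ_{-u})`. -/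
noncomputable def ptm (α b u : ℝ) : Measure ℝ :=
  ENNReal.ofReal α • Measure.dirac 0 +
    ENNReal.ofReal (b / 2) • (Measure.dirac u + Measure.dirac (-u))

lemma ptm_adm {α b : ℝ} (hα : 0 < α) (hb : 0 ≤ b) (hab : α + b ≤ 1) (u : ℝ) :
    Adm α (ptm α b u) := by
  unfold ptm
  refine ⟨?_, ?_, ?_, ?_⟩
  · constructor
    simp only [Measure.coe_add, Measure.coe_smul, Pi.add_apply, Pi.smul_apply, smul_eq_mul,
      measure_univ]
    exact ENNReal.add_lt_top.2 ⟨ENNReal.mul_lt_top (by simp) (by simp),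
      ENNReal.mul_lt_top (by simp) (by simp)⟩
  · simp only [Measure.coe_add, Measure.coe_smul, Pi.add_apply, Pi.smul_apply, smul_eq_mul,
      measure_univ, mul_one]
    have : ENNReal.ofReal (b / 2) * (1 + 1) = ENNReal.ofReal b := by
      have h2 : (1 + 1 : ENNReal) = ENNReal.ofReal 2 := by norm_num
      rw [h2, ← ENNReal.ofReal_mul (by linarith)]
      congr 1; ring
    rw [this, ← ENNReal.ofReal_add hα.le hb]
    exact ENNReal.ofReal_le_one.2 hab
  · have hm : Measurable fun u : ℝ => -u := measurable_neg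
    rw [Measure.map_add _ _ hm, Measure.map_smul, Measure.map_smul, Measure.map_add _ _ hm,
      Measure.map_dirac' hm, Measure.map_dirac' hm, Measure.map_dirac' hm, neg_zero, neg_neg]
    congr 2
    rw [add_comm]
  · simp only [Measure.coe_add, Measure.coe_smul, Pi.add_apply, Pi.smul_apply, smul_eq_mul]
    refine le_trans ?_ le_self_add
    simp

lemma dens_ptm {α b : ℝ} (hα : 0 ≤ α) (hb : 0 ≤ b) (u x : ℝ) :
    dens (ptm α b u) x = α * phi x + b / 2 * (phi (x - u) + phi (x + u)) := by
  unfold ptm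
  rw [dens_add_smul _ _ hα (by linarith)]
  have h0 : dens (Measure.dirac (0 : ℝ)) x = phi x := by
    unfold dens; rw [integral_dirac]; simp
  have h1 : dens (Measure.dirac u + Measure.dirac (-u)) x = phi (x - u) + phi (x + u) := by
    unfold dens
    rw [integral_add_measure (integrable_k0 _ x) (integrable_k0 _ x), integral_dirac,
      integral_dirac, sub_neg_eq_add]
  rw [h0, h1]

lemma dens1_ptm {α b : ℝ} (hα : 0 ≤ α) (hb : 0 ≤ b) (u x : ℝ) :
    dens1 (ptm α b u) x = α * (-(x * phi x)) +
      b / 2 * (-((x - u) * phi (x - u)) + -((x + u) * phi (x + u))) := by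
  unfold ptm
  rw [dens1_add_smul _ _ hα (by linarith)]
  have h0 : dens1 (Measure.dirac (0 : ℝ)) x = -(x * phi x) := by
    unfold dens1; rw [integral_dirac]; simp
  have h1 : dens1 (Measure.dirac u + Measure.dirac (-u)) x
      = -((x - u) * phi (x - u)) + -((x + u) * phi (x + u)) := by
    unfold dens1
    rw [integral_add_measure (integrable_k1 _ x) (integrable_k1 _ x), integral_dirac,
      integral_dirac, sub_neg_eq_add]
  rw [h0, h1]

lemma Adm.lin_ptm (hμ : Adm α μ) (hα : 0 < α) {b : ℝ} (hb : 0 ≤ b) (u : ℝ) :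
    Integrable (fun x => 2 * score μ x * dens1 (ptm α b u) x
      - score μ x ^ 2 * dens (ptm α b u) x) ∧
    ∫ x, (2 * score μ x * dens1 (ptm α b u) x - score μ x ^ 2 * dens (ptm α b u) x)
      = α * Jfun μ 0 + b * Jfun μ u := by
  have h0 := hμ.J_integrable hα 0
  have h1 := hμ.J_integrable hα u
  have h2 := hμ.J_integrable hα (-u)
  have e : (fun x => 2 * score μ x * dens1 (ptm α b u) x - score μ x ^ 2 * dens (ptm α b u) x)
      = fun x => α * ((-(2 * (x - 0) * score μ x) - score μ x ^ 2) * phi (x - 0))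
        + (b / 2 * ((-(2 * (x - u) * score μ x) - score μ x ^ 2) * phi (x - u))
        + b / 2 * ((-(2 * (x - -u) * score μ x) - score μ x ^ 2) * phi (x - -u))) := by
    funext x
    rw [dens_ptm hα.le hb, dens1_ptm hα.le hb, sub_zero, sub_neg_eq_add]
    ring
  rw [e]
  refine ⟨(h0.const_mul _).add ((h1.const_mul _).add (h2.const_mul _)), ?_⟩
  have e2 : ∫ x, (α * ((-(2 * (x - 0) * score μ x) - score μ x ^ 2) * phi (x - 0))
        + (b / 2 * ((-(2 * (x - u) * score μ x) - score μ x ^ 2) * phi (x - u))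
        + b / 2 * ((-(2 * (x - -u) * score μ x) - score μ x ^ 2) * phi (x - -u))))
      = α * Jfun μ 0 + (b / 2 * Jfun μ u + b / 2 * Jfun μ (-u)) := by
    rw [integral_add (h0.const_mul _), integral_add (h1.const_mul _) (h2.const_mul _),
      integral_const_mul, integral_const_mul, integral_const_mul]
    · rfl
    · exact (h1.const_mul _).add (h2.const_mul _)
  rw [e2, hμ.J_neg u]
  ring

lemma Adm.quad_ptm (hμ : Adm α μ) (hα : 0 < α) {b : ℝ} (hb : 0 ≤ b) (u : ℝ) :
    Integrable (fun x => (dens1 (ptm α b u) x - score μ x * dens (ptm α b u) x) ^ 2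
      / dens μ x) := by
  have := hμ.fin
  have hs := hμ.continuous_score hα
  have hphi := continuous_phi
  -- the function `H`
  set H : ℝ → ℝ := fun x => α * (-(x + score μ x)) +
    (b / 2 * (-(x - u + score μ x)) * exp (x * u - u ^ 2 / 2)
      + b / 2 * (-(x + u + score μ x)) * exp (x * (-u) - u ^ 2 / 2)) with hH
  have hHc : Continuous H := by rw [hH]; fun_prop
  have hHeq : ∀ x, dens1 (ptm α b u) x - score μ x * dens (ptm α b u) x = phi x * H x := by
    intro x
    rw [dens_ptm hα.le hb, dens1_ptm hα.le hb, phi_sub]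
    have : phi (x + u) = phi x * exp (x * (-u) - u ^ 2 / 2) := by
      have := phi_sub x (-u)
      rw [sub_neg_eq_add, neg_sq] at this
      exact this
    rw [this, hH]
    ring
  -- growth of `H`
  set c := 1 + √(scoreConst α) with hc
  have hc0 : 1 ≤ c := by have := sqrt_nonneg (scoreConst α); linarith
  have hHg : ∀ x, |H x| ≤ (α * (2 * c) + b * ((1 + |u|) + 2 * c)) * exp ((1 + |u|) * |x|) := by
    intro x
    have hx := one_add_abs_le_exp x
    have hx0 := abs_nonneg x
    have hu0 := abs_nonneg u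
    have hsg := hμ.score_growth hα x
    rw [← hc] at hsg
    have hexp1 : exp ((1 + |u|) * |x|) = exp |x| * exp (|u| * |x|) := by
      rw [← exp_add]; congr 1; ring
    have hexp2 : 1 ≤ exp (|u| * |x|) := one_le_exp (by positivity)
    have hE : 0 < exp |x| := exp_pos _
    have b1 : |x + score μ x| ≤ 2 * c * exp |x| := by
      have := abs_add_le x (score μ x)
      nlinarith
    have b2 : |x - u + score μ x| ≤ ((1 + |u|) + 2 * c) * exp |x| := by
      have h1 := abs_add_le (x - u) (score μ x)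
      have h2 := abs_sub x u
      nlinarith
    have b3 : |x + u + score μ x| ≤ ((1 + |u|) + 2 * c) * exp |x| := by
      have h1 := abs_add_le (x + u) (score μ x)
      have h2 := abs_add_le x u
      nlinarith
    have e1 : exp (x * u - u ^ 2 / 2) ≤ exp (|u| * |x|) := by
      rw [exp_le_exp]
      have : x * u ≤ |u| * |x| := by rw [mul_comm, ← abs_mul]; exact le_abs_self _
      nlinarith [sq_nonneg u]
    have e2 : exp (x * (-u) - u ^ 2 / 2) ≤ exp (|u| * |x|) := by
      rw [exp_le_exp]
      have : x * (-u) ≤ |u| * |x| := by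
        rw [mul_comm, ← abs_neg u, ← abs_mul]; exact le_abs_self _
      nlinarith [sq_nonneg u]
    have t1 : |α * (-(x + score μ x))| ≤ α * (2 * c) * exp ((1 + |u|) * |x|) := by
      rw [abs_mul, abs_neg, abs_of_pos hα, hexp1]
      have h1 : α * |x + score μ x| ≤ α * (2 * c * exp |x|) := by gcongr
      have h2 : α * (2 * c * exp |x|) * 1 ≤ α * (2 * c * exp |x|) * exp (|u| * |x|) := by gcongr
      nlinarith
    have t2 : |b / 2 * (-(x - u + score μ x)) * exp (x * u - u ^ 2 / 2)|
        ≤ b / 2 * ((1 + |u|) + 2 * c) * exp ((1 + |u|) * |x|) := by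
      rw [abs_mul, abs_mul, abs_neg, abs_of_pos (exp_pos _), abs_of_nonneg (by linarith : 0 ≤ b / 2),
        hexp1]
      calc b / 2 * |x - u + score μ x| * exp (x * u - u ^ 2 / 2)
          ≤ b / 2 * (((1 + |u|) + 2 * c) * exp |x|) * exp (|u| * |x|) := by gcongr
        _ = _ := by ring
    have t3 : |b / 2 * (-(x + u + score μ x)) * exp (x * (-u) - u ^ 2 / 2)|
        ≤ b / 2 * ((1 + |u|) + 2 * c) * exp ((1 + |u|) * |x|) := by
      rw [abs_mul, abs_mul, abs_neg, abs_of_pos (exp_pos _), abs_of_nonneg (by linarith : 0 ≤ b / 2),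
        hexp1]
      calc b / 2 * |x + u + score μ x| * exp (x * (-u) - u ^ 2 / 2)
          ≤ b / 2 * (((1 + |u|) + 2 * c) * exp |x|) * exp (|u| * |x|) := by gcongr
        _ = _ := by ring
    calc |H x| ≤ |α * (-(x + score μ x))| +
        (|b / 2 * (-(x - u + score μ x)) * exp (x * u - u ^ 2 / 2)|
        + |b / 2 * (-(x + u + score μ x)) * exp (x * (-u) - u ^ 2 / 2)|) := by
          rw [hH]
          refine (abs_add_le _ _).trans ?_
          gcongr
          exact abs_add_le _ _
      _ ≤ _ := by linarith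
  set K := α * (2 * c) + b * ((1 + |u|) + 2 * c) with hK
  have hint : Integrable (fun x => (H x ^ 2 / α) * phi x) := by
    refine integrable_mul_phi (C := K ^ 2 / α) (a := 2 * (1 + |u|)) (by fun_prop) fun x => ?_
    rw [abs_div, abs_pow, abs_of_pos hα]
    have h1 := pow_le_pow_left₀ (abs_nonneg _) (hHg x) 2
    have h2 : (K * exp ((1 + |u|) * |x|)) ^ 2 = K ^ 2 * exp (2 * (1 + |u|) * |x|) := by
      rw [mul_pow, ← exp_nat_mul]
      congr 2
      push_cast; ring
    rw [h2] at h1
    rw [div_mul_eq_mul_div]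
    gcongr
  refine hint.mono' ?_ (Eventually.of_forall fun x => ?_)
  · have h2 := continuous_dens μ
    have h3 : (fun x => (dens1 (ptm α b u) x - score μ x * dens (ptm α b u) x) ^ 2 / dens μ x)
        = fun x => (phi x * H x) ^ 2 / dens μ x := by
      funext x; rw [hHeq]
    rw [h3]
    exact (((hphi.mul hHc).pow 2).div h2 fun x => (hμ.dens_pos hα x).ne').aestronglyMeasurable
  · rw [Real.norm_of_nonneg (div_nonneg (sq_nonneg _) (dens_nonneg μ x)), hHeq,
      div_le_iff₀ (hμ.dens_pos hα x)]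
    have h1 := hμ.le_dens x
    have h2 : 0 ≤ H x ^ 2 / α * phi x := by have := phi_nonneg x; positivity
    have h3 := mul_le_mul_of_nonneg_left h1 h2
    refine le_trans (le_of_eq ?_) h3
    field_simp

/-- First order condition with point competitors. -/
lemma Adm.first_order_pt (hμ : Adm α μ) (hα : 0 < α)
    (hmin : ∀ ν, Adm α ν → fish μ ≤ fish ν) {b : ℝ} (hb : 0 ≤ b) (hab : α + b ≤ 1) (u : ℝ) :
    fish μ ≤ α * Jfun μ 0 + b * Jfun μ u := by
  have h1 := hμ.lin_ptm hα hb u
  have h2 := hμ.quad_ptm hα hb u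
  have h3 := ptm_adm hα hb hab u
  rw [← h1.2]
  exact hμ.first_order h3 hα h1.1 h2 fun t h0 h1 => hmin _ (hμ.mix h3 h0 h1)

end

end Pool.Agent.H780R2.Mallows
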